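import Mathlib.Algebra.Polynomial.Laurent
import Mathlib.Data.Real.Basic
import Mathlib.Analysis.Convex.Hull
import Mathlib.LinearAlgebra.AffineSpace.Independent

/-!
Definitions for the statement: Morse words (sliced link diagrams), the Kauffman regular isotopy
invariant, the polygonal link drawn by a word, its writhe, and triangulated oriented surfaces.
-/

set_option autoImplicit false

namespace Pool.Agent.MP_995973_gt

open LaurentPolynomial

/-- The four elementary slices of an unoriented diagram, read upwards: a minimum, a maximum, the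
crossing whose over-strand runs from bottom left to top right, and the other crossing. -/
inductive Kind
  | cup
  | cap
  | xl
  | xr

open Kind

/-- Number of strands entering a slice from below. -/
def din : Kind → ℕ
  | cup => 0
  | _ => 2

/-- Number of strands leaving a slice at the top. -/
def dout : Kind → ℕ
  | cap => 0
  | _ => 2

/-- A letter `(g, i)` is the slice `g` with `i` strands to its left. `ok k w`: the word `w` is a
tangle diagram from `k` strands to no strand. -/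
def ok : ℕ → List (Kind × ℕ) → Prop
  | k, [] => k = 0
  | k, (g, i) :: w => i + din g ≤ k ∧ ok (k - din g + dout g) w

/-- Link diagrams: nonempty closed words. -/
def IsDiagram (w : List (Kind × ℕ)) : Prop := w ≠ [] ∧ ok 0 w

/-- Planar isotopy moves and the Reidemeister moves II and III on words. -/
inductive Move : List (Kind × ℕ) → List (Kind × ℕ) → Prop
  | comm (g h : Kind) (i j : ℕ) : i ≤ j →
      Move [(g, i), (h, j + dout g)] [(h, j + din g), (g, i)]
  | zig1 (i : ℕ) : Move [(cup, i + 1), (cap, i)] []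
  | zig2 (i : ℕ) : Move [(cup, i), (cap, i + 1)] []
  | pf1 (i : ℕ) : Move [(cup, i + 1), (xl, i)] [(cup, i), (xr, i + 1)]
  | pf2 (i : ℕ) : Move [(cup, i + 1), (xr, i)] [(cup, i), (xl, i + 1)]
  | pf3 (i : ℕ) : Move [(xl, i + 1), (cap, i)] [(xr, i), (cap, i + 1)]
  | pf4 (i : ℕ) : Move [(xr, i + 1), (cap, i)] [(xl, i), (cap, i + 1)]
  | r2a (i : ℕ) : Move [(xl, i), (xr, i)] []
  | r2b (i : ℕ) : Move [(xr, i), (xl, i)] []
  | r3 (i : ℕ) : Move [(xl, i), (xl, i + 1), (xl, i)] [(xl, i + 1), (xl, i), (xl, i + 1)]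

/-- Kauffman's regular isotopy invariant with values in `ℤ[z,z⁻¹][a,a⁻¹]`, where `a = T 1` and
`z = C (T 1)`. -/
structure IsKauffman (L : List (Kind × ℕ) → ℤ[T;T⁻¹][T;T⁻¹]) : Prop where
  circle : L [(cup, 0), (cap, 0)] = 1
  move : ∀ u l r v, Move l r → IsDiagram (u ++ l ++ v) → L (u ++ l ++ v) = L (u ++ r ++ v)
  curlR : ∀ u v i, IsDiagram (u ++ [(cup, i + 1), (xl, i), (cap, i + 1)] ++ v) →
    L (u ++ [(cup, i + 1), (xl, i), (cap, i + 1)] ++ v) = T 1 * L (u ++ v)
  curlL : ∀ u v i, IsDiagram (u ++ [(cup, i), (xl, i + 1), (cap, i)] ++ v) →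
    L (u ++ [(cup, i), (xl, i + 1), (cap, i)] ++ v) = T 1 * L (u ++ v)
  skein : ∀ u v i, IsDiagram (u ++ [(xl, i)] ++ v) →
    L (u ++ [(xl, i)] ++ v) + L (u ++ [(xr, i)] ++ v) =
      C (T 1) * (L (u ++ v) + L (u ++ [(cap, i), (cup, i)] ++ v))

/-- A lattice point of `ℝ³`. -/
def pt (x y : ℕ) (z : ℤ) : Fin 3 → ℝ := ![x, y, z]

/-- Height of the strand from bottom left to top right at the middle of a crossing. -/
def ht : Kind → ℤ
  | xl => 1
  | xr => -1
  | _ => 0

/-- The segments of `ℝ³` drawn for the slice `g` at place `i` between heights `2t` and `2t+2`. -/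
def loc (t i : ℕ) : Kind → List ((Fin 3 → ℝ) × (Fin 3 → ℝ))
  | cup => [(pt (2 * i + 1) (2 * t + 1) 0, pt (2 * i) (2 * t + 2) 0),
      (pt (2 * i + 1) (2 * t + 1) 0, pt (2 * i + 2) (2 * t + 2) 0)]
  | cap => [(pt (2 * i) (2 * t) 0, pt (2 * i + 1) (2 * t + 1) 0),
      (pt (2 * i + 2) (2 * t) 0, pt (2 * i + 1) (2 * t + 1) 0)]
  | g => [(pt (2 * i) (2 * t) 0, pt (2 * i + 1) (2 * t + 1) (ht g)),
      (pt (2 * i + 1) (2 * t + 1) (ht g), pt (2 * i + 2) (2 * t + 2) 0),
      (pt (2 * i + 2) (2 * t) 0, pt (2 * i + 1) (2 * t + 1) (-ht g)),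
      (pt (2 * i + 1) (2 * t + 1) (-ht g), pt (2 * i) (2 * t + 2) 0)]

/-- All segments of the polygonal link drawn by a word, from slice number `t` with `k` strands. -/
def segs : ℕ → ℕ → List (Kind × ℕ) → List ((Fin 3 → ℝ) × (Fin 3 → ℝ))
  | _, _, [] => []
  | t, k, (g, i) :: w =>
    (List.range i).map (fun j => (pt (2 * j) (2 * t) 0, pt (2 * j) (2 * t + 2) 0)) ++
    loc t i g ++
    (List.range (k - din g - i)).map
      (fun j => (pt (2 * (i + din g + j)) (2 * t) 0, pt (2 * (i + dout g + j)) (2 * t + 2) 0)) ++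
    segs (t + 1) (k - din g + dout g) w

open Classical in
/-- Writhe of a word whose segments are oriented by the set `B` of directed segments. -/
noncomputable def writhe (B : Set ((Fin 3 → ℝ) × (Fin 3 → ℝ))) : ℕ → List (Kind × ℕ) → ℤ
  | _, [] => 0
  | t, (g, i) :: w =>
    (if ((pt (2 * i) (2 * t) 0, pt (2 * i + 1) (2 * t + 1) (ht g)) ∈ B ↔
        (pt (2 * i + 2) (2 * t) 0, pt (2 * i + 1) (2 * t + 1) (-ht g)) ∈ B)
      then ht g else -ht g) + writhe B (t + 1) w

/-- Vertices of an oriented triangle. -/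
def vs (t : ℕ × ℕ × ℕ) : Finset ℕ := {t.1, t.2.1, t.2.2}

/-- Directed edges of an oriented triangle. -/
def de (t : ℕ × ℕ × ℕ) : Finset (ℕ × ℕ) := {(t.1, t.2.1), (t.2.1, t.2.2), (t.2.2, t.1)}

/-- `S` with vertex positions `p` is a connected, coherently oriented triangulated surface
embedded in `ℝ³`. -/
structure IsSurface (S : Finset (ℕ × ℕ × ℕ)) (p : ℕ → Fin 3 → ℝ) : Prop where
  indep : ∀ t ∈ S, AffineIndependent ℝ ![p t.1, p t.2.1, p t.2.2]
  inter : ∀ s ∈ S, ∀ t ∈ S, convexHull ℝ (p '' vs s) ∩ convexHull ℝ (p '' vs t) ⊆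
    convexHull ℝ (p '' (vs s ∩ vs t : Finset ℕ))
  orient : ∀ s ∈ S, ∀ t ∈ S, s ≠ t → vs s ≠ vs t ∧ Disjoint (de s) (de t)
  link : ∀ v, ∀ s ∈ S, ∀ t ∈ S, v ∈ vs s → v ∈ vs t →
    Relation.ReflTransGen (fun x y => y ∈ S ∧ v ∈ vs y ∧ 2 ≤ (vs x ∩ vs y).card) s t
  conn : ∀ s ∈ S, ∀ t ∈ S,
    Relation.ReflTransGen (fun x y => y ∈ S ∧ (vs x ∩ vs y).Nonempty) s t

/-- The oriented boundary: directed edges whose reverse is not an edge of a triangle. -/
def bdry (S : Finset (ℕ × ℕ × ℕ)) (p : ℕ → Fin 3 → ℝ) : Set ((Fin 3 → ℝ) × (Fin 3 → ℝ)) :=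
  {e | ∃ u v, (u, v) ∈ S.biUnion de ∧ (v, u) ∉ S.biUnion de ∧ e = (p u, p v)}

/-- Euler characteristic: vertices minus edges plus triangles. -/
def euler (S : Finset (ℕ × ℕ × ℕ)) : ℤ :=
  (S.biUnion vs).card - ((S.biUnion de).image fun e => ({e.1, e.2} : Finset ℕ)).card + S.card

end Pool.Agent.MP_995973_gt
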