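import Mathlib.Analysis.RCLike.Basic
import Mathlib.Algebra.Order.Star.Real
import Mathlib.LinearAlgebra.AffineSpace.FiniteDimensional
import Mathlib.Order.CompletePartialOrder
import Mathlib.Tactic.Polynomial.Basic
import Pool.Agent.MP_995973_gt.Defs

-- ======== part 0: formerly Pool.Agent.MP_995973_gt.Skein
section MrgPart0

/-! Skein functionals on words and derived local identities. -/

set_option autoImplicit false

namespace Pool.Agent.MP_995973_gt

open Kind

abbrev W := List (Kind × ℕ)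

def Val : ℕ → W → ℕ → Prop
  | k, [], k' => k = k'
  | k, (g, i) :: w, k' => i + din g ≤ k ∧ Val (k - din g + dout g) w k'

theorem Val.append : ∀ {u v : W} {k k' k'' : ℕ}, Val k u k' → Val k' v k'' → Val k (u ++ v) k''
  | [], _, _, _, _, h, h' => by cases h; exact h'
  | (_, _) :: _, _, _, _, _, h, h' => ⟨h.1, Val.append h.2 h'⟩

theorem ok_iff_val : ∀ {w : W} {k : ℕ}, ok k w ↔ Val k w 0
  | [], _ => Iff.rfl
  | (_, _) :: _, _ => and_congr Iff.rfl ok_iff_val

theorem ok_append : ∀ {u v : W} {k k' : ℕ}, Val k u k' → (ok k (u ++ v) ↔ ok k' v)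
  | [], _, _, _, h => by cases h; exact Iff.rfl
  | (_, _) :: _, _, _, _, h => by
    simp only [List.cons_append, ok]
    rw [ok_append h.2]
    exact ⟨fun h' => h'.2, fun h' => ⟨h.1, h'⟩⟩

theorem val_of_ok_append : ∀ {u v : W} {k : ℕ}, ok k (u ++ v) → ∃ k', Val k u k' ∧ ok k' v
  | [], _, k, h => ⟨k, rfl, h⟩
  | (_, _) :: _, _, _, h => by
    obtain ⟨k', h1, h2⟩ := val_of_ok_append h.2
    exact ⟨k', ⟨h.1, h1⟩, h2⟩

variable {K : Type*} [CommRing K]

structure Head0 (a z s : K) (k : ℕ) (F : W → K) : Prop where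
  comm : ∀ g h i j v, i ≤ j → j + din g + din h ≤ k →
    F ((g, i) :: (h, j + dout g) :: v) = F ((h, j + din g) :: (g, i) :: v)
  zig1 : ∀ i v, i + 1 ≤ k → F ((cup, i + 1) :: (cap, i) :: v) = F v
  zig2 : ∀ i v, i + 1 ≤ k → F ((cup, i) :: (cap, i + 1) :: v) = F v
  pf1 : ∀ i v, i + 1 ≤ k → F ((cup, i + 1) :: (xl, i) :: v) = F ((cup, i) :: (xr, i + 1) :: v)
  pf2 : ∀ i v, i + 1 ≤ k → F ((cup, i + 1) :: (xr, i) :: v) = F ((cup, i) :: (xl, i + 1) :: v)
  pf3 : ∀ i v, i + 3 ≤ k → F ((xl, i + 1) :: (cap, i) :: v) = F ((xr, i) :: (cap, i + 1) :: v)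
  pf4 : ∀ i v, i + 3 ≤ k → F ((xr, i + 1) :: (cap, i) :: v) = F ((xl, i) :: (cap, i + 1) :: v)
  r2a : ∀ i v, i + 2 ≤ k → F ((xl, i) :: (xr, i) :: v) = F v
  r2b : ∀ i v, i + 2 ≤ k → F ((xr, i) :: (xl, i) :: v) = F v
  r3 : ∀ i v, i + 3 ≤ k →
    F ((xl, i) :: (xl, i + 1) :: (xl, i) :: v) = F ((xl, i + 1) :: (xl, i) :: (xl, i + 1) :: v)
  curlR : ∀ i v, i + 1 ≤ k → F ((cup, i + 1) :: (xl, i) :: (cap, i + 1) :: v) = a * F v
  curlL : ∀ i v, i + 1 ≤ k → F ((cup, i) :: (xl, i + 1) :: (cap, i) :: v) = a * F v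
  skein : ∀ i v, i + 2 ≤ k →
    F ((xl, i) :: v) + s * F ((xr, i) :: v) = z * (F v + s * F ((cap, i) :: (cup, i) :: v))

def Good0 (a z s : K) (k : ℕ) (F : W → K) : Prop :=
  ∀ u k', Val k u k' → Head0 a z s k' (fun v => F (u ++ v))

def Loops (d : K) (k : ℕ) (F : W → K) : Prop :=
  ∀ u k', Val k u k' → ∀ i v, i ≤ k' → F (u ++ (cup, i) :: (cap, i) :: v) = d * F (u ++ v)

section
variable {a ai z s d : K} {k : ℕ} {F : W → K}

theorem Good0.head (h : Good0 a z s k F) : Head0 a z s k F := h [] k rfl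

theorem Good0.shift (h : Good0 a z s k F) {u : W} {k' : ℕ} (hu : Val k u k') :
    Good0 a z s k' (fun v => F (u ++ v)) := fun u' k'' hu' => by
  simpa only [List.append_assoc] using h (u ++ u') k'' (hu.append hu')

theorem Loops.shift (h : Loops d k F) {u : W} {k' : ℕ} (hu : Val k u k') :
    Loops d k' (fun v => F (u ++ v)) := fun u' k'' hu' i v hi => by
  simpa only [List.append_assoc] using h (u ++ u') k'' (hu.append hu') i v hi

theorem Loops.head (h : Loops d k F) (i : ℕ) (v : W) (hi : i ≤ k) :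
    F ((cup, i) :: (cap, i) :: v) = d * F v := h [] k rfl i v hi

theorem Good0.step (h : Good0 a z s k F) (g : Kind) (i : ℕ) (hi : i + din g ≤ k) :
    Good0 a z s (k - din g + dout g) (fun v => F ((g, i) :: v)) :=
  h.shift (u := [(g, i)]) ⟨hi, rfl⟩

theorem Good0.scup (h : Good0 a z s k F) (i : ℕ) (hi : i ≤ k) :
    Good0 a z s (k + 2) (fun v => F ((cup, i) :: v)) := h.step cup i hi

theorem Good0.scap (h : Good0 a z s k F) (i : ℕ) (hi : i + 2 ≤ k) :
    Good0 a z s (k - 2) (fun v => F ((cap, i) :: v)) := h.step cap i hi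

theorem Good0.sxl (h : Good0 a z s k F) (i : ℕ) (hi : i + 2 ≤ k) :
    Good0 a z s k (fun v => F ((xl, i) :: v)) := by
  have := h.step xl i hi
  rwa [show k - din xl + dout xl = k by simp only [din, dout]; omega] at this

theorem Good0.sxr (h : Good0 a z s k F) (i : ℕ) (hi : i + 2 ≤ k) :
    Good0 a z s k (fun v => F ((xr, i) :: v)) := by
  have := h.step xr i hi
  rwa [show k - din xr + dout xr = k by simp only [din, dout]; omega] at this

theorem Good0.capR (h : Good0 a z s k F) (j : ℕ) (v : W) (hj : j + 2 ≤ k) :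
    F ((xr, j) :: (cap, j) :: v) = a * F ((cap, j) :: v) := by
  have h1 := h.scup (j + 1) (by omega)
  calc F ((xr, j) :: (cap, j) :: v)
      = F ((cup, j + 1) :: (cap, j) :: (xr, j) :: (cap, j) :: v) :=
        (h.head.zig1 j _ (by omega)).symm
    _ = F ((cup, j + 1) :: (xr, j + 2) :: (cap, j) :: (cap, j) :: v) :=
        h1.head.comm cap xr j j _ le_rfl (by simp only [din]; omega)
    _ = F ((cup, j + 1) :: (xr, j + 2) :: (cap, j + 2) :: (cap, j) :: v) :=
        (h1.sxr (j + 2) (by omega)).head.comm cap cap j j _ le_rfl (by simp only [din]; omega)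
    _ = F ((cup, j + 2) :: (xl, j + 1) :: (cap, j + 2) :: (cap, j) :: v) :=
        (h.head.pf1 (j + 1) _ (by omega)).symm
    _ = _ := h.head.curlR (j + 1) _ (by omega)

theorem Good0.cupR (h : Good0 a z s k F) (j : ℕ) (v : W) (hj : j ≤ k) :
    F ((cup, j) :: (xr, j) :: v) = a * F ((cup, j) :: v) := by
  have h1 := h.scup j hj
  calc F ((cup, j) :: (xr, j) :: v)
      = F ((cup, j) :: (xr, j) :: (cup, j + 2) :: (cap, j + 1) :: v) :=
        ((h1.sxr j (by omega)).head.zig1 (j + 1) _ (by omega)).symm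
    _ = F ((cup, j) :: (cup, j + 2) :: (xr, j) :: (cap, j + 1) :: v) :=
        h1.head.comm xr cup j j _ le_rfl (by simp only [din]; omega)
    _ = F ((cup, j) :: (cup, j) :: (xr, j) :: (cap, j + 1) :: v) :=
        h.head.comm cup cup j j _ le_rfl (by simp only [din]; omega)
    _ = F ((cup, j) :: (cup, j) :: (xl, j + 1) :: (cap, j) :: v) :=
        ((h1.scup j (by omega)).head.pf3 j _ (by omega)).symm
    _ = _ := h1.head.curlL j _ (by omega)

theorem Good0.capL (h : Good0 a z s k F) (ha : a * ai = 1) (j : ℕ) (v : W) (hj : j + 2 ≤ k) :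
    F ((xl, j) :: (cap, j) :: v) = ai * F ((cap, j) :: v) := by
  have h1 : F ((xl, j) :: (xr, j) :: (cap, j) :: v) = a * F ((xl, j) :: (cap, j) :: v) :=
    (h.sxl j hj).capR j v hj
  have h2 := h.head.r2a j ((cap, j) :: v) hj
  rw [← h2, h1, ← mul_assoc, mul_comm ai, ha, one_mul]

theorem Good0.cupL (h : Good0 a z s k F) (ha : a * ai = 1) (j : ℕ) (v : W) (hj : j ≤ k) :
    F ((cup, j) :: (xl, j) :: v) = ai * F ((cup, j) :: v) := by
  have h1 := h.cupR j ((xl, j) :: v) hj
  have h2 : F ((cup, j) :: (xr, j) :: (xl, j) :: v) = F ((cup, j) :: v) :=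
    (h.scup j hj).head.r2b j v (by omega)
  rw [← h2, h1, ← mul_assoc, mul_comm ai, ha, one_mul]

theorem Good0.overCup (h : Good0 a z s k F) (p : ℕ) (v : W) (hp : p + 1 ≤ k) :
    F ((cup, p + 1) :: (xl, p) :: (xl, p + 1) :: v) = F ((cup, p) :: v) :=
  (h.head.pf1 p _ hp).trans ((h.scup p (by omega)).head.r2b (p + 1) v (by omega))

theorem Good0.overCap (h : Good0 a z s k F) (p : ℕ) (v : W) (hp : p + 3 ≤ k) :
    F ((xl, p) :: (xl, p + 1) :: (cap, p) :: v) = F ((cap, p + 1) :: v) :=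
  ((h.sxl p (by omega)).head.pf3 p v hp).trans (h.head.r2a p _ (by omega))

theorem Good0.underCap (h : Good0 a z s k F) (p : ℕ) (v : W) (hp : p + 3 ≤ k) :
    F ((xl, p + 1) :: (xl, p) :: (cap, p + 1) :: v) = F ((cap, p) :: v) :=
  ((h.sxl (p + 1) (by omega)).head.pf4 p v hp).symm.trans (h.head.r2a (p + 1) _ (by omega))

theorem Good0.underCup (h : Good0 a z s k F) (p : ℕ) (v : W) (hp : p + 1 ≤ k) :
    F ((cup, p) :: (xl, p + 1) :: (xl, p) :: v) = F ((cup, p + 1) :: v) :=
  (h.head.pf2 p _ hp).symm.trans ((h.scup (p + 1) (by omega)).head.r2b p v (by omega))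

theorem Good0.r3' (h : Good0 a z s k F) (p : ℕ) (v : W) (hp : p + 3 ≤ k) :
    F ((xl, p) :: (xl, p + 1) :: (xr, p) :: v) = F ((xr, p + 1) :: (xl, p) :: (xl, p + 1) :: v) := by
  have h1 := h.sxr (p + 1) (by omega)
  calc F ((xl, p) :: (xl, p + 1) :: (xr, p) :: v)
      = F ((xr, p + 1) :: (xl, p + 1) :: (xl, p) :: (xl, p + 1) :: (xr, p) :: v) :=
        (h.head.r2b (p + 1) _ (by omega)).symm
    _ = F ((xr, p + 1) :: (xl, p) :: (xl, p + 1) :: (xl, p) :: (xr, p) :: v) :=
        (h1.head.r3 p _ hp).symm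
    _ = _ := ((h1.sxl p (by omega)).sxl (p + 1) (by omega)).head.r2a p v (by omega)

/-- A strand travelling to the right over `n` strands. -/
def trav : ℕ → ℕ → W
  | _, 0 => []
  | p, n + 1 => (xl, p) :: trav (p + 1) n

/-- A strand travelling to the left over `n` strands. -/
def travR (p : ℕ) : ℕ → W
  | 0 => []
  | n + 1 => (xr, p + n) :: travR p n

theorem trav_succ' : ∀ (n p : ℕ), trav p (n + 1) = trav p n ++ [(xl, p + n)]
  | 0, _ => rfl
  | n + 1, p => by
    rw [trav, trav_succ' n (p + 1), show p + 1 + n = p + (n + 1) by omega]; rfl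

theorem val_trav : ∀ (n p k : ℕ), p + n + 1 ≤ k → Val k (trav p n) k
  | 0, _, _, _ => rfl
  | n + 1, p, k, h => ⟨by simp only [din]; omega, by
      rw [show k - din xl + dout xl = k by simp only [din, dout]; omega]
      exact val_trav n (p + 1) k (by omega)⟩

theorem val_travR (p : ℕ) : ∀ (n k : ℕ), p + n + 1 ≤ k → Val k (travR p n) k
  | 0, _, _ => rfl
  | n + 1, k, h => ⟨by simp only [din]; omega, by
      rw [show k - din xr + dout xr = k by simp only [din, dout]; omega]
      exact val_travR p n k (by omega)⟩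

theorem Good0.travLeft (g : Kind) (i : ℕ) (v : W) : ∀ (n j : ℕ) {F : W → K},
    Good0 a z s k F → i ≤ j → j + din g + n + 1 ≤ k →
    F (trav (j + din g) n ++ (g, i) :: v) = F ((g, i) :: (trav (j + dout g) n ++ v))
  | 0, _, _, _, _, _ => rfl
  | n + 1, j, F, h, hij, hk => by
    have h1 := Good0.travLeft g i v n (j + 1) (h.sxl (j + din g) (by omega)) (by omega) (by omega)
    rw [show j + 1 + din g = j + din g + 1 by omega,
      show j + 1 + dout g = j + dout g + 1 by omega] at h1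
    exact h1.trans (h.head.comm g xl i j _ hij (by simp only [din] at *; omega)).symm

theorem Good0.travRight (g : Kind) (i : ℕ) (v : W) : ∀ (n p : ℕ) {F : W → K},
    Good0 a z s k F → p + n + 1 ≤ i → i + din g ≤ k →
    F (trav p n ++ (g, i) :: v) = F ((g, i) :: (trav p n ++ v))
  | 0, _, _, _, _, _ => rfl
  | n + 1, p, F, h, hij, hk => by
    have h1 := Good0.travRight g i v n (p + 1) (h.sxl p (by omega)) (by omega) hk
    obtain ⟨j, rfl⟩ : ∃ j, i = j + 2 := ⟨i - 2, by omega⟩
    exact h1.trans (h.head.comm xl g p j _ (by omega) (by simp only [din] at *; omega))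

theorem Good0.pass0 (h : Good0 a z s k F) (g : Kind) (p : ℕ) (v : W) (hp : p + din g + 1 ≤ k) :
    F (trav p (din g) ++ (g, p) :: v) = F ((g, p + 1) :: (trav p (dout g) ++ v)) := by
  cases g
  · exact (h.overCup p v hp).symm
  · exact h.overCap p v hp
  · exact h.head.r3 p v hp
  · exact h.r3' p v hp

theorem trav_add : ∀ (m p n : ℕ), trav p (m + n) = trav p m ++ trav (p + m) n
  | 0, p, n => by simp [trav]
  | m + 1, p, n => by
    rw [show m + 1 + n = (m + n) + 1 by omega, trav, trav, trav_add m (p + 1) n,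
      show p + 1 + m = p + (m + 1) by omega]; rfl

theorem Good0.pass (g : Kind) (r : ℕ) (v : W) : ∀ (t p : ℕ) {F : W → K},
    Good0 a z s k F → p + t + din g + r + 1 ≤ k →
    F (trav p (t + din g + r) ++ (g, p + t) :: v) =
      F ((g, p + t + 1) :: (trav p (t + dout g + r) ++ v))
  | 0, p, F, h, hk => by
    rw [zero_add, zero_add, add_zero, trav_add, trav_add, List.append_assoc, List.append_assoc]
    have h1 := Good0.travLeft g p v r p (h.shift (val_trav (din g) p k (by omega))) le_rfl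
      (by omega)
    exact h1.trans (h.pass0 g p _ (by omega))
  | t + 1, p, F, h, hk => by
    have h1 := Good0.pass g r v t (p + 1) (h.sxl p (by omega)) (by omega)
    rw [show t + 1 + din g + r = (t + din g + r) + 1 by omega,
      show t + 1 + dout g + r = (t + dout g + r) + 1 by omega, trav, trav,
      show p + (t + 1) = p + 1 + t by omega]
    refine h1.trans ?_
    have h2 := h.head.comm xl g p (p + t) (trav (p + 1) (t + dout g + r) ++ v) (by omega)
      (by simp only [din] at *; omega)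
    rw [show p + t + dout xl = p + 1 + t + 1 by simp only [dout]; omega,
      show p + t + din xl = p + 1 + t + 1 by simp only [din]; omega] at h2
    exact h2

theorem Good0.lastCap (j : ℕ) (v : W) : ∀ (n : ℕ) {F : W → K},
    Good0 a z s k F → j + n + 1 ≤ k →
    F ((cup, j) :: (trav (j + 1) n ++ (cap, j + 1 + n) :: v)) = F (travR j n ++ v)
  | 0, F, h, hk => h.head.zig2 j v hk
  | n + 1, F, h, hk => by
    have h1 := h.scup j (by omega)
    have h2 := h1.shift (val_trav n (j + 1) (k + 2) (by omega))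
    rw [trav_succ', List.append_assoc]
    calc F ((cup, j) :: (trav (j + 1) n ++ (xl, j + 1 + n) :: (cap, j + 1 + n + 1) :: v))
        = F ((cup, j) :: (trav (j + 1) n ++ (xr, j + 1 + n + 1) :: (cap, j + 1 + n) :: v)) :=
          (h2.head.pf4 (j + 1 + n) v (by omega)).symm
      _ = F ((cup, j) :: (xr, j + 1 + n + 1) :: (trav (j + 1) n ++ (cap, j + 1 + n) :: v)) :=
          Good0.travRight xr _ _ n (j + 1) h1 (by omega) (by simp only [din]; omega)
      _ = F ((xr, j + n) :: (cup, j) :: (trav (j + 1) n ++ (cap, j + 1 + n) :: v)) := by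
          have := h.head.comm cup xr j (j + n) (trav (j + 1) n ++ (cap, j + 1 + n) :: v)
            (by omega) (by simp only [din]; omega)
          rw [show j + n + dout cup = j + 1 + n + 1 by simp only [dout]; omega] at this
          exact this
      _ = _ := Good0.lastCap j v n (h.sxr (j + n) (by omega)) (by omega)

end

end Pool.Agent.MP_995973_gt

end MrgPart0

-- ======== part 1: formerly Pool.Agent.MP_995973_gt.Alg
section MrgPart1

/-! A normal form algorithm for the Kauffman skein module of words and its soundness. -/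

set_option autoImplicit false

namespace Pool.Agent.MP_995973_gt

open Kind

abbrev Poly := List (ℤ × ℤ × ℤ)
abbrev Vec := List (List ℕ × Poly)

def paddAux (x : ℤ × ℤ × ℤ) (xs : Poly) (rec : Poly → Poly) : Poly → Poly
  | [] => x :: xs
  | y :: ys =>
    if x.1 = y.1 then
      (if x.2.1 = y.2.1 then
        (if x.2.2 + y.2.2 = 0 then rec ys else (x.1, x.2.1, x.2.2 + y.2.2) :: rec ys)
      else if x.2.1 < y.2.1 then x :: rec (y :: ys) else y :: paddAux x xs rec ys)
    else if x.1 < y.1 then x :: rec (y :: ys) else y :: paddAux x xs rec ys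

def padd : Poly → Poly → Poly
  | [] => fun ys => ys
  | x :: xs => paddAux x xs (padd xs)

def pmon (x : ℤ × ℤ × ℤ) : Poly → Poly
  | [] => []
  | y :: ys => (x.1 + y.1, x.2.1 + y.2.1, x.2.2 * y.2.2) :: pmon x ys

def pmul : Poly → Poly → Poly
  | [], _ => []
  | x :: xs, q => padd (pmon x q) (pmul xs q)

def vins (b : List ℕ) (p : Poly) : Vec → Vec
  | [] => [(b, p)]
  | e :: V => if b = e.1 then (b, padd p e.2) :: V else e :: vins b p V

def vadd : Vec → Vec → Vec
  | [], V => V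
  | e :: U, V => vins e.1 e.2 (vadd U V)

def vsc (p : Poly) : Vec → Vec
  | [] => []
  | e :: V => (e.1, pmul e.2 p) :: vsc p V

def vmon (x : ℤ × ℤ × ℤ) : Vec → Vec
  | [] => []
  | e :: V => (e.1, pmon x e.2) :: vmon x V

def vmap (f : List ℕ → Vec) : Vec → Vec
  | [] => []
  | e :: V => match e.2 with
    | [] => vmap f V
    | y :: ys => vadd (vsc (y :: ys) (f e.1)) (vmap f V)

def vkey (f : List ℕ → List ℕ) : Vec → Vec
  | [] => []
  | e :: V => (f e.1, e.2) :: vkey f V

def one (b : List ℕ) : Vec := [(b, [(0, 0, 1)])]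

/-- `-A + z B + z C`. -/
def vsk (A B C : Vec) : Vec := vadd (vmon (0, 0, -1) A) (vmon (0, 1, 1) (vadd B C))

def cupB : ℕ → List ℕ → List ℕ
  | i, [] => [i]
  | i, j :: u => if i = 2 * u.length + 2 then i :: j :: u
      else if i ≤ j then (j + 2) :: cupB i u else j :: cupB (i - 1) u

def travV (X : ℕ → List ℕ → Vec) : ℕ → ℕ → Vec → Vec
  | _, 0, V => V
  | p, n + 1, V => travV X (p + 1) n (vmap (X p) V)

def travRV (X : ℕ → List ℕ → Vec) (p : ℕ) : ℕ → Vec → Vec
  | 0, V => V
  | n + 1, V => travRV X p n (vmap (X (p + n)) V)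

def kx : Bool → Kind
  | true => xl
  | false => xr

def Xlow (X : Bool → ℕ → List ℕ → Vec) (m : ℕ) (s : Bool) (i : ℕ) : List ℕ → Vec
  | [] => []
  | j :: u =>
    if i + 2 ≤ j then vkey (fun b => j :: b) (X s i u)
    else if i + 1 = j then
      (match s with
        | false => one (i :: u)
        | true => vsk (one (i :: u)) (one (j :: u))
            (vkey (cupB i) (travV (X true) i (2 * m - j) (one u))))
    else if i = j then
      (if j = 2 * m then
        (match s with
          | true => [(j :: u, [(-1, 0, 1)])]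
          | false => [(j :: u, [(1, 0, 1)])])
      else
        (match s with
          | true => one ((j + 1) :: u)
          | false => vsk (one ((j + 1) :: u)) (one (j :: u))
              (vmon (1, 0, 1) (vkey (cupB j) (travV (X true) j (2 * m - j - 1) (one u))))))
    else vkey (fun b => j :: b) (X s (i - 1) u)

def Xtop (X : Bool → ℕ → List ℕ → Vec) (m : ℕ) (s : Bool) (i : ℕ) : List ℕ → Vec
  | [] => []
  | j :: u =>
    if i = 2 * m ∧ j < 2 * m then
      (match s with
        | false => travV (Xlow X m true) (j + 1) (2 * m - j - 1) (one (cupB j u))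
        | true => vsk (travV (Xlow X m true) (j + 1) (2 * m - j - 1) (one (cupB j u)))
            (one (j :: u))
            (vmon (-1, 0, 1) (vkey (fun b => (2 * m) :: b)
              (travRV (X false) j (2 * m - j - 1) (one u)))))
    else Xlow X m s i (j :: u)

def XX : ℕ → Bool → ℕ → List ℕ → Vec
  | 0 => fun _ _ _ => []
  | m + 1 => Xtop (XX m) m

def CAPs (Y : ℕ → List ℕ → Vec) (m : ℕ) (i : ℕ) : List ℕ → Vec
  | [] => []
  | j :: u =>
    if i + 2 ≤ j then vkey (fun b => (j - 2) :: b) (Y i u)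
    else if i + 1 = j then travV (XX m true) i (2 * m - j) (one u)
    else if i = j then
      (if j = 2 * m then [(u, [(-1, -1, 1), (0, 0, -1), (1, -1, 1)])]
      else vmon (1, 0, 1) (travV (XX m true) j (2 * m - j - 1) (one u)))
    else if i = 2 * m then vmon (-1, 0, 1) (travRV (XX m false) j (2 * m - j - 1) (one u))
    else vkey (fun b => j :: b) (Y (i - 1) u)

def CAP : ℕ → ℕ → List ℕ → Vec
  | 0 => fun _ _ => []
  | m + 1 => CAPs (CAP m) m

def runV : ℕ → W → Vec → Vec
  | _, [], V => V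
  | m, (cup, i) :: w, V => runV (m + 1) w (vkey (cupB i) V)
  | m, (cap, i) :: w, V => runV (m - 1) w (vmap (CAP m i) V)
  | m, (xl, i) :: w, V => runV m w (vmap (XX m true i) V)
  | m, (xr, i) :: w, V => runV m w (vmap (XX m false i) V)

def vsum : Vec → Poly
  | [] => []
  | e :: V => padd e.2 (vsum V)

/-- The polynomial computed for a diagram. -/
def lam (w : W) : Poly := vsum (runV 0 w.dropLast (one []))

/-- The word of a normal form. -/
def nf : List ℕ → W
  | [] => []
  | j :: u => nf u ++ (cup, j) :: trav (j + 1) (2 * u.length - j)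

def VN : ℕ → List ℕ → Prop
  | m, [] => m = 0
  | m, j :: u => m = u.length + 1 ∧ j ≤ 2 * u.length ∧ VN u.length u

theorem VN.len : ∀ {m : ℕ} {b : List ℕ}, VN m b → b.length = m
  | _, [], h => h.symm
  | _, _ :: _, h => h.1.symm

theorem val_nf : ∀ {m : ℕ} {b : List ℕ}, VN m b → Val 0 (nf b) (2 * m)
  | _, [], h => by cases h; rfl
  | m, j :: u, h => by
    refine (val_nf h.2.2).append ⟨h.2.1, ?_⟩
    have := val_trav (2 * u.length - j) (j + 1) (2 * m) (by have := h.1; have := h.2.1; omega)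
    rwa [show 2 * u.length - din cup + dout cup = 2 * m by
      simp only [din, dout]; have := h.1; omega]

def VOK (m : ℕ) (V : Vec) : Prop := ∀ e ∈ V, VN m e.1

theorem VOK.nil (m : ℕ) : VOK m [] := fun _ h => by cases h

theorem VOK.cons {m : ℕ} {e : List ℕ × Poly} {V : Vec} (h : VN m e.1) (hV : VOK m V) :
    VOK m (e :: V) := fun e' h' => by
  rcases List.mem_cons.1 h' with rfl | h'
  · exact h
  · exact hV _ h'

theorem VOK.tail {m : ℕ} {e : List ℕ × Poly} {V : Vec} (h : VOK m (e :: V)) : VOK m V :=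
  fun _ h' => h _ (List.mem_cons_of_mem _ h')

theorem VOK.hd {m : ℕ} {e : List ℕ × Poly} {V : Vec} (h : VOK m (e :: V)) : VN m e.1 :=
  h _ List.mem_cons_self

theorem VOK.vins {m : ℕ} {b : List ℕ} (p : Poly) (hb : VN m b) :
    ∀ {V : Vec}, VOK m V → VOK m (vins b p V)
  | [], _ => VOK.cons hb (VOK.nil m)
  | e :: V, h => by
    unfold MP_995973_gt.vins
    split
    · exact VOK.cons hb h.tail
    · exact VOK.cons h.hd (VOK.vins p hb h.tail)

theorem VOK.vadd {m : ℕ} : ∀ {U V : Vec}, VOK m U → VOK m V → VOK m (vadd U V)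
  | [], _, _, h => h
  | e :: _, _, hU, h => VOK.vins e.2 hU.hd (VOK.vadd hU.tail h)

theorem VOK.vsc {m : ℕ} (p : Poly) : ∀ {V : Vec}, VOK m V → VOK m (vsc p V)
  | [], h => h
  | _ :: _, h => VOK.cons h.hd (VOK.vsc p h.tail)

theorem VOK.vmon {m : ℕ} (x : ℤ × ℤ × ℤ) : ∀ {V : Vec}, VOK m V → VOK m (vmon x V)
  | [], h => h
  | _ :: _, h => VOK.cons h.hd (VOK.vmon x h.tail)

theorem VOK.vmap {m m' : ℕ} {f : List ℕ → Vec} (hf : ∀ b, VN m b → VOK m' (f b)) :
    ∀ {V : Vec}, VOK m V → VOK m' (vmap f V)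
  | [], _ => VOK.nil _
  | (_, []) :: V, h => (VOK.vmap hf h.tail : VOK m' (MP_995973_gt.vmap f V))
  | (_, _ :: _) :: _, h => VOK.vadd (VOK.vsc _ (hf _ h.hd)) (VOK.vmap hf h.tail)

theorem VOK.vkey {m m' : ℕ} {f : List ℕ → List ℕ} (hf : ∀ b, VN m b → VN m' (f b)) :
    ∀ {V : Vec}, VOK m V → VOK m' (vkey f V)
  | [], _ => VOK.nil _
  | _ :: _, h => VOK.cons (hf _ h.hd) (VOK.vkey hf h.tail)

theorem VOK.one {m : ℕ} {b : List ℕ} (h : VN m b) : VOK m (one b) := VOK.cons h (VOK.nil m)

theorem VOK.vsk {m : ℕ} {A B C : Vec} (hA : VOK m A) (hB : VOK m B) (hC : VOK m C) :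
    VOK m (vsk A B C) := (hA.vmon _).vadd ((hB.vadd hC).vmon _)

theorem VN.mk {m j : ℕ} {u : List ℕ} (hu : VN m u) (hj : j ≤ 2 * m) : VN (m + 1) (j :: u) := by
  have := hu.len
  subst this
  exact ⟨rfl, hj, hu⟩

theorem VN.cupB : ∀ {b : List ℕ} {m i : ℕ}, VN m b → i ≤ 2 * m → VN (m + 1) (cupB i b)
  | [], m, i, h, hi => VN.mk h hi
  | j :: u, m, i, h, hi => by
    obtain ⟨rfl, hj, hu⟩ := h
    unfold MP_995973_gt.cupB
    split
    · exact VN.mk (VN.mk hu hj) hi
    · split
      · exact VN.mk (VN.cupB hu (by omega)) (by omega)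
      · exact VN.mk (VN.cupB hu (by omega)) (by omega)

section Sound

variable {K : Type*} [CommRing K] (a z : Kˣ)

def mon (x : ℤ × ℤ × ℤ) : K := (x.2.2 : K) * ((a ^ x.1 : Kˣ) : K) * ((z ^ x.2.1 : Kˣ) : K)

def pev : Poly → K
  | [] => 0
  | x :: xs => mon a z x + pev xs

theorem pev_paddAux (x : ℤ × ℤ × ℤ) (xs : Poly) (rec : Poly → Poly)
    (hrec : ∀ ys, pev a z (rec ys) = pev a z xs + pev a z ys) :
    ∀ ys, pev a z (paddAux x xs rec ys) = mon a z x + pev a z xs + pev a z ys
  | [] => by simp [paddAux, pev]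
  | y :: ys => by
    have ih := pev_paddAux x xs rec hrec ys
    unfold paddAux
    split_ifs with h1 h2 h3 h4 h5
    · have : mon a z x + mon a z y = 0 := by
        unfold mon
        rw [← h1, ← h2, ← add_mul, ← add_mul, ← Int.cast_add, h3]; simp
      rw [hrec, pev]; linear_combination -this
    · have : mon a z (x.1, x.2.1, x.2.2 + y.2.2) = mon a z x + mon a z y := by
        unfold mon
        rw [← h1, ← h2]; push_cast; ring
      simp only [pev, hrec, this]; ring
    · simp only [pev, hrec]; ring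
    · simp only [pev, ih]; ring
    · simp only [pev, hrec]; ring
    · simp only [pev, ih]; ring

theorem pev_padd : ∀ p q : Poly, pev a z (padd p q) = pev a z p + pev a z q
  | [], q => by simp [padd, pev]
  | x :: xs, q => pev_paddAux a z x xs (padd xs) (pev_padd xs) q

theorem pev_pmon (x : ℤ × ℤ × ℤ) : ∀ q : Poly, pev a z (pmon x q) = mon a z x * pev a z q
  | [] => by simp [pmon, pev]
  | y :: ys => by
    simp only [pmon, pev, pev_pmon x ys, mon, zpow_add, Units.val_mul]; push_cast; ring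

theorem pev_pmul : ∀ p q : Poly, pev a z (pmul p q) = pev a z p * pev a z q
  | [], q => by simp [pmul, pev]
  | x :: xs, q => by simp only [pmul, pev_padd, pev_pmon, pev_pmul xs q, pev]; ring

def vev (F : W → K) (v : W) : Vec → K
  | [] => 0
  | e :: V => pev a z e.2 * F (nf e.1 ++ v) + vev F v V

variable (F : W → K)

theorem vev_vins (v : W) (b : List ℕ) (p : Poly) :
    ∀ V : Vec, vev a z F v (vins b p V) = pev a z p * F (nf b ++ v) + vev a z F v V
  | [] => rfl
  | e :: V => by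
    unfold vins
    split_ifs with h
    · simp only [vev, pev_padd, ← h]; ring
    · simp only [vev, vev_vins v b p V]; ring

theorem vev_vadd (v : W) : ∀ U V : Vec, vev a z F v (vadd U V) = vev a z F v U + vev a z F v V
  | [], V => by simp [vadd, vev]
  | e :: U, V => by simp only [vadd, vev_vins, vev_vadd v U V, vev]; ring

theorem vev_vsc (v : W) (p : Poly) : ∀ V : Vec, vev a z F v (vsc p V) = pev a z p * vev a z F v V
  | [] => by simp [vsc, vev]
  | e :: V => by simp only [vsc, vev, pev_pmul, vev_vsc v p V]; ring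

theorem vev_vmon (v : W) (x : ℤ × ℤ × ℤ) :
    ∀ V : Vec, vev a z F v (vmon x V) = mon a z x * vev a z F v V
  | [] => by simp [vmon, vev]
  | e :: V => by simp only [vmon, vev, pev_pmon, vev_vmon v x V]; ring

theorem vev_one (v : W) (b : List ℕ) : vev a z F v (one b) = F (nf b ++ v) := by
  simp [one, vev, pev, mon]

theorem vev_vsk (v : W) (A B C : Vec) : vev a z F v (vsk A B C) =
    -vev a z F v A + z * (vev a z F v B + vev a z F v C) := by
  simp [vsk, vev_vadd, vev_vmon, mon]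

theorem vev_vmap {m : ℕ} {f : List ℕ → Vec} {v v' : W}
    (hf : ∀ b, VN m b → F (nf b ++ v') = vev a z F v (f b)) :
    ∀ V : Vec, VOK m V → vev a z F v (vmap f V) = vev a z F v' V
  | [], _ => rfl
  | (_, []) :: V, h => by
    simp only [vmap, vev, pev, zero_mul, zero_add]; exact vev_vmap hf V h.tail
  | (b, y :: ys) :: V, h => by
    simp only [vmap, vev_vadd, vev_vsc, vev_vmap hf V h.tail, vev, hf b h.hd]

theorem vev_vkey {m : ℕ} {f : List ℕ → List ℕ} {v v' : W}
    (hf : ∀ b, VN m b → F (nf b ++ v') = F (nf (f b) ++ v)) :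
    ∀ V : Vec, VOK m V → vev a z F v (vkey f V) = vev a z F v' V
  | [], _ => rfl
  | e :: V, h => by simp only [vkey, vev, vev_vkey hf V h.tail, hf _ h.hd]

variable {a z F}

theorem nf_cons {m : ℕ} {u : List ℕ} (hu : VN m u) (j : ℕ) (v : W) :
    nf (j :: u) ++ v = nf u ++ (cup, j) :: (trav (j + 1) (2 * m - j) ++ v) := by
  rw [nf, hu.len, List.append_assoc]; rfl

theorem sound_cupB {s : K} (h : Good0 (a : K) z s 0 F) :
    ∀ {b : List ℕ} {m i : ℕ}, VN m b → i ≤ 2 * m →
      ∀ v, F (nf b ++ (cup, i) :: v) = F (nf (cupB i b) ++ v)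
  | [], m, i, hb, hi, v => by
    cases hb
    obtain rfl : i = 0 := by omega
    rfl
  | j :: u, m, i, hb, hi, v => by
    obtain ⟨rfl, hj, hu⟩ := hb
    have hG := h.shift (val_nf hu)
    have hG1 := hG.scup j hj
    unfold cupB
    split_ifs with h1 h2
    · rw [nf_cons (VN.mk hu hj) i v, show 2 * (u.length + 1) - i = 0 by omega]; rfl
    · rw [nf_cons (VN.cupB hu (by omega)), ← sound_cupB h hu (by omega), nf_cons hu,
        show 2 * (u.length + 1) - (j + 2) = 2 * u.length - j by omega]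
      exact (Good0.travLeft cup i v _ (j + 1) hG1 (by omega) (by simp only [din]; omega)).trans
        (hG.head.comm cup cup i j _ h2 (by simp only [din]; omega)).symm
    · rw [nf_cons (VN.cupB hu (by omega)), ← sound_cupB h hu (by omega), nf_cons hu]
      obtain ⟨t, rfl⟩ : ∃ t, i = j + 1 + t := ⟨i - j - 1, by omega⟩
      obtain ⟨r, hr⟩ : ∃ r, 2 * u.length - j = t + din cup + r :=
        ⟨2 * u.length - j - t, by simp only [din]; omega⟩
      rw [hr, show 2 * (u.length + 1) - j = t + dout cup + r by simp only [din, dout] at *; omega]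
      refine (Good0.pass cup r v t (j + 1) hG1 (by simp only [din] at *; omega)).trans ?_
      have := hG.head.comm cup cup j (j + 1 + t - 1) (trav (j + 1) (t + dout cup + r) ++ v)
        (by omega) (by simp only [din] at *; omega)
      rw [show j + 1 + t - 1 + dout cup = j + 1 + t + 1 by simp only [dout]; omega] at this
      exact this

/-- Soundness statement for a crossing routine at level `m` for positions below `c`. -/
def XS (a z : Kˣ) (F : W → K) (m c : ℕ) (X : Bool → ℕ → List ℕ → Vec) : Prop :=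
  ∀ s i b, VN m b → i + 2 ≤ c →
    VOK m (X s i b) ∧ ∀ v, F (nf b ++ (kx s, i) :: v) = vev a z F v (X s i b)

theorem XS.trav {m c : ℕ} {X : Bool → ℕ → List ℕ → Vec} (hX : XS a z F m c X) :
    ∀ (n p : ℕ) (V : Vec), VOK m V → p + n + 1 ≤ c →
      VOK m (travV (X true) p n V) ∧
        ∀ v, vev a z F v (travV (X true) p n V) = vev a z F (trav p n ++ v) V
  | 0, _, _, hV, _ => ⟨hV, fun _ => rfl⟩
  | n + 1, p, V, hV, hp => by
    have h1 : VOK m (vmap (X true p) V) := VOK.vmap (fun b hb => (hX true p b hb (by omega)).1) hV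
    obtain ⟨h2, h3⟩ := XS.trav hX n (p + 1) _ h1 (by omega)
    refine ⟨h2, fun v => (h3 v).trans ?_⟩
    exact vev_vmap a z F (fun b hb => (hX true p b hb (by omega)).2 _) V hV

theorem XS.travR {m c : ℕ} {X : Bool → ℕ → List ℕ → Vec} (hX : XS a z F m c X) (p : ℕ) :
    ∀ (n : ℕ) (V : Vec), VOK m V → p + n + 1 ≤ c →
      VOK m (travRV (X false) p n V) ∧
        ∀ v, vev a z F v (travRV (X false) p n V) = vev a z F (travR p n ++ v) V
  | 0, _, hV, _ => ⟨hV, fun _ => rfl⟩
  | n + 1, V, hV, hp => by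
    have h1 : VOK m (vmap (X false (p + n)) V) :=
      VOK.vmap (fun b hb => (hX false (p + n) b hb (by omega)).1) hV
    obtain ⟨h2, h3⟩ := XS.travR hX p n _ h1 (by omega)
    refine ⟨h2, fun v => (h3 v).trans ?_⟩
    exact vev_vmap a z F (fun b hb => (hX false (p + n) b hb (by omega)).2 _) V hV

theorem din_kx (s : Bool) : din (kx s) = 2 := by cases s <;> rfl
theorem dout_kx (s : Bool) : dout (kx s) = 2 := by cases s <;> rfl

theorem vev_cons {m : ℕ} (j : ℕ) (v : W) {V : Vec} (hV : VOK m V) :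
    vev a z F v (vkey (fun b => j :: b) V) =
      vev a z F ((cup, j) :: (trav (j + 1) (2 * m - j) ++ v)) V :=
  vev_vkey a z F (fun _ hb => by rw [nf_cons hb]) V hV

theorem vev_cupB {s : K} (h : Good0 (a : K) z s 0 F) {m i : ℕ} (hi : i ≤ 2 * m) (v : W) {V : Vec}
    (hV : VOK m V) : vev a z F v (vkey (cupB i) V) = vev a z F ((cup, i) :: v) V :=
  vev_vkey a z F (fun _ hb => sound_cupB h hb hi v) V hV

theorem mon_a : mon a z (1, 0, 1) = a := by simp [mon]
theorem mon_ai : mon a z (-1, 0, 1) = (a⁻¹ : Kˣ) := by simp [mon]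

theorem sound_Xlow (h : Good0 (a : K) z 1 0 F) {m : ℕ} {X : Bool → ℕ → List ℕ → Vec}
    (hX : XS a z F m (2 * m) X) (s : Bool) (i : ℕ) (j : ℕ) (u : List ℕ) (hu : VN m u)
    (hj : j ≤ 2 * m) (hi : i + 1 ≤ 2 * m ∨ (i = 2 * m ∧ j = 2 * m)) :
    VOK (m + 1) (Xlow X m s i (j :: u)) ∧
      ∀ v, F (nf (j :: u) ++ (kx s, i) :: v) = vev a z F v (Xlow X m s i (j :: u)) := by
  have hG := h.shift (val_nf hu)
  have hG1 := hG.scup j hj
  have hai : (a : K) * (a⁻¹ : Kˣ) = 1 := by simp
  unfold Xlow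
  dsimp only
  split_ifs with h1 h2 h3 h4
  · obtain ⟨h5, h6⟩ := hX s i u hu (by omega)
    refine ⟨VOK.vkey (fun b hb => VN.mk hb hj) h5, fun v => ?_⟩
    rw [vev_cons j v h5, ← h6, nf_cons hu]
    obtain ⟨j', rfl⟩ : ∃ j', j = j' + 2 := ⟨j - 2, by omega⟩
    have e1 := Good0.travLeft (kx s) i v (2 * m - (j' + 2)) (j' + 1) hG1 (by omega)
      (by rw [din_kx]; omega)
    have e2 := hG.head.comm (kx s) cup i j' (trav (j' + 2 + 1) (2 * m - (j' + 2)) ++ v) (by omega)
      (by rw [din_kx]; simp only [din]; omega)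
    rw [din_kx, dout_kx] at e1 e2
    exact e1.trans e2.symm
  · subst h2
    have hl : ∀ (t : Bool) (v : W), F (nf ((i + 1) :: u) ++ (kx t, i) :: v) =
        F (nf u ++ (cup, i + 1) :: (kx t, i) :: (trav (i + 2) (2 * m - (i + 1)) ++ v)) := by
      intro t v
      have e1 := Good0.travLeft (kx t) i v (2 * m - (i + 1)) i hG1 le_rfl (by rw [din_kx]; omega)
      rw [din_kx, dout_kx] at e1
      rw [nf_cons hu]; exact e1
    have hgood : ∀ v : W, F (nf u ++ (cup, i + 1) :: (xr, i) :: (trav (i + 2) (2 * m - (i + 1)) ++ v))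
        = F (nf (i :: u) ++ v) := by
      intro v
      rw [nf_cons hu, show 2 * m - i = (2 * m - (i + 1)) + 1 by omega]
      exact hG.head.pf2 i _ (by omega)
    cases s
    · exact ⟨VOK.one (VN.mk hu (by omega)), fun v => by rw [vev_one, hl, ← hgood]; rfl⟩
    · obtain ⟨t1, t2⟩ := hX.trav (2 * m - (i + 1)) i (one u) (VOK.one hu) (by omega)
      refine ⟨VOK.vsk (VOK.one (VN.mk hu (by omega))) (VOK.one (VN.mk hu hj))
        (VOK.vkey (fun b hb => hb.cupB (by omega)) t1), fun v => ?_⟩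
      rw [vev_vsk, vev_one, vev_one, vev_cupB h (by omega) v t1, t2, vev_one, hl, ← hgood,
        nf_cons hu]
      have e1 := hG1.head.skein i (trav (i + 2) (2 * m - (i + 1)) ++ v) (by omega)
      have e2 := hG.head.zig1 i ((cup, i) :: (trav (i + 2) (2 * m - (i + 1)) ++ v)) (by omega)
      have e3 := Good0.travLeft cup i v (2 * m - (i + 1)) i hG le_rfl (by simp only [din]; omega)
      simp only [din, dout, add_zero] at e1 e2 e3
      simp only [kx]
      linear_combination e1 + z * e2 - z * e3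
  · subst h3
    subst h4
    have hn : ∀ v, nf ((2 * m) :: u) ++ v = nf u ++ (cup, 2 * m) :: v := fun v => by
      rw [nf_cons hu, Nat.sub_self]; rfl
    cases s
    · refine ⟨VOK.cons (VN.mk hu le_rfl) (VOK.nil _), fun v => ?_⟩
      simp only [vev, pev, mon_a, add_zero, hn, kx]
      exact hG.cupR _ v le_rfl
    · refine ⟨VOK.cons (VN.mk hu le_rfl) (VOK.nil _), fun v => ?_⟩
      simp only [vev, pev, mon_ai, add_zero, hn, kx]
      exact hG.cupL hai _ v le_rfl
  · subst h3
    obtain ⟨n, hn⟩ : ∃ n, 2 * m - i = n + 1 := ⟨2 * m - i - 1, by omega⟩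
    have hl : ∀ (t : Bool) (v : W), F (nf (i :: u) ++ (kx t, i) :: v) =
        F (nf u ++ (cup, i + 1) :: (xr, i) :: (kx t, i) :: (trav (i + 2) n ++ v)) := by
      intro t v
      have e1 := Good0.travLeft (kx t) i v n i (hG1.sxl (i + 1) (by omega)) le_rfl
        (by rw [din_kx]; omega)
      rw [din_kx, dout_kx] at e1
      rw [nf_cons hu, hn]
      exact e1.trans (hG.head.pf2 i _ (by omega)).symm
    have hgood : ∀ v : W, F (nf u ++ (cup, i + 1) :: (xr, i) :: (xl, i) :: (trav (i + 2) n ++ v))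
        = F (nf ((i + 1) :: u) ++ v) := by
      intro v
      rw [nf_cons hu, show 2 * m - (i + 1) = n by omega]
      exact (hG.scup (i + 1) (by omega)).head.r2b i _ (by omega)
    cases s
    · obtain ⟨t1, t2⟩ := hX.trav (2 * m - i - 1) i (one u) (VOK.one hu) (by omega)
      refine ⟨VOK.vsk (VOK.one (VN.mk hu (by omega))) (VOK.one (VN.mk hu hj))
        (VOK.vmon _ (VOK.vkey (fun b hb => hb.cupB (by omega)) t1)), fun v => ?_⟩
      rw [vev_vsk, vev_one, vev_one, vev_vmon, mon_a, vev_cupB h (by omega) v t1, t2, vev_one, hl,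
        ← hgood, nf_cons hu, hn, Nat.add_sub_cancel]
      have hG2 := hG.scup (i + 1) (by omega)
      have e1 := (hG2.sxr i (by omega)).head.skein i (trav (i + 2) n ++ v) (by omega)
      have e2 := hG.head.zig1 i ((cup, i) :: (trav (i + 2) n ++ v)) (by omega)
      have e3 := Good0.travLeft cup i v n i hG le_rfl (by simp only [din]; omega)
      have e4 := hG2.capR i ((cup, i) :: (trav (i + 2) n ++ v)) (by omega)
      have e5 := hG.head.pf2 i (trav (i + 2) n ++ v) (by omega)
      simp only [din, dout, add_zero] at e1 e2 e3 e4 e5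
      simp only [kx, trav, List.cons_append]
      linear_combination e1 + z * e4 + z * a * e2 - z * a * e3 + z * e5
    · exact ⟨VOK.one (VN.mk hu (by omega)), fun v => by rw [vev_one, hl, ← hgood]; rfl⟩
  · obtain ⟨h5, h6⟩ := hX s (i - 1) u hu (by omega)
    refine ⟨VOK.vkey (fun b hb => VN.mk hb hj) h5, fun v => ?_⟩
    rw [vev_cons j v h5, ← h6, nf_cons hu]
    obtain ⟨t, rfl⟩ : ∃ t, i = j + 1 + t := ⟨i - j - 1, by omega⟩
    obtain ⟨r, hr⟩ : ∃ r, 2 * m - j = t + 2 + r := ⟨2 * m - j - t - 2, by omega⟩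
    have e1 := Good0.pass (kx s) r v t (j + 1) hG1 (by rw [din_kx]; omega)
    have e2 := hG.head.comm cup (kx s) j (j + 1 + t - 1) (trav (j + 1) (t + 2 + r) ++ v)
      (by omega) (by rw [din_kx]; simp only [din]; omega)
    rw [din_kx, dout_kx] at e1
    rw [show j + 1 + t - 1 + dout cup = j + 1 + t + 1 by simp only [dout]; omega] at e2
    rw [hr]
    exact e1.trans e2

theorem sound_Xtop (h : Good0 (a : K) z 1 0 F) {m : ℕ} {X : Bool → ℕ → List ℕ → Vec}
    (hX : XS a z F m (2 * m) X) : XS a z F (m + 1) (2 * (m + 1)) (Xtop X m) := by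
  have hlow : XS a z F (m + 1) (2 * m + 1) (Xlow X m) := by
    intro s i b hb hi
    match b, hb with
    | j :: u, hb =>
      have hu : VN m u := by have := hb.1; have := hb.2.2; rwa [show u.length = m by omega] at this
      exact sound_Xlow h hX s i j u hu (by have := hb.1; have := hb.2.1; omega) (by omega)
  intro s i b hb hi
  match b, hb with
  | j :: u, hb =>
    have hu : VN m u := by have := hb.1; have := hb.2.2; rwa [show u.length = m by omega] at this
    have hj : j ≤ 2 * m := by have := hb.1; have := hb.2.1; omega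
    have hG := h.shift (val_nf hu)
    have hG1 := hG.scup j hj
    have hai : (a : K) * (a⁻¹ : Kˣ) = 1 := by simp
    unfold Xtop
    dsimp only
    split_ifs with h1
    · obtain ⟨rfl, h2⟩ := h1
      obtain ⟨n, hn⟩ : ∃ n, 2 * m - j = n + 1 := ⟨2 * m - j - 1, by omega⟩
      have hm : 2 * m = j + 1 + n := by omega
      obtain ⟨t1, t2⟩ := hlow.trav (2 * m - j - 1) (j + 1) (one (cupB j u))
        (VOK.one (hu.cupB hj)) (by omega)
      have hG2 := hG1.shift (val_trav n (j + 1) (2 * m + 2) (by omega))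
      have hl : ∀ (v : W), F (nf (j :: u) ++ v) =
          F (nf u ++ (cup, j) :: (trav (j + 1) n ++ (xl, 2 * m) :: v)) := by
        intro v
        rw [nf_cons hu, hn, trav_succ', List.append_assoc, ← hm]; rfl
      have hT : ∀ v, vev a z F v (travV (Xlow X m true) (j + 1) (2 * m - j - 1) (one (cupB j u))) =
          F (nf u ++ (cup, j) :: (trav (j + 1) n ++ (xl, 2 * m) :: (xr, 2 * m) :: v)) := by
        intro v
        rw [t2, vev_one, ← sound_cupB h hu hj, hn, Nat.add_sub_cancel]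
        exact (hG2.head.r2a (2 * m) v le_rfl).symm
      cases s
      · exact ⟨t1, fun v => by rw [hT, hl]; rfl⟩
      · obtain ⟨r1, r2⟩ := hX.travR j (2 * m - j - 1) (one u) (VOK.one hu) (by omega)
        refine ⟨VOK.vsk t1 (VOK.one hb) (VOK.vmon _ (VOK.vkey (fun b hb => VN.mk hb le_rfl) r1)),
          fun v => ?_⟩
        rw [vev_vsk, hT, vev_one, vev_vmon, mon_ai, vev_cons _ v r1, r2, vev_one, hl, hl,
          Nat.sub_self, hn, Nat.add_sub_cancel]
        have e1 := (hG2.sxl (2 * m) le_rfl).head.skein (2 * m) v le_rfl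
        have e2 := hG2.capL hai (2 * m) ((cup, 2 * m) :: v) le_rfl
        have e3 := Good0.lastCap j ((cup, 2 * m) :: v) n hG (by omega)
        rw [← hm] at e3
        simp only [kx, trav, List.nil_append]
        linear_combination e1 + z * e2 + z * (a⁻¹ : Kˣ) * e3
    · exact sound_Xlow h hX s i j u hu hj (by omega)

theorem sound_XX (h : Good0 (a : K) z 1 0 F) : ∀ m, XS a z F m (2 * m) (XX m)
  | 0 => fun _ _ _ _ hi => by omega
  | m + 1 => sound_Xtop h (sound_XX h m)

theorem sound_CAP (h : Good0 (a : K) z 1 0 F)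
    (hl : Loops (((a : K) + (a⁻¹ : Kˣ)) * (z⁻¹ : Kˣ) - 1) 0 F) :
    ∀ (m i : ℕ) (b : List ℕ), VN (m + 1) b → i ≤ 2 * m →
      VOK m (CAP (m + 1) i b) ∧ ∀ v, F (nf b ++ (cap, i) :: v) = vev a z F v (CAP (m + 1) i b) := by
  intro m
  induction m using Nat.strong_induction_on with
  | _ m ih =>
  intro i b hb hi
  match b, hb with
  | j :: u, hb =>
    have hu : VN m u := by have := hb.1; have := hb.2.2; rwa [show u.length = m by omega] at this
    have hj : j ≤ 2 * m := by have := hb.1; have := hb.2.1; omega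
    have hG := h.shift (val_nf hu)
    have hG1 := hG.scup j hj
    have hai : (a : K) * (a⁻¹ : Kˣ) = 1 := by simp
    have hX := sound_XX h m
    show VOK m (CAPs (CAP m) m i (j :: u)) ∧
      ∀ v, F (nf (j :: u) ++ (cap, i) :: v) = vev a z F v (CAPs (CAP m) m i (j :: u))
    rw [CAPs]
    split_ifs with h1 h2 h3 h4 h5
    · obtain ⟨m', rfl⟩ : ∃ m', m = m' + 1 := ⟨m - 1, by omega⟩
      obtain ⟨h5, h6⟩ := ih m' (by omega) i u hu (by omega)
      refine ⟨VOK.vkey (fun b hb => VN.mk hb (by omega)) h5, fun v => ?_⟩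
      rw [vev_cons _ v h5, ← h6, nf_cons hu]
      obtain ⟨j', rfl⟩ : ∃ j', j = j' + 2 := ⟨j - 2, by omega⟩
      have e1 := Good0.travLeft cap i v (2 * (m' + 1) - (j' + 2)) (j' + 1) hG1 (by omega)
        (by simp only [din]; omega)
      have e2 := hG.head.comm cap cup i j' (trav (j' + 1) (2 * (m' + 1) - (j' + 2)) ++ v)
        (by omega) (by simp only [din]; omega)
      rw [Nat.add_sub_cancel, show 2 * m' - j' = 2 * (m' + 1) - (j' + 2) by omega]
      exact e1.trans e2.symm
    · subst h2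
      obtain ⟨t1, t2⟩ := hX.trav (2 * m - (i + 1)) i (one u) (VOK.one hu) (by omega)
      refine ⟨t1, fun v => ?_⟩
      rw [t2, vev_one, nf_cons hu]
      exact (Good0.travLeft cap i v (2 * m - (i + 1)) i hG1 le_rfl
        (by simp only [din]; omega)).trans (hG.head.zig1 i _ (by omega))
    · subst h3
      subst h4
      refine ⟨VOK.cons hu (VOK.nil _), fun v => ?_⟩
      rw [nf_cons hu, Nat.sub_self]
      have := (hl.shift (val_nf hu)).head (2 * m) v le_rfl
      simp only [vev, pev, mon, trav, List.nil_append] at this ⊢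
      rw [this]
      simp only [zpow_neg, zpow_one, zpow_zero, Units.val_one]
      push_cast; ring
    · subst h3
      obtain ⟨n, hn⟩ : ∃ n, 2 * m - i = n + 1 := ⟨2 * m - i - 1, by omega⟩
      obtain ⟨t1, t2⟩ := hX.trav (2 * m - i - 1) i (one u) (VOK.one hu) (by omega)
      refine ⟨VOK.vmon _ t1, fun v => ?_⟩
      rw [vev_vmon, mon_a, t2, vev_one, nf_cons hu, hn, Nat.add_sub_cancel]
      exact (Good0.travLeft cap i v n i (hG1.sxl (i + 1) (by omega)) le_rfl
        (by simp only [din]; omega)).trans (hG.head.curlL i _ (by omega))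
    · subst h5
      obtain ⟨n, hn⟩ : ∃ n, 2 * m - j = n + 1 := ⟨2 * m - j - 1, by omega⟩
      have hm : 2 * m = j + 1 + n := by omega
      obtain ⟨r1, r2⟩ := hX.travR j (2 * m - j - 1) (one u) (VOK.one hu) (by omega)
      refine ⟨VOK.vmon _ r1, fun v => ?_⟩
      have hG2 := hG1.shift (val_trav n (j + 1) (2 * m + 2) (by omega))
      have e2 := hG2.capL hai (2 * m) v le_rfl
      have e3 := Good0.lastCap j v n hG (by omega)
      rw [← hm] at e3
      rw [vev_vmon, mon_ai, r2, vev_one, nf_cons hu, hn, Nat.add_sub_cancel, trav_succ',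
        List.append_assoc, ← hm, ← e3]
      exact e2
    · obtain ⟨m', rfl⟩ : ∃ m', m = m' + 1 := ⟨m - 1, by omega⟩
      obtain ⟨h6, h7⟩ := ih m' (by omega) (i - 1) u hu (by omega)
      refine ⟨VOK.vkey (fun b hb => VN.mk hb (by omega)) h6, fun v => ?_⟩
      rw [vev_cons j v h6, ← h7, nf_cons hu]
      obtain ⟨t, rfl⟩ : ∃ t, i = j + 1 + t := ⟨i - j - 1, by omega⟩
      obtain ⟨r, hr⟩ : ∃ r, 2 * (m' + 1) - j = t + 2 + r := ⟨2 * (m' + 1) - j - t - 2, by omega⟩
      have e1 := Good0.pass cap r v t (j + 1) hG1 (by simp only [din]; omega)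
      have e2 := hG.head.comm cup cap j (j + 1 + t - 1) (trav (j + 1) (t + r) ++ v)
        (by omega) (by simp only [din]; omega)
      rw [show j + 1 + t - 1 + dout cup = j + 1 + t + 1 by simp only [dout]; omega] at e2
      rw [hr, show 2 * m' - j = t + r by omega]
      exact e1.trans e2

theorem sound_runV (h : Good0 (a : K) z 1 0 F)
    (hl : Loops (((a : K) + (a⁻¹ : Kˣ)) * (z⁻¹ : Kˣ) - 1) 0 F) (v : W) (m' : ℕ) :
    ∀ (w : W) (m : ℕ) (V : Vec), VOK m V → Val (2 * m) w (2 * m') →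
      VOK m' (runV m w V) ∧ vev a z F v (runV m w V) = vev a z F (w ++ v) V
  | [], m, V, hV, hw => by
    obtain rfl : m = m' := by have : 2 * m = 2 * m' := hw; omega
    exact ⟨hV, rfl⟩
  | (cup, i) :: w, m, V, hV, hw => by
    have hi : i ≤ 2 * m := hw.1
    obtain ⟨h1, h2⟩ := sound_runV h hl v m' w (m + 1) (vkey (cupB i) V)
      (VOK.vkey (fun b hb => hb.cupB hi) hV) hw.2
    exact ⟨h1, h2.trans (vev_cupB h hi _ hV)⟩
  | (cap, i) :: w, m, V, hV, hw => by
    have hi : i + 2 ≤ 2 * m := hw.1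
    obtain ⟨n, rfl⟩ : ∃ n, m = n + 1 := ⟨m - 1, by omega⟩
    obtain ⟨h1, h2⟩ := sound_runV h hl v m' w n (vmap (CAP (n + 1) i) V)
      (VOK.vmap (fun b hb => (sound_CAP h hl n i b hb (by omega)).1) hV) hw.2
    exact ⟨h1, h2.trans
      (vev_vmap a z F (fun b hb => (sound_CAP h hl n i b hb (by omega)).2 _) V hV)⟩
  | (xl, i) :: w, m, V, hV, hw => by
    have hi : i + 2 ≤ 2 * m := hw.1
    have hw2 := hw.2
    rw [show 2 * m - din xl + dout xl = 2 * m by simp only [din, dout]; omega] at hw2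
    obtain ⟨h1, h2⟩ := sound_runV h hl v m' w m (vmap (XX m true i) V)
      (VOK.vmap (fun b hb => (sound_XX h m true i b hb hi).1) hV) hw2
    exact ⟨h1, h2.trans (vev_vmap a z F (fun b hb => (sound_XX h m true i b hb hi).2 _) V hV)⟩
  | (xr, i) :: w, m, V, hV, hw => by
    have hi : i + 2 ≤ 2 * m := hw.1
    have hw2 := hw.2
    rw [show 2 * m - din xr + dout xr = 2 * m by simp only [din, dout]; omega] at hw2
    obtain ⟨h1, h2⟩ := sound_runV h hl v m' w m (vmap (XX m false i) V)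
      (VOK.vmap (fun b hb => (sound_XX h m false i b hb hi).1) hV) hw2
    exact ⟨h1, h2.trans (vev_vmap a z F (fun b hb => (sound_XX h m false i b hb hi).2 _) V hV)⟩

theorem vev_level_one (v : W) : ∀ V : Vec, VOK 1 V →
    vev a z F v V = pev a z (vsum V) * F ((cup, 0) :: v)
  | [], _ => by simp [vev, vsum, pev]
  | (b, p) :: V, hV => by
    have hb : VN 1 b := hV.hd
    have : b = [0] := by
      match b, hb with
      | [j], hb => have := hb.2.1; simp at this; rw [this]
      | _ :: _ :: _, hb => have := hb.1; simp at this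
    subst this
    have e : nf [0] ++ v = (cup, 0) :: v := rfl
    simp only [vev, vsum, pev_padd, vev_level_one v V hV.tail, e]
    ring

theorem val_last : ∀ {w : W} {k : ℕ}, w ≠ [] → Val k w 0 →
    w = w.dropLast ++ [(cap, 0)] ∧ Val k w.dropLast 2
  | [(g, i)], k, _, h => by
    obtain ⟨h1, h2⟩ := h
    have h2 : k - din g + dout g = 0 := h2
    cases g <;> simp only [din, dout] at h1 h2
    · omega
    · obtain rfl : i = 0 := by omega
      exact ⟨rfl, by show k = 2; omega⟩
    · omega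
    · omega
  | (g, i) :: x :: w, k, _, h => by
    obtain ⟨h1, h2⟩ := val_last (w := x :: w) (by simp) h.2
    refine ⟨?_, h.1, h2⟩
    rw [List.dropLast_cons_cons, List.cons_append, ← h1]

theorem sound_lam (h : Good0 (a : K) z 1 0 F)
    (hl : Loops (((a : K) + (a⁻¹ : Kˣ)) * (z⁻¹ : Kˣ) - 1) 0 F) {w : W} (hw : IsDiagram w) :
    F w = pev a z (lam w) * F [(cup, 0), (cap, 0)] := by
  obtain ⟨h1, h2⟩ := val_last hw.1 (ok_iff_val.1 hw.2)
  obtain ⟨h3, h4⟩ := sound_runV h hl [(cap, 0)] 1 w.dropLast 0 (one []) (VOK.one rfl) h2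
  rw [vev_one, vev_level_one _ _ h3, ← h1] at h4
  exact h4.symm

end Sound

end Pool.Agent.MP_995973_gt

end MrgPart1

-- ======== part 2: formerly Pool.Agent.MP_995973_gt.Geom
section MrgPart2

/-! Checkers for triangulated surfaces with lattice vertices, and their soundness. -/

set_option autoImplicit false

namespace Pool.Agent.MP_995973_gt

open Kind

abbrev Tri := ℕ × ℕ × ℕ
abbrev P3 := ℕ × ℕ × ℤ

def dec (n : ℕ) : P3 := (n % 16, n / 16 % 128, ((n / 2048 : ℕ) : ℤ) - 3)

def ptp (a : P3) : Fin 3 → ℝ := pt a.1 a.2.1 a.2.2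

def pos (n : ℕ) : Fin 3 → ℝ := ptp (dec n)

theorem ptp_inj {a b : P3} (h : ptp a = ptp b) : a = b := by
  have h0 := congrFun h 0
  have h1 := congrFun h 1
  have h2 := congrFun h 2
  simp only [ptp, pt, Matrix.cons_val_zero, Matrix.cons_val_one, Matrix.cons_val] at h0 h1 h2
  exact Prod.ext (by exact_mod_cast h0) (Prod.ext (by exact_mod_cast h1) (by exact_mod_cast h2))

theorem sep_sound (A B : Finset ℕ) (p : ℕ → Fin 3 → ℝ) (f : (Fin 3 → ℝ) →ₗ[ℝ] ℝ)
    (hB : B.Nonempty)
    (h : ∀ a ∈ A, (∀ b ∈ B, f (p b) ≤ f (p a)) ∧ (a ∈ B ∨ ∀ b ∈ B, f (p b) < f (p a))) :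
    convexHull ℝ (p '' A) ∩ convexHull ℝ (p '' B) ⊆ convexHull ℝ (p '' (A ∩ B : Finset ℕ)) := by
  obtain ⟨b0, hb0, hmax⟩ := B.exists_max_image (fun b => f (p b)) hB
  have h1 : convexHull ℝ (p '' B) ⊆ {y | f y ≤ f (p b0)} := by
    refine convexHull_min ?_ (convex_halfSpace_le f.isLinear _)
    rintro _ ⟨b, hb, rfl⟩
    exact hmax b hb
  have h2 : convexHull ℝ (p '' A) ⊆ {y | f (p b0) ≤ f y ∧
      (f y = f (p b0) → y ∈ convexHull ℝ (p '' (A ∩ B : Finset ℕ)))} := by
    refine convexHull_min ?_ ?_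
    · rintro _ ⟨a, ha, rfl⟩
      refine ⟨(h a ha).1 b0 hb0, fun e => subset_convexHull ℝ _ ⟨a, ?_, rfl⟩⟩
      rcases (h a ha).2 with h3 | h3
      · exact Finset.mem_coe.2 (Finset.mem_inter.2 ⟨ha, h3⟩)
      · exact absurd e (h3 b0 hb0).ne'
    · intro x hx y hy s t hs ht hst
      have e : f (s • x + t • y) = s * f x + t * f y := by simp
      have g1 : s * f (p b0) ≤ s * f x := mul_le_mul_of_nonneg_left hx.1 hs
      have g2 : t * f (p b0) ≤ t * f y := mul_le_mul_of_nonneg_left hy.1 ht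
      have g3 : f (p b0) = s * f (p b0) + t * f (p b0) := by rw [← add_mul, hst, one_mul]
      refine ⟨by rw [e]; linarith, fun e' => ?_⟩
      rw [e] at e'
      rcases hs.eq_or_lt with rfl | hs'
      · have : t = 1 := by linarith
        subst this
        simpa using hy.2 (by linarith)
      rcases ht.eq_or_lt with rfl | ht'
      · have : s = 1 := by linarith
        subst this
        simpa using hx.2 (by linarith)
      have h5 : s * (f x - f (p b0)) + t * (f y - f (p b0)) = 0 := by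
        linear_combination e' - f (p b0) * hst
      have h6 : 0 ≤ s * (f x - f (p b0)) := mul_nonneg hs (by linarith [hx.1])
      have h7 : 0 ≤ t * (f y - f (p b0)) := mul_nonneg ht (by linarith [hy.1])
      have h8 : f x = f (p b0) := by
        have : s * (f x - f (p b0)) = 0 := by linarith
        rcases mul_eq_zero.1 this with h | h <;> linarith
      have h9 : f y = f (p b0) := by
        have : t * (f y - f (p b0)) = 0 := by linarith
        rcases mul_eq_zero.1 this with h | h <;> linarith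
      exact convex_convexHull ℝ _ (hx.2 h8) (hy.2 h9) hs ht hst
  intro x hx
  exact (h2 hx.1).2 (le_antisymm (h1 hx.2) (h2 hx.1).1)

def fv (c1 c2 c3 : ℤ) (n : ℕ) : ℤ :=
  c1 * ((n % 16 : ℕ) : ℤ) + c2 * ((n / 16 % 128 : ℕ) : ℤ) + c3 * ((n / 2048 : ℕ) : ℤ)

noncomputable def fl (c1 c2 c3 : ℤ) : (Fin 3 → ℝ) →ₗ[ℝ] ℝ :=
  (c1 : ℝ) • LinearMap.proj 0 + (c2 : ℝ) • LinearMap.proj 1 + (c3 : ℝ) • LinearMap.proj 2

theorem fl_pos (c1 c2 c3 : ℤ) (n : ℕ) : fl c1 c2 c3 (pos n) = (fv c1 c2 c3 n : ℝ) - 3 * c3 := by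
  simp only [fl, pos, ptp, pt, dec, fv, LinearMap.add_apply, LinearMap.smul_apply,
    LinearMap.proj_apply, Matrix.cons_val_zero, Matrix.cons_val_one, Matrix.cons_val, smul_eq_mul]
  generalize n % 16 = a
  generalize n / 16 % 128 = b
  generalize n / 2048 = c
  push_cast; ring

def memT (a : ℕ) (t : Tri) : Bool := Nat.beq a t.1 || Nat.beq a t.2.1 || Nat.beq a t.2.2

theorem memT_iff (a : ℕ) (t : Tri) : memT a t = true ↔ a ∈ vs t := by
  simp [memT, vs, or_assoc]

def edgeT (a b : ℕ) (t : Tri) : Bool :=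
  (Nat.beq a t.1 && Nat.beq b t.2.1) || (Nat.beq a t.2.1 && Nat.beq b t.2.2) ||
    (Nat.beq a t.2.2 && Nat.beq b t.1)

theorem edgeT_iff (a b : ℕ) (t : Tri) : edgeT a b t = true ↔ (a, b) ∈ de t := by
  obtain ⟨x, y, z⟩ := t
  simp [edgeT, de, or_assoc]

def sep1 (m : ℤ) (x : ℤ) (a : ℕ) (t : Tri) : Bool :=
  decide (m < x) || (decide (m = x) && memT a t)

def sepC (c1 c2 c3 : ℤ) (s t : Tri) : Bool :=
  (fun m => sep1 m (fv c1 c2 c3 s.1) s.1 t && sep1 m (fv c1 c2 c3 s.2.1) s.2.1 t &&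
    sep1 m (fv c1 c2 c3 s.2.2) s.2.2 t)
    (max (fv c1 c2 c3 t.1) (max (fv c1 c2 c3 t.2.1) (fv c1 c2 c3 t.2.2)))

def combC (s t : Tri) : Bool :=
  !(memT s.1 t && memT s.2.1 t && memT s.2.2 t) && !edgeT s.1 s.2.1 t && !edgeT s.2.1 s.2.2 t &&
    !edgeT s.2.2 s.1 t

def PairOK (s t : Tri) : Prop :=
  convexHull ℝ (pos '' vs s) ∩ convexHull ℝ (pos '' vs t) ⊆
    convexHull ℝ (pos '' (vs s ∩ vs t : Finset ℕ)) ∧ vs s ≠ vs t ∧ Disjoint (de s) (de t)

theorem PairOK.symm {s t : Tri} (h : PairOK s t) : PairOK t s :=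
  ⟨by rw [Set.inter_comm, Finset.inter_comm]; exact h.1, h.2.1.symm, h.2.2.symm⟩

theorem sepC_sound {c1 c2 c3 : ℤ} {s t : Tri} (h : sepC c1 c2 c3 s t = true) :
    convexHull ℝ (pos '' vs s) ∩ convexHull ℝ (pos '' vs t) ⊆
      convexHull ℝ (pos '' (vs s ∩ vs t : Finset ℕ)) := by
  refine sep_sound _ _ pos (fl c1 c2 c3) ⟨t.1, by simp [vs]⟩ fun a ha => ?_
  simp only [sepC, Bool.and_eq_true] at h
  set m := max (fv c1 c2 c3 t.1) (max (fv c1 c2 c3 t.2.1) (fv c1 c2 c3 t.2.2)) with hm
  have hb : ∀ b ∈ vs t, fv c1 c2 c3 b ≤ m := by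
    intro b hb
    simp only [vs, Finset.mem_insert, Finset.mem_singleton] at hb
    rcases hb with rfl | rfl | rfl <;> omega
  have ha' : sep1 m (fv c1 c2 c3 a) a t = true := by
    simp only [vs, Finset.mem_insert, Finset.mem_singleton] at ha
    rcases ha with rfl | rfl | rfl
    exacts [h.1.1, h.1.2, h.2]
  simp only [sep1, Bool.or_eq_true, Bool.and_eq_true, decide_eq_true_eq, memT_iff] at ha'
  simp only [fl_pos, sub_le_sub_iff_right, sub_lt_sub_iff_right, Int.cast_le, Int.cast_lt]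
  refine ⟨fun b h1 => by have := hb b h1; omega, ?_⟩
  rcases ha' with h1 | h1
  · exact Or.inr fun b h2 => by have := hb b h2; omega
  · exact Or.inl h1.2

theorem combC_sound {s t : Tri} (h : combC s t = true) : vs s ≠ vs t ∧ Disjoint (de s) (de t) := by
  simp only [combC, Bool.and_eq_true, Bool.not_eq_true', ← Bool.not_eq_true, memT_iff,
    edgeT_iff] at h
  refine ⟨fun e => h.1.1.1 ?_, ?_⟩
  · rw [← e]; simp [vs]
  · rw [Finset.disjoint_left]
    intro e he
    simp only [de, Finset.mem_insert, Finset.mem_singleton] at he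
    rcases he with rfl | rfl | rfl
    exacts [h.1.1.2, h.1.2, h.2]

def yy (n : ℕ) : ℕ := n / 16 % 128
def ymin (t : Tri) : ℕ := min (yy t.1) (min (yy t.2.1) (yy t.2.2))
def ymax (t : Tri) : ℕ := max (yy t.1) (max (yy t.2.1) (yy t.2.2))

theorem far_ok {s t : Tri} (h : ymax s < ymin t) : PairOK s t := by
  have h1 : sepC 0 (-1) 0 s t = true := by
    simp only [ymax, ymin, yy] at h
    simp only [sepC, sep1, fv, Bool.and_eq_true, Bool.or_eq_true, decide_eq_true_eq]
    omega
  have h2 : combC s t = true := by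
    simp only [ymax, ymin, yy] at h
    have e : ∀ a b : ℕ, a / 16 % 128 < b / 16 % 128 → Nat.beq a b = false := by
      intro a b hab
      rw [← Bool.not_eq_true, Nat.beq_eq]; rintro rfl; omega
    simp only [combC, memT, edgeT]
    rw [e s.1 t.1 (by omega), e s.1 t.2.1 (by omega), e s.1 t.2.2 (by omega),
      e s.2.1 t.1 (by omega), e s.2.1 t.2.1 (by omega), e s.2.1 t.2.2 (by omega),
      e s.2.2 t.1 (by omega), e s.2.2 t.2.1 (by omega), e s.2.2 t.2.2 (by omega)]
    rfl
  exact ⟨sepC_sound h1, combC_sound h2⟩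

def rowC (s : Tri) (ym : ℕ) : List Tri → ℕ → Bool
  | [], _ => true
  | t :: L, c => Nat.blt ym (ymin t) ||
      (sepC (((c % 64 : ℕ) : ℤ) - 32) (((c / 64 % 64 : ℕ) : ℤ) - 32)
        (((c / 4096 % 64 : ℕ) : ℤ) - 32) s t && combC s t && rowC s ym L (c / 262144))

theorem rowC_sound (s : Tri) : ∀ (L : List Tri) (c : ℕ),
    L.Pairwise (fun a b => ymin a ≤ ymin b) → rowC s (ymax s) L c = true → ∀ t ∈ L, PairOK s t
  | [], _, _, _ => fun _ h => by cases h
  | t :: L, c, hp, h => by
    simp only [rowC, Bool.or_eq_true, Bool.and_eq_true, Nat.blt_eq] at h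
    intro t' ht'
    rcases h with h | h
    · rcases List.mem_cons.1 ht' with rfl | ht'
      · exact far_ok h
      · exact far_ok (h.trans_le (List.rel_of_pairwise_cons hp ht'))
    · rcases List.mem_cons.1 ht' with rfl | ht'
      · exact ⟨sepC_sound h.1.1, combC_sound h.1.2⟩
      · exact rowC_sound s L _ hp.of_cons h.2 t' ht'

/-- Checks the rows of as many triangles as there are certificates. -/
def rowsC : List Tri → List ℕ → Bool
  | _, [] => true
  | [], _ :: _ => true
  | s :: L, c :: cs => rowC s (ymax s) L c && rowsC L cs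

theorem rowsC_sound : ∀ (L : List Tri) (cs : List ℕ),
    L.Pairwise (fun a b => ymin a ≤ ymin b) → rowsC L cs = true →
    (L.drop cs.length).Pairwise PairOK → L.Pairwise PairOK
  | _, [], _, _, h => h
  | [], _ :: _, _, _, _ => List.Pairwise.nil
  | s :: L, c :: cs, hp, h, h' => by
    simp only [rowsC, Bool.and_eq_true] at h
    exact List.Pairwise.cons (rowC_sound s L c hp.of_cons h.1)
      (rowsC_sound L cs hp.of_cons h.2 h')

def sortedC : List Tri → Bool
  | [] => true
  | [_] => true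
  | s :: t :: L => Nat.ble (ymin s) (ymin t) && sortedC (t :: L)

theorem sortedC_sound : ∀ L : List Tri, sortedC L = true → L.Pairwise (fun a b => ymin a ≤ ymin b)
  | [], _ => List.Pairwise.nil
  | [_], _ => List.pairwise_singleton _ _
  | s :: t :: L, h => by
    simp only [sortedC, Bool.and_eq_true, Nat.ble_eq] at h
    have ih := sortedC_sound (t :: L) h.2
    refine List.Pairwise.cons (fun b hb => ?_) ih
    rcases List.mem_cons.1 hb with rfl | hb
    · exact h.1
    · exact h.1.trans (List.rel_of_pairwise_cons ih hb)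

def indC (t : Tri) : Bool :=
  (fun (a b c : P3) =>
    decide (((b.1 : ℤ) - a.1) * ((c.2.1 : ℤ) - a.2.1) - ((b.2.1 : ℤ) - a.2.1) * ((c.1 : ℤ) - a.1) ≠ 0) ||
    decide (((b.1 : ℤ) - a.1) * (c.2.2 - a.2.2) - (b.2.2 - a.2.2) * ((c.1 : ℤ) - a.1) ≠ 0) ||
    decide (((b.2.1 : ℤ) - a.2.1) * (c.2.2 - a.2.2) - (b.2.2 - a.2.2) * ((c.2.1 : ℤ) - a.2.1) ≠ 0))
    (dec t.1) (dec t.2.1) (dec t.2.2)

theorem indC_sound {t : Tri} (h : indC t = true) :
    AffineIndependent ℝ ![pos t.1, pos t.2.1, pos t.2.2] := by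
  rw [affineIndependent_iff_not_collinear_set,
    collinear_iff_of_mem (p₀ := pos t.1) (by simp)]
  rintro ⟨v, hv⟩
  obtain ⟨r, hr⟩ := hv (pos t.2.1) (by simp)
  obtain ⟨u, hu⟩ := hv (pos t.2.2) (by simp)
  simp only [indC, Bool.or_eq_true, decide_eq_true_eq] at h
  unfold pos at hr hu
  generalize dec t.1 = a at h hr hu
  generalize dec t.2.1 = b at h hr
  generalize dec t.2.2 = c at h hu
  have r0 := congrFun hr 0
  have r1 := congrFun hr 1
  have r2 := congrFun hr 2
  have u0 := congrFun hu 0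
  have u1 := congrFun hu 1
  have u2 := congrFun hu 2
  simp only [ptp, pt, vadd_eq_add, Pi.add_apply, Pi.smul_apply, smul_eq_mul, Matrix.cons_val_zero,
    Matrix.cons_val_one, Matrix.cons_val] at r0 r1 r2 u0 u1 u2
  rcases h with (h | h) | h
  · apply h
    have : ((b.1 : ℝ) - a.1) * ((c.2.1 : ℝ) - a.2.1) - ((b.2.1 : ℝ) - a.2.1) * ((c.1 : ℝ) - a.1)
        = 0 := by rw [r0, r1, u0, u1]; ring
    exact_mod_cast this
  · apply h
    have : ((b.1 : ℝ) - a.1) * ((c.2.2 : ℝ) - a.2.2) - ((b.2.2 : ℝ) - a.2.2) * ((c.1 : ℝ) - a.1)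
        = 0 := by rw [r0, r2, u0, u2]; ring
    exact_mod_cast this
  · apply h
    have : ((b.2.1 : ℝ) - a.2.1) * ((c.2.2 : ℝ) - a.2.2) -
        ((b.2.2 : ℝ) - a.2.2) * ((c.2.1 : ℝ) - a.2.1) = 0 := by rw [r1, r2, u1, u2]; ring
    exact_mod_cast this

def reach (adj : Tri → Tri → Bool) : ℕ → List Tri → List Tri → Bool
  | _, _, [] => true
  | 0, _, _ :: _ => false
  | n + 1, F, t :: L =>
    reach adj n ((t :: L).filter fun x => F.any fun y => adj y x)
      ((t :: L).filter fun x => !F.any fun y => adj y x)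

theorem reach_sound {adj : Tri → Tri → Bool} {rel : Tri → Tri → Prop} {Q : Tri → Prop} {r : Tri}
    (hrel : ∀ x y, Q y → adj x y = true → rel x y) :
    ∀ (n : ℕ) (F L : List Tri), (∀ x ∈ F, Relation.ReflTransGen rel r x) → (∀ x ∈ L, Q x) →
      reach adj n F L = true → ∀ x ∈ L, Relation.ReflTransGen rel r x
  | _, _, [], _, _, _ => fun _ h => by cases h
  | 0, _, _ :: _, _, _, h => by simp [reach] at h
  | n + 1, F, t :: L, hF, hL, h => by
    have h1 : ∀ x ∈ (t :: L).filter fun x => F.any fun y => adj y x,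
        Relation.ReflTransGen rel r x := by
      intro x hx
      obtain ⟨h2, h3⟩ := List.mem_filter.1 hx
      obtain ⟨y, hy, h4⟩ := List.any_eq_true.1 h3
      exact (hF y hy).tail (hrel y x (hL x h2) h4)
    have h2 := reach_sound hrel n _ _ h1 (fun x hx => hL x (List.mem_filter.1 hx).1) h
    intro x hx
    cases h3 : F.any fun y => adj y x
    · exact h2 x (List.mem_filter.2 ⟨hx, by simp [h3]⟩)
    · exact h1 x (List.mem_filter.2 ⟨hx, h3⟩)

theorem rtg_symm {rel : Tri → Tri → Prop} {Q : Tri → Prop}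
    (h1 : ∀ x y, rel x y → Q y) (h2 : ∀ x y, Q x → rel x y → rel y x) {r x : Tri} (hr : Q r)
    (h : Relation.ReflTransGen rel r x) : Q x ∧ Relation.ReflTransGen rel x r := by
  induction h with
  | refl => exact ⟨hr, .refl⟩
  | tail _ hxy ih => exact ⟨h1 _ _ hxy, .head (h2 _ _ ih.1 hxy) ih.2⟩

def reachAll (adj : Tri → Tri → Bool) (n : ℕ) : List Tri → Bool
  | [] => false
  | r :: L => reach adj n [r] L

theorem reachAll_sound {adj : Tri → Tri → Bool} {rel : Tri → Tri → Prop} {Q : Tri → Prop}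
    (hrel : ∀ x y, Q y → adj x y = true → rel x y)
    (h1 : ∀ x y, rel x y → Q y) (h2 : ∀ x y, Q x → rel x y → rel y x) (n : ℕ) (L : List Tri)
    (hL : ∀ x ∈ L, Q x) (h : reachAll adj n L = true) :
    L ≠ [] ∧ ∀ x ∈ L, ∀ y ∈ L, Relation.ReflTransGen rel x y := by
  rcases L with _ | ⟨r, L⟩
  · simp [reachAll] at h
  have h3 := reach_sound (r := r) hrel n [r] L
    (fun x hx => by rw [List.mem_singleton.1 hx]) (fun x hx => hL x (List.mem_cons_of_mem _ hx)) h
  have h4 : ∀ x ∈ r :: L, Relation.ReflTransGen rel r x := by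
    intro x hx
    rcases List.mem_cons.1 hx with rfl | hx
    · exact .refl
    · exact h3 x hx
  exact ⟨by simp, fun x hx y hy =>
    (rtg_symm h1 h2 (hL r List.mem_cons_self) (h4 x hx)).2.trans (h4 y hy)⟩

def adj2 (v : ℕ) (x y : Tri) : Bool :=
  memT v x && ((!Nat.beq x.1 v && memT x.1 y) || (!Nat.beq x.2.1 v && memT x.2.1 y) ||
    (!Nat.beq x.2.2 v && memT x.2.2 y))

theorem link_sound (n : ℕ) (L : List Tri) (v : ℕ)
    (h : reachAll (adj2 v) n (L.filter (memT v)) = true) :
    v ∈ L.toFinset.biUnion vs ∧ ∀ s ∈ L.toFinset, ∀ t ∈ L.toFinset, v ∈ vs s → v ∈ vs t →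
      Relation.ReflTransGen
        (fun x y => y ∈ L.toFinset ∧ v ∈ vs y ∧ 2 ≤ (vs x ∩ vs y).card) s t := by
  have := reachAll_sound (adj := adj2 v) (Q := fun y => y ∈ L.toFinset ∧ v ∈ vs y)
    (rel := fun x y => y ∈ L.toFinset ∧ v ∈ vs y ∧ 2 ≤ (vs x ∩ vs y).card) ?_
    (fun _ _ h => ⟨h.1, h.2.1⟩)
    (fun x y hx h => ⟨hx.1, hx.2, by rw [Finset.inter_comm]; exact h.2.2⟩) n _
    (fun x hx => ⟨List.mem_toFinset.2 (List.mem_filter.1 hx).1,
      (memT_iff _ _).1 (List.mem_filter.1 hx).2⟩) h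
  · refine ⟨?_, fun s hs t ht h1 h2 => this.2 s
      (List.mem_filter.2 ⟨List.mem_toFinset.1 hs, (memT_iff _ _).2 h1⟩) t
      (List.mem_filter.2 ⟨List.mem_toFinset.1 ht, (memT_iff _ _).2 h2⟩)⟩
    obtain ⟨x, hx⟩ := List.exists_mem_of_ne_nil _ this.1
    exact Finset.mem_biUnion.2 ⟨x, List.mem_toFinset.2 (List.mem_filter.1 hx).1,
      (memT_iff _ _).1 (List.mem_filter.1 hx).2⟩
  · intro x y hy ha
    refine ⟨hy.1, hy.2, ?_⟩
    simp only [adj2, Bool.or_eq_true, Bool.and_eq_true, memT_iff, Bool.not_eq_true',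
      ← Bool.not_eq_true, Nat.beq_eq] at ha
    have key : ∀ u, u ∈ vs x → u ≠ v → u ∈ vs y → 2 ≤ (vs x ∩ vs y).card := fun u h1 h2 h3 =>
      Finset.one_lt_card.2 ⟨u, Finset.mem_inter.2 ⟨h1, h3⟩, v, Finset.mem_inter.2 ⟨ha.1, hy.2⟩, h2⟩
    rcases ha.2 with (hb | hb) | hb <;> exact key _ (by simp [vs]) hb.1 hb.2

def memE (a b : ℕ) : List (ℕ × ℕ) → Bool
  | [] => false
  | e :: l => (Nat.beq a e.1 && Nat.beq b e.2) || memE a b l

theorem memE_iff (a b : ℕ) : ∀ l : List (ℕ × ℕ), memE a b l = true ↔ (a, b) ∈ l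
  | [] => by simp [memE]
  | (x, y) :: l => by simp [memE, memE_iff a b l]

def memD (a b : ℕ) : List Tri → Bool
  | [] => false
  | t :: l => edgeT a b t || memD a b l

theorem memD_iff (a b : ℕ) : ∀ l : List Tri, memD a b l = true ↔ (a, b) ∈ l.toFinset.biUnion de
  | [] => by simp [memD]
  | t :: l => by
    rw [memD, Bool.or_eq_true, memD_iff a b l, edgeT_iff, List.toFinset_cons,
      Finset.biUnion_insert, Finset.mem_union]

def incr : List ℕ → Bool
  | [] => true
  | [_] => true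
  | a :: b :: l => Nat.blt a b && incr (b :: l)

theorem incr_sound : ∀ l : List ℕ, incr l = true → l.Pairwise (· < ·)
  | [], _ => List.Pairwise.nil
  | [_], _ => List.pairwise_singleton _ _
  | s :: t :: L, h => by
    simp only [incr, Bool.and_eq_true, Nat.blt_eq] at h
    have ih := incr_sound (t :: L) h.2
    refine List.Pairwise.cons (fun b hb => ?_) ih
    rcases List.mem_cons.1 hb with rfl | hb
    · exact h.1
    · exact h.1.trans (List.rel_of_pairwise_cons ih hb)

theorem two_mul_edges (D : Finset (ℕ × ℕ)) (hD : ∀ e ∈ D, e.1 ≠ e.2) :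
    2 * (D.image fun e => ({e.1, e.2} : Finset ℕ)).card =
      D.card + (D.filter fun e => (e.2, e.1) ∉ D).card := by
  rw [Finset.card_eq_sum_card_image (fun e : ℕ × ℕ => ({e.1, e.2} : Finset ℕ)) D,
    Finset.card_eq_sum_card_fiberwise (f := fun e : ℕ × ℕ => ({e.1, e.2} : Finset ℕ))
      (s := D.filter fun e => (e.2, e.1) ∉ D)
      (t := D.image fun e => ({e.1, e.2} : Finset ℕ))
      (fun e he => Finset.mem_image_of_mem _ (Finset.mem_filter.1 he).1),
    ← Finset.sum_add_distrib, mul_comm, ← smul_eq_mul, ← Finset.sum_const]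
  refine Finset.sum_congr rfl fun x hx => ?_
  obtain ⟨⟨a, b⟩, he, rfl⟩ := Finset.mem_image.1 hx
  have hab : a ≠ b := hD _ he
  have key : ∀ e : ℕ × ℕ, (({e.1, e.2} : Finset ℕ) = {a, b}) ↔ e = (a, b) ∨ e = (b, a) := by
    rintro ⟨c, d⟩
    rw [← Finset.coe_inj, Finset.coe_pair, Finset.coe_pair, Set.pair_eq_pair_iff]
    simp
  by_cases h : (b, a) ∈ D
  · have e1 : (D.filter fun e => ({e.1, e.2} : Finset ℕ) = {a, b}) = {(a, b), (b, a)} := by
      ext e
      simp only [Finset.mem_filter, key, Finset.mem_insert, Finset.mem_singleton]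
      exact ⟨fun h' => h'.2, fun h' => ⟨by rcases h' with rfl | rfl <;> assumption, h'⟩⟩
    have e2 : ((D.filter fun e => (e.2, e.1) ∉ D).filter
        fun e => ({e.1, e.2} : Finset ℕ) = {a, b}) = ∅ := by
      ext e
      simp only [Finset.mem_filter, key, Finset.notMem_empty, iff_false]
      rintro ⟨⟨-, h1⟩, rfl | rfl⟩
      exacts [h1 h, h1 he]
    rw [e1, e2, Finset.card_pair (by simp [hab]), Finset.card_empty]
  · have e1 : (D.filter fun e => ({e.1, e.2} : Finset ℕ) = {a, b}) = {(a, b)} := by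
      ext e
      simp only [Finset.mem_filter, key, Finset.mem_singleton]
      refine ⟨?_, by rintro rfl; exact ⟨he, Or.inl rfl⟩⟩
      rintro ⟨h1, rfl | rfl⟩
      exacts [rfl, absurd h1 h]
    have e2 : ((D.filter fun e => (e.2, e.1) ∉ D).filter
        fun e => ({e.1, e.2} : Finset ℕ) = {a, b}) = {(a, b)} := by
      ext e
      simp only [Finset.mem_filter, key, Finset.mem_singleton]
      refine ⟨?_, by rintro rfl; exact ⟨⟨he, h⟩, Or.inl rfl⟩⟩
      rintro ⟨h1, rfl | rfl⟩
      exacts [rfl, absurd h1.1 h]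
    rw [e1, e2, Finset.card_singleton]

theorem indC_ne {t : Tri} (h : indC t = true) : t.1 ≠ t.2.1 ∧ t.2.1 ≠ t.2.2 ∧ t.2.2 ≠ t.1 := by
  have := (indC_sound h).injective
  refine ⟨fun e => ?_, fun e => ?_, fun e => ?_⟩
  · exact absurd (this (a₁ := 0) (a₂ := 1) (by simp [e])) (by decide)
  · exact absurd (this (a₁ := 1) (a₂ := 2) (by simp [e])) (by decide)
  · exact absurd (this (a₁ := 2) (a₂ := 0) (by simp [e])) (by decide)

theorem card_de {t : Tri} (h : indC t = true) : (de t).card = 3 := by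
  obtain ⟨h1, h2, h3⟩ := indC_ne h
  exact Finset.card_eq_three.2 ⟨_, _, _, fun e => h1 (congrArg Prod.fst e),
    fun e => h3 (congrArg Prod.fst e).symm, fun e => h2 (congrArg Prod.fst e), rfl⟩

def locN (t i : ℕ) : Kind → List (P3 × P3)
  | cup => [((2 * i + 1, 2 * t + 1, 0), (2 * i, 2 * t + 2, 0)),
      ((2 * i + 1, 2 * t + 1, 0), (2 * i + 2, 2 * t + 2, 0))]
  | cap => [((2 * i, 2 * t, 0), (2 * i + 1, 2 * t + 1, 0)),
      ((2 * i + 2, 2 * t, 0), (2 * i + 1, 2 * t + 1, 0))]
  | g => [((2 * i, 2 * t, 0), (2 * i + 1, 2 * t + 1, ht g)),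
      ((2 * i + 1, 2 * t + 1, ht g), (2 * i + 2, 2 * t + 2, 0)),
      ((2 * i + 2, 2 * t, 0), (2 * i + 1, 2 * t + 1, -ht g)),
      ((2 * i + 1, 2 * t + 1, -ht g), (2 * i, 2 * t + 2, 0))]

def segsN : ℕ → ℕ → List (Kind × ℕ) → List (P3 × P3)
  | _, _, [] => []
  | t, k, (g, i) :: w =>
    (List.range i).map (fun j => ((2 * j, 2 * t, 0), (2 * j, 2 * t + 2, 0))) ++
    locN t i g ++
    (List.range (k - din g - i)).map
      (fun j => ((2 * (i + din g + j), 2 * t, 0), (2 * (i + dout g + j), 2 * t + 2, 0))) ++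
    segsN (t + 1) (k - din g + dout g) w

theorem segs_eq : ∀ (w : List (Kind × ℕ)) (t k : ℕ),
    segs t k w = (segsN t k w).map fun e => (ptp e.1, ptp e.2)
  | [], _, _ => rfl
  | (g, i) :: w, t, k => by
    have : loc t i g = (locN t i g).map fun e => (ptp e.1, ptp e.2) := by cases g <;> rfl
    simp only [segs, segsN, List.map_append, List.map_map, this, segs_eq w]
    rfl

def writheN (B : List (P3 × P3)) : ℕ → List (Kind × ℕ) → ℤ
  | _, [] => 0
  | t, (g, i) :: w =>
    (if (((2 * i, 2 * t, 0), (2 * i + 1, 2 * t + 1, ht g)) ∈ B ↔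
        ((2 * i + 2, 2 * t, 0), (2 * i + 1, 2 * t + 1, -ht g)) ∈ B)
      then ht g else -ht g) + writheN B (t + 1) w

theorem writhe_eq (B : Set ((Fin 3 → ℝ) × (Fin 3 → ℝ))) (B' : List (P3 × P3))
    (h : ∀ a b, (ptp a, ptp b) ∈ B ↔ (a, b) ∈ B') :
    ∀ (w : List (Kind × ℕ)) (t : ℕ), writhe B t w = writheN B' t w
  | [], _ => rfl
  | (g, i) :: w, t => by
    have e1 := h (2 * i, 2 * t, 0) (2 * i + 1, 2 * t + 1, ht g)
    have e2 := h (2 * i + 2, 2 * t, 0) (2 * i + 1, 2 * t + 1, -ht g)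
    simp only [ptp] at e1 e2
    simp only [writhe, writheN, writhe_eq B B' h w, e1, e2]

def alignC : List (ℕ × ℕ) → List (P3 × P3) → Bool
  | [], [] => true
  | e :: l, s :: m => decide ((dec e.1, dec e.2) = s ∨ (dec e.2, dec e.1) = s) && alignC l m
  | _, _ => false

theorem alignC_sound (p q : Fin 3 → ℝ) : ∀ (l : List (ℕ × ℕ)) (m : List (P3 × P3)),
    alignC l m = true →
    (((∃ e ∈ l, (p, q) = (pos e.1, pos e.2)) ∨ (∃ e ∈ l, (q, p) = (pos e.1, pos e.2))) ↔
      ((p, q) ∈ m.map (fun e => (ptp e.1, ptp e.2)) ∨ (q, p) ∈ m.map fun e => (ptp e.1, ptp e.2)))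
  | [], [], _ => by simp
  | [], _ :: _, h => by simp [alignC] at h
  | _ :: _, [], h => by simp [alignC] at h
  | e :: l, s :: m, h => by
    simp only [alignC, Bool.and_eq_true, decide_eq_true_eq] at h
    have ih := alignC_sound p q l m h.2
    simp only [List.mem_cons, exists_eq_or_imp, List.map_cons]
    rw [or_or_or_comm, ih, or_or_or_comm (b := (p, q) ∈ _)]
    refine or_congr_left ?_
    rcases h.1 with rfl | rfl
    · exact Iff.rfl
    · simp only [Prod.mk.injEq, pos]; tauto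

/-- The assembled consequences of all checks. -/
theorem surface_of_checks (L : List Tri) (Bl : List (ℕ × ℕ)) (Vl : List ℕ) (n : ℕ)
    (hp : L.Pairwise PairOK) (hi : L.all indC = true)
    (hl : ∀ v ∈ Vl, reachAll (adj2 v) n (L.filter (memT v)) = true)
    (hv : ∀ t ∈ L, t.1 ∈ Vl ∧ t.2.1 ∈ Vl ∧ t.2.2 ∈ Vl)
    (hc : ∀ s ∈ L.toFinset, ∀ t ∈ L.toFinset,
      Relation.ReflTransGen (fun x y => y ∈ L.toFinset ∧ (vs x ∩ vs y).Nonempty) s t)
    (hV : incr Vl = true) (hB : Bl.Nodup)
    (hb : ∀ u v, ((u, v) ∈ L.toFinset.biUnion de ∧ (v, u) ∉ L.toFinset.biUnion de) ↔ (u, v) ∈ Bl) :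
    IsSurface L.toFinset pos ∧ 2 * euler L.toFinset = 2 * Vl.length - L.length - Bl.length := by
  have hi' : ∀ t ∈ L.toFinset, indC t = true := fun t ht =>
    List.all_eq_true.1 hi t (List.mem_toFinset.1 ht)
  have hp' : ∀ s ∈ L.toFinset, ∀ t ∈ L.toFinset, s ≠ t → PairOK s t := fun s hs t ht hst =>
    haveI : Std.Symm PairOK := ⟨fun _ _ h => PairOK.symm h⟩
    hp.forall (List.mem_toFinset.1 hs) (List.mem_toFinset.1 ht) hst
  have hvs : L.toFinset.biUnion vs = Vl.toFinset := by
    ext v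
    constructor
    · intro h
      obtain ⟨t, ht, he⟩ := Finset.mem_biUnion.1 h
      have := hv t (List.mem_toFinset.1 ht)
      simp only [vs, Finset.mem_insert, Finset.mem_singleton] at he
      rw [List.mem_toFinset]
      rcases he with rfl | rfl | rfl
      exacts [this.1, this.2.1, this.2.2]
    · intro h
      exact (link_sound n L v (hl v (List.mem_toFinset.1 h))).1
  refine ⟨⟨fun t ht => indC_sound (hi' t ht), fun s hs t ht => ?_,
    fun s hs t ht hst => (hp' s hs t ht hst).2, fun v s hs t ht h1 h2 => ?_, hc⟩, ?_⟩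
  · rcases eq_or_ne s t with rfl | hst
    · rw [Finset.inter_self, Set.inter_self]
    · exact (hp' s hs t ht hst).1
  · have : v ∈ Vl := by
      rw [← List.mem_toFinset, ← hvs]; exact Finset.mem_biUnion.2 ⟨s, hs, h1⟩
    exact (link_sound n L v (hl v this)).2 s hs t ht h1 h2
  · have hnd : L.Nodup := hp.imp fun h e => h.2.1 (by rw [e])
    have c1 : (L.toFinset.biUnion vs).card = Vl.length := by
      rw [hvs, List.toFinset_card_of_nodup ((incr_sound Vl hV).imp ne_of_lt)]
    have c2 : L.toFinset.card = L.length := List.toFinset_card_of_nodup hnd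
    have c3 : (L.toFinset.biUnion de).card = 3 * L.length := by
      rw [Finset.card_biUnion (fun s hs t ht hst => (hp' s hs t ht hst).2.2),
        Finset.sum_congr rfl (fun t ht => card_de (hi' t ht)), Finset.sum_const, c2, smul_eq_mul,
        mul_comm]
    have c4 : ((L.toFinset.biUnion de).filter fun e => (e.2, e.1) ∉ L.toFinset.biUnion de) =
        Bl.toFinset := by
      ext ⟨u, v⟩
      rw [Finset.mem_filter, List.mem_toFinset, hb]
    have c5 := two_mul_edges (L.toFinset.biUnion de) (by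
      intro e he
      obtain ⟨t, ht, he⟩ := Finset.mem_biUnion.1 he
      obtain ⟨h1, h2, h3⟩ := indC_ne (hi' t ht)
      simp only [de, Finset.mem_insert, Finset.mem_singleton] at he
      rcases he with rfl | rfl | rfl <;> assumption)
    rw [c4, c3, List.toFinset_card_of_nodup hB] at c5
    simp only [euler, c1, c2]
    omega

end Pool.Agent.MP_995973_gt

end MrgPart2

-- marker of a merged file
example : 731051 + 747919 = 731051 + 747919 := rfl
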