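import Pool.Agent.MP_995973_gt.Data

/-! Kernel checks on the surface data: any two triangles meet in a common face. -/

set_option autoImplicit false
set_option maxRecDepth 100000

namespace Pool.Agent.MP_995973_gt

theorem chk_sorted : sortedC Tl = true := by decide +kernel

theorem rowsC_split : ∀ (n : ℕ) (L : List Tri) (cs : List ℕ), rowsC L (cs.take n) = true →
    rowsC (L.drop n) (cs.drop n) = true → rowsC L cs = true
  | 0, _, _, _, h => h
  | _ + 1, _, [], _, _ => by simp [rowsC]
  | _ + 1, [], _ :: _, _, _ => rfl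
  | n + 1, s :: L, c :: cs, h, h' => by
    simp only [List.take_succ_cons, List.drop_succ_cons, rowsC, Bool.and_eq_true] at h h' ⊢
    exact ⟨h.1, rowsC_split n L cs h.2 h'⟩

theorem chk_rows0a : rowsC Tl (cs0.take 66) = true := by decide +kernel

theorem chk_rows0b : rowsC (Tl.drop 66) (cs0.drop 66) = true := by decide +kernel

theorem chk_rows0 : rowsC Tl cs0 = true := rowsC_split 66 _ _ chk_rows0a chk_rows0b

theorem chk_rows1a : rowsC (Tl.drop 135) (cs1.take 66) = true := by decide +kernel

theorem chk_rows1b : rowsC ((Tl.drop 135).drop 66) (cs1.drop 66) = true := by decide +kernel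

theorem chk_rows1 : rowsC (Tl.drop 135) cs1 = true := rowsC_split 66 _ _ chk_rows1a chk_rows1b

theorem chk_rows2a : rowsC (Tl.drop 265) (cs2.take 66) = true := by decide +kernel

theorem chk_rows2b : rowsC ((Tl.drop 265).drop 66) (cs2.drop 66) = true := by decide +kernel

theorem chk_rows2 : rowsC (Tl.drop 265) cs2 = true := rowsC_split 66 _ _ chk_rows2a chk_rows2b

theorem chk_rows3a : rowsC (Tl.drop 396) (cs3.take 66) = true := by decide +kernel

theorem chk_rows3b : rowsC ((Tl.drop 396).drop 66) (cs3.drop 66) = true := by decide +kernel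

theorem chk_rows3 : rowsC (Tl.drop 396) cs3 = true := rowsC_split 66 _ _ chk_rows3a chk_rows3b

theorem chk_len : cs0.length = 135 ∧ cs1.length = 130 ∧ cs2.length = 131 ∧ cs3.length = 138 ∧
    Tl.length = 534 ∧ Bl.length = 296 ∧ Vl.length = 412 := by decide +kernel

theorem pairwise_Tl : Tl.Pairwise PairOK := by
  obtain ⟨l0, l1, l2, l3, l4, -⟩ := chk_len
  have hs := sortedC_sound Tl chk_sorted
  have hd : ∀ n, (Tl.drop n).Pairwise fun a b => ymin a ≤ ymin b := fun n =>
    hs.sublist (List.drop_sublist n Tl)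
  refine rowsC_sound Tl cs0 hs chk_rows0 ?_
  rw [l0]
  refine rowsC_sound _ cs1 (hd _) chk_rows1 ?_
  rw [l1, List.drop_drop]
  refine rowsC_sound _ cs2 (hd _) chk_rows2 ?_
  rw [l2, List.drop_drop]
  refine rowsC_sound _ cs3 (hd _) chk_rows3 ?_
  rw [l3, List.drop_drop, List.drop_of_length_le (by rw [l4])]
  exact List.Pairwise.nil

end Pool.Agent.MP_995973_gt
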