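import Pool.Agent.MP_995973_gt.Data

/-! Kernel checks on the surface data: links, connectivity, boundary and writhe. -/

set_option autoImplicit false
set_option maxRecDepth 100000

namespace Pool.Agent.MP_995973_gt

theorem chk_ind : Tl.all indC = true := by decide +kernel

theorem all_split {α : Type*} (n : ℕ) {l : List α} {f : α → Bool} (h1 : (l.take n).all f = true)
    (h2 : (l.drop n).all f = true) : l.all f = true := by
  rw [← List.take_append_drop n l, List.all_append, h1, h2]; rfl

/-- the link condition at a vertex -/
def vtxOK (v : ℕ) : Bool := vtxC 30 Bl v (Tl.filter (memT v))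

theorem chk_vtx0 : ((Vl.drop 0).take 42).all vtxOK = true := by decide +kernel

theorem chk_vtx1 : ((Vl.drop 42).take 42).all vtxOK = true := by decide +kernel

theorem chk_vtx2 : ((Vl.drop 84).take 42).all vtxOK = true := by decide +kernel

theorem chk_vtx3 : ((Vl.drop 126).take 42).all vtxOK = true := by decide +kernel

theorem chk_vtx4 : ((Vl.drop 168).take 42).all vtxOK = true := by decide +kernel

theorem chk_vtx5 : ((Vl.drop 210).take 42).all vtxOK = true := by decide +kernel

theorem chk_vtx6 : ((Vl.drop 252).take 42).all vtxOK = true := by decide +kernel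

theorem chk_vtx7 : ((Vl.drop 294).take 42).all vtxOK = true := by decide +kernel

theorem chk_vtx8 : ((Vl.drop 336).take 42).all vtxOK = true := by decide +kernel

theorem chk_vtx9 : (Vl.drop 378).all vtxOK = true := by decide +kernel

theorem all_step {α : Type*} (n k m : ℕ) {l : List α} {f : α → Bool} (e : n + k = m)
    (h1 : ((l.drop n).take k).all f = true) (h2 : (l.drop m).all f = true) :
    (l.drop n).all f = true :=
  all_split k h1 (by rw [List.drop_drop, e]; exact h2)

theorem chk_vtx : Vl.all (fun v => vtxC 30 Bl v (Tl.filter (memT v))) = true :=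
  show (Vl.drop 0).all vtxOK = true from
  all_step 0 42 42 rfl chk_vtx0 <|
  all_step 42 42 84 rfl chk_vtx1 <|
  all_step 84 42 126 rfl chk_vtx2 <|
  all_step 126 42 168 rfl chk_vtx3 <|
  all_step 168 42 210 rfl chk_vtx4 <|
  all_step 210 42 252 rfl chk_vtx5 <|
  all_step 252 42 294 rfl chk_vtx6 <|
  all_step 294 42 336 rfl chk_vtx7 <|
  all_step 336 42 378 rfl chk_vtx8 <|
  chk_vtx9

theorem chk_mem : Tl.all (fun t => (maskN Vl).testBit t.1 && (maskN Vl).testBit t.2.1 &&
    (maskN Vl).testBit t.2.2) = true := by decide +kernel

theorem chk_memB : Bl.all (fun e => (maskN Vl).testBit e.1) = true := by decide +kernel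

theorem chk_conn : connC 8 Tl = true := by decide +kernel

theorem chk_incr : incr Vl = true := by decide +kernel

theorem chk_nodup : ndM 0 (Bl.map Prod.fst) = true := by decide +kernel

theorem chk_align : alignC Bl (segsN 0 0 D0) = true := by decide +kernel

theorem chk_writhe : writheN (Bl.map fun e => (dec e.1, dec e.2)) 0 D0 = 8 := by decide +kernel

end Pool.Agent.MP_995973_gt
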