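import Pool.Agent.MP_995973_gt.PData2

/-! Kernel evaluation of the lower half of the diagram. -/

set_option autoImplicit false
set_option maxRecDepth 100000

namespace Pool.Agent.MP_995973_gt

open Kind

theorem stage0 : runV 0 w0 (one []) = decV V1 := by decide +kernel

theorem stage1a : runV 4 [(xl, 6)] (decV V1) = decV V1x1 := by decide +kernel

theorem stage1b : runV 4 [(xl, 5)] (decV V1x1) = decV V1x2 := by decide +kernel

theorem stage1c : runV 4 [(xr, 6)] (decV V1x2) = decV V2 := by decide +kernel

theorem stage1 : runV 4 w1 (decV V1) = decV V2 := by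
  rw [w1, run_xl, stage1a, run_xl, stage1b, stage1c]

theorem stage2a : runV 4 [(xl, 5)] (decV V2) = decV V2x1 := by decide +kernel

theorem stage2b : runV 4 [(xl, 4)] (decV V2x1) = decV V2x2 := by decide +kernel

theorem stage2c : runV 4 [(xr, 5), (cap, 3)] (decV V2x2) = decV V3 := by decide +kernel

theorem stage2 : runV 4 w2 (decV V2) = decV V3 := by
  rw [w2, run_xl, stage2a, run_xl, stage2b, stage2c]

theorem stage3a : runV 3 [(cup, 6), (xl, 5), (xl, 4)] (decV V3) = decV V3x3 := by decide +kernel

theorem stage3b : runV 4 [(xl, 3)] (decV V3x3) = decV V4 := by decide +kernel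

theorem stage3 : runV 3 w3 (decV V3) = decV V4 := by
  rw [run_cup, stage3a, stage3b]

end Pool.Agent.MP_995973_gt
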