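import Mathlib.Algebra.AffineMonoid.Basic
import Mathlib.Algebra.AffineMonoid.UniqueSums
import Mathlib.Algebra.Polynomial.Roots
import Mathlib.Data.Int.Star
import Mathlib.Algebra.Order.Ring.Star
import Mathlib.Analysis.CStarAlgebra.Classes
import Mathlib.RingTheory.SimpleRing.Principal
import Pool.Agent.MP_995973_gt.PData2
import Pool.Agent.MP_995973_gt.Geom
import Pool.Agent.MP_995973_gt.Chk1
import Pool.Agent.MP_995973_gt.Chk2
import Pool.Agent.MP_995973_gt.PChk1
import Pool.Agent.MP_995973_gt.PChk2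

-- ======== part 0: formerly Pool.Agent.MP_995973_gt.Jaeger2
section MrgPart0

/-! Local relations for the state sum. -/

set_option autoImplicit false
set_option linter.unusedSimpArgs false
set_option linter.unnecessarySeqFocus false
set_option linter.unusedTactic false
set_option linter.unreachableTactic false

namespace Pool.Agent.MP_995973_gt

open Kind Lab

variable {K : Type*} [Field K]

def zq (q : K) : K := (q ^ 2 - 1) / q

def dq (q a : K) : K := (a - a⁻¹) * q / (q ^ 2 - 1) + 1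

def mkJ (q a : K) : JP K := ⟨q, q⁻¹, q * a, (q * a)⁻¹, zq q⟩

structure GD (q a : K) (k : ℕ) (F : W → K) : Prop where
  hq : q ≠ 0
  ha : a ≠ 0
  hq2 : q ^ 2 - 1 ≠ 0
  good : Good0 a (zq q) (-1) k F
  loops : Loops (dq q a) k F

variable {q a : K} {k : ℕ} {F : W → K}

namespace GD

theorem hai (h : GD q a k F) : a * a⁻¹ = 1 := mul_inv_cancel₀ h.ha

theorem fL0 (h : GD q a k F) (n : ℕ) (hn : n ≤ k) : sh cap n (sh cup n F) = dq q a • F :=
  funext fun v => h.loops.head n v hn
theorem fCL (h : GD q a k F) (n : ℕ) (hn : n ≤ k) : sh xl n (sh cup n F) = a⁻¹ • sh cup n F :=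
  funext fun v => h.good.cupL h.hai n v hn
theorem fCR (h : GD q a k F) (n : ℕ) (hn : n ≤ k) : sh xr n (sh cup n F) = a • sh cup n F :=
  funext fun v => h.good.cupR n v hn
theorem fZ1 (h : GD q a k F) (n : ℕ) (hn : n + 1 ≤ k) : sh cap n (sh cup (n + 1) F) = F :=
  funext fun v => h.good.head.zig1 n v hn
theorem fZ2 (h : GD q a k F) (n : ℕ) (hn : n + 1 ≤ k) : sh cap (n + 1) (sh cup n F) = F :=
  funext fun v => h.good.head.zig2 n v hn
theorem fP1 (h : GD q a k F) (n : ℕ) (hn : n + 1 ≤ k) :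
    sh xr (n + 1) (sh cup n F) = sh xl n (sh cup (n + 1) F) :=
  funext fun v => (h.good.head.pf1 n v hn).symm
theorem fP2 (h : GD q a k F) (n : ℕ) (hn : n + 1 ≤ k) :
    sh xr n (sh cup (n + 1) F) = sh xl (n + 1) (sh cup n F) :=
  funext fun v => h.good.head.pf2 n v hn
theorem fP3 (h : GD q a k F) (n : ℕ) (hn : n + 3 ≤ k) :
    sh cap (n + 1) (sh xr n F) = sh cap n (sh xl (n + 1) F) :=
  funext fun v => (h.good.head.pf3 n v hn).symm
theorem fP4 (h : GD q a k F) (n : ℕ) (hn : n + 3 ≤ k) :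
    sh cap n (sh xr (n + 1) F) = sh cap (n + 1) (sh xl n F) :=
  funext fun v => h.good.head.pf4 n v hn
theorem fRa (h : GD q a k F) (n : ℕ) (hn : n + 2 ≤ k) : sh xr n (sh xl n F) = F :=
  funext fun v => h.good.head.r2a n v hn
theorem fRb (h : GD q a k F) (n : ℕ) (hn : n + 2 ≤ k) : sh xl n (sh xr n F) = F :=
  funext fun v => h.good.head.r2b n v hn
theorem fKL (h : GD q a k F) (n : ℕ) (hn : n + 2 ≤ k) : sh cap n (sh xl n F) = a⁻¹ • sh cap n F :=
  funext fun v => h.good.capL h.hai n v hn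
theorem fKR (h : GD q a k F) (n : ℕ) (hn : n + 2 ≤ k) : sh cap n (sh xr n F) = a • sh cap n F :=
  funext fun v => h.good.capR n v hn
theorem fSk (h : GD q a k F) (n : ℕ) (hn : n + 2 ≤ k) :
    sh xr n F = sh xl n F - zq q • F + zq q • sh cup n (sh cap n F) :=
  funext fun v => by
    have := h.good.head.skein n v hn
    simp only [sh_apply, Pi.add_apply, Pi.sub_apply, Pi.smul_apply, smul_eq_mul]
    linear_combination -this
theorem fQ (h : GD q a k F) (n : ℕ) (hn : n + 2 ≤ k) :
    sh xl n (sh xl n F) = F + zq q • sh xl n F - (zq q * a⁻¹) • sh cup n (sh cap n F) :=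
  funext fun v => by
    have h1 := (h.good.sxl n hn).head.skein n v hn
    have h2 := h.good.head.r2a n v hn
    have h3 := h.good.capL h.hai n ((cup, n) :: v) hn
    simp only [sh_apply, Pi.add_apply, Pi.sub_apply, Pi.smul_apply, smul_eq_mul] at *
    linear_combination h1 + h2 - zq q * h3
theorem fR3 (h : GD q a k F) (n : ℕ) (hn : n + 3 ≤ k) :
    sh xl n (sh xl (n + 1) (sh xl n F)) = sh xl (n + 1) (sh xl n (sh xl (n + 1) F)) :=
  funext fun v => h.good.head.r3 n v hn
theorem fOK (h : GD q a k F) (n : ℕ) (hn : n + 3 ≤ k) :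
    sh cap n (sh xl (n + 1) (sh xl n F)) = sh cap (n + 1) F :=
  funext fun v => h.good.overCap n v hn
theorem fUK (h : GD q a k F) (n : ℕ) (hn : n + 3 ≤ k) :
    sh cap (n + 1) (sh xl n (sh xl (n + 1) F)) = sh cap n F :=
  funext fun v => h.good.underCap n v hn
theorem fOC (h : GD q a k F) (n : ℕ) (hn : n + 1 ≤ k) :
    sh xl (n + 1) (sh xl n (sh cup (n + 1) F)) = sh cup n F :=
  funext fun v => h.good.overCup n v hn
theorem fUC (h : GD q a k F) (n : ℕ) (hn : n + 1 ≤ k) :
    sh xl n (sh xl (n + 1) (sh cup n F)) = sh cup (n + 1) F :=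
  funext fun v => h.good.underCup n v hn
theorem fcR (h : GD q a k F) (n : ℕ) (hn : n + 1 ≤ k) :
    sh cap (n + 1) (sh xl n (sh cup (n + 1) F)) = a • F :=
  funext fun v => h.good.head.curlR n v hn
theorem fcL (h : GD q a k F) (n : ℕ) (hn : n + 1 ≤ k) :
    sh cap n (sh xl (n + 1) (sh cup n F)) = a • F :=
  funext fun v => h.good.head.curlL n v hn
theorem fK3 (h : GD q a k F) (n : ℕ) (hn : n + 3 ≤ k) :
    sh cap n (sh xl (n + 1) F) =
      sh cap (n + 1) (sh xl n F) + zq q • sh cap n F - zq q • sh cap (n + 1) F :=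
  funext fun v => by
    have h1 := h.good.head.skein (n + 1) ((cap, n) :: v) hn
    have h2 := h.good.head.pf4 n v hn
    have h3 := (h.good.scap (n + 1) hn).head.zig1 n v (by omega)
    simp only [sh_apply, Pi.add_apply, Pi.sub_apply, Pi.smul_apply, smul_eq_mul] at *
    linear_combination h1 + h2 - zq q * h3
theorem fC3 (h : GD q a k F) (n : ℕ) (hn : n + 1 ≤ k) :
    sh xl (n + 1) (sh cup n F) =
      sh xl n (sh cup (n + 1) F) + zq q • sh cup n F - zq q • sh cup (n + 1) F :=
  funext fun v => by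
    have h1 := (h.good.scup n (by omega)).head.skein (n + 1) v (by omega)
    have h2 := h.good.head.pf1 n v hn
    have h3 := h.good.head.zig2 n ((cup, n + 1) :: v) hn
    simp only [sh_apply, Pi.add_apply, Pi.sub_apply, Pi.smul_apply, smul_eq_mul] at *
    linear_combination h1 - h2 - zq q * h3

end GD

variable (E : List Lab → Lin K) (n : ℕ) (s : List Lab)

theorem loc_zig1 (h : GD q a k F) (x : Lab) (hk : n + cnt (x :: s) ≤ k) :
    comp (mkJ q a) E n [(cup, 1), (cap, 0)] (x :: s) F = E (x :: s) F := by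
  have := h.hq; have := h.ha; have := h.hq2
  cases x <;> simp only [cnt, c1] at hk <;>
    simp (disch := omega) only [comp, stp, lstep, lcup, lcap, lxl, lxr, c1, mkJ, add_zero,
      LinearMap.add_apply, LinearMap.smul_apply, LinearMap.comp_apply, LinearMap.zero_apply,
      h.fZ1, smul_eq_mul] <;> field_simp <;> ring

theorem loc_zig2 (h : GD q a k F) (x : Lab) (hk : n + cnt (x :: s) ≤ k) :
    comp (mkJ q a) E n [(cup, 0), (cap, 1)] (x :: s) F = E (x :: s) F := by
  have := h.hq; have := h.ha; have := h.hq2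
  cases x <;> simp only [cnt, c1] at hk <;>
    simp (disch := omega) only [comp, stp, lstep, lcup, lcap, lxl, lxr, c1, mkJ, add_zero,
      LinearMap.add_apply, LinearMap.smul_apply, LinearMap.comp_apply, LinearMap.zero_apply,
      h.fZ2, smul_eq_mul] <;> field_simp <;> ring

theorem loc_pf1 (h : GD q a k F) (x : Lab) (hk : n + cnt (x :: s) ≤ k) :
    comp (mkJ q a) E n [(cup, 1), (xl, 0)] (x :: s) F =
      comp (mkJ q a) E n [(cup, 0), (xr, 1)] (x :: s) F := by
  have := h.hq; have := h.ha; have := h.hq2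
  cases x <;> simp only [cnt, c1] at hk <;>
    simp (disch := omega) only [comp, stp, lstep, lcup, lcap, lxl, lxr, c1, mkJ, add_zero,
      LinearMap.add_apply, LinearMap.smul_apply, LinearMap.comp_apply, LinearMap.zero_apply,
      h.fZ1, h.fZ2, h.fP1, smul_eq_mul] <;> simp only [zq] <;> field_simp <;> ring

theorem loc_pf2 (h : GD q a k F) (x : Lab) (hk : n + cnt (x :: s) ≤ k) :
    comp (mkJ q a) E n [(cup, 1), (xr, 0)] (x :: s) F =
      comp (mkJ q a) E n [(cup, 0), (xl, 1)] (x :: s) F := by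
  have := h.hq; have := h.ha; have := h.hq2
  cases x <;> simp only [cnt, c1] at hk <;>
    simp (disch := omega) only [comp, stp, lstep, lcup, lcap, lxl, lxr, c1, mkJ, add_zero,
      LinearMap.add_apply, LinearMap.smul_apply, LinearMap.comp_apply, LinearMap.zero_apply,
      h.fZ1, h.fZ2, h.fP2, smul_eq_mul] <;> simp only [zq] <;> field_simp <;> ring

theorem loc_pf3 (h : GD q a k F) (x y w : Lab) (hk : n + cnt (x :: y :: w :: s) ≤ k) :
    comp (mkJ q a) E n [(xl, 1), (cap, 0)] (x :: y :: w :: s) F =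
      comp (mkJ q a) E n [(xr, 0), (cap, 1)] (x :: y :: w :: s) F := by
  have := h.hq; have := h.ha; have := h.hq2
  cases x <;> cases y <;> cases w <;> simp only [cnt, c1] at hk <;>
    simp (disch := omega) only [comp, stp, lstep, lcup, lcap, lxl, lxr, c1, mkJ, add_zero,
      LinearMap.add_apply, LinearMap.smul_apply, LinearMap.comp_apply, LinearMap.zero_apply,
      h.fZ1, h.fZ2, h.fP3, smul_eq_mul] <;> (try simp only [zq]) <;> (try field_simp) <;> ring

theorem loc_pf4 (h : GD q a k F) (x y w : Lab) (hk : n + cnt (x :: y :: w :: s) ≤ k) :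
    comp (mkJ q a) E n [(xr, 1), (cap, 0)] (x :: y :: w :: s) F =
      comp (mkJ q a) E n [(xl, 0), (cap, 1)] (x :: y :: w :: s) F := by
  have := h.hq; have := h.ha; have := h.hq2
  cases x <;> cases y <;> cases w <;> simp only [cnt, c1] at hk <;>
    simp (disch := omega) only [comp, stp, lstep, lcup, lcap, lxl, lxr, c1, mkJ, add_zero,
      LinearMap.add_apply, LinearMap.smul_apply, LinearMap.comp_apply, LinearMap.zero_apply,
      h.fZ1, h.fZ2, h.fP4, smul_eq_mul] <;> (try simp only [zq]) <;> (try field_simp) <;> ring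

theorem loc_r2a (h : GD q a k F) (x y : Lab) (hk : n + cnt (x :: y :: s) ≤ k) :
    comp (mkJ q a) E n [(xl, 0), (xr, 0)] (x :: y :: s) F = E (x :: y :: s) F := by
  have := h.hq; have := h.ha; have := h.hq2
  cases x <;> cases y <;> simp only [cnt, c1] at hk <;>
    simp (disch := omega) only [comp, stp, lstep, lcup, lcap, lxl, lxr, c1, mkJ, add_zero,
      LinearMap.add_apply, LinearMap.smul_apply, LinearMap.comp_apply, LinearMap.zero_apply,
      h.fRa, h.fKL, h.fCR, h.fL0, map_smul, smul_eq_mul] <;>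
    (try simp only [zq, dq]) <;> (try field_simp) <;> ring

theorem loc_r2b (h : GD q a k F) (x y : Lab) (hk : n + cnt (x :: y :: s) ≤ k) :
    comp (mkJ q a) E n [(xr, 0), (xl, 0)] (x :: y :: s) F = E (x :: y :: s) F := by
  have := h.hq; have := h.ha; have := h.hq2
  cases x <;> cases y <;> simp only [cnt, c1] at hk <;>
    simp (disch := omega) only [comp, stp, lstep, lcup, lcap, lxl, lxr, c1, mkJ, add_zero,
      LinearMap.add_apply, LinearMap.smul_apply, LinearMap.comp_apply, LinearMap.zero_apply,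
      h.fRb, h.fKR, h.fCL, h.fL0, map_smul, smul_eq_mul] <;>
    (try simp only [zq, dq]) <;> (try field_simp) <;> ring

theorem loc_skein (h : GD q a k F) (x y : Lab) (hk : n + cnt (x :: y :: s) ≤ k) :
    comp (mkJ q a) E n [(xl, 0)] (x :: y :: s) F +
        (-1) * comp (mkJ q a) E n [(xr, 0)] (x :: y :: s) F =
      zq q * (E (x :: y :: s) F +
        (-1) * comp (mkJ q a) E n [(cap, 0), (cup, 0)] (x :: y :: s) F) := by
  have := h.hq; have := h.ha; have := h.hq2
  cases x <;> cases y <;> simp only [cnt, c1] at hk <;>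
    simp (disch := omega) only [comp, stp, lstep, lcup, lcap, lxl, lxr, c1, mkJ, add_zero,
      LinearMap.add_apply, LinearMap.smul_apply, LinearMap.comp_apply, LinearMap.zero_apply,
      h.fSk, map_smul, map_add, map_sub, smul_eq_mul] <;>
    (try simp only [zq, dq]) <;> (try field_simp) <;> ring

theorem loc_curlR (h : GD q a k F) (x : Lab) (hk : n + cnt (x :: s) ≤ k) :
    comp (mkJ q a) E n [(cup, 1), (xl, 0), (cap, 1)] (x :: s) F = q ^ 2 * a * E (x :: s) F := by
  have := h.hq; have := h.ha; have := h.hq2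
  cases x <;> simp only [cnt, c1] at hk <;>
    simp (disch := omega) only [comp, stp, lstep, lcup, lcap, lxl, lxr, c1, mkJ, add_zero,
      LinearMap.add_apply, LinearMap.smul_apply, LinearMap.comp_apply, LinearMap.zero_apply,
      h.fcR, h.fL0, map_smul, smul_eq_mul] <;>
    (try simp only [zq, dq]) <;> (try field_simp) <;> ring

theorem loc_curlL (h : GD q a k F) (x : Lab) (hk : n + cnt (x :: s) ≤ k) :
    comp (mkJ q a) E n [(cup, 0), (xl, 1), (cap, 0)] (x :: s) F = q ^ 2 * a * E (x :: s) F := by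
  have := h.hq; have := h.ha; have := h.hq2
  cases x <;> simp only [cnt, c1] at hk <;>
    simp (disch := omega) only [comp, stp, lstep, lcup, lcap, lxl, lxr, c1, mkJ, add_zero,
      LinearMap.add_apply, LinearMap.smul_apply, LinearMap.comp_apply, LinearMap.zero_apply,
      h.fcL, h.fL0, map_smul, smul_eq_mul] <;>
    (try simp only [zq, dq]) <;> (try field_simp) <;> ring

theorem loc_loop (h : GD q a k F) (hk : n + cnt s ≤ k) :
    comp (mkJ q a) E n [(cup, 0), (cap, 0)] s F = dq q (q ^ 2 * a) * E s F := by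
  have := h.hq; have := h.ha; have := h.hq2
  simp (disch := omega) only [comp, stp, lstep, lcup, lcap, lxl, lxr, c1, mkJ, add_zero,
      LinearMap.add_apply, LinearMap.smul_apply, LinearMap.comp_apply, LinearMap.zero_apply,
      h.fL0, map_smul, smul_eq_mul]
  simp only [zq, dq]; field_simp; ring

theorem loc_r3 (h : GD q a k F) (x y w : Lab) (hk : n + cnt (x :: y :: w :: s) ≤ k) :
    comp (mkJ q a) E n [(xl, 0), (xl, 1), (xl, 0)] (x :: y :: w :: s) F =
      comp (mkJ q a) E n [(xl, 1), (xl, 0), (xl, 1)] (x :: y :: w :: s) F := by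
  have := h.hq; have := h.ha; have := h.hq2
  cases x <;> cases y <;> cases w <;> simp only [cnt, c1] at hk <;>
    simp (disch := omega) only [comp, stp, lstep, lcup, lcap, lxl, lxr, c1, mkJ, add_zero,
      LinearMap.add_apply, LinearMap.smul_apply, LinearMap.comp_apply, LinearMap.zero_apply,
      h.fR3, h.fOK, h.fUK, h.fOC, h.fUC, h.fcR, h.fcL, h.fQ, h.fKL, h.fCL, h.fL0, h.fZ1, h.fZ2] <;>
    (try simp (disch := omega) only [h.fK3, h.fC3, map_smul, map_add, map_sub, smul_eq_mul]) <;>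
    (try simp only [zq, dq]) <;> (try field_simp) <;> ring

end Pool.Agent.MP_995973_gt

end MrgPart0

-- ======== part 1: formerly Pool.Agent.MP_995973_gt.Jaeger3
section MrgPart1

/-! The state sum step, the tower of functionals and the sign twist. -/

set_option autoImplicit false

namespace Pool.Agent.MP_995973_gt

open Kind Lab

section Closure

variable {K : Type*} [CommRing K] {a z s d : K} {k : ℕ}

/-- The head relations including loop removal. -/
def HL (a z s d : K) (k : ℕ) (F : W → K) : Prop :=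
  Head0 a z s k F ∧ ∀ i v, i ≤ k → F ((cup, i) :: (cap, i) :: v) = d * F v

theorem HL.smul {F : W → K} (c : K) (h : HL a z s d k F) : HL a z s d k (fun v => c * F v) := by
  refine ⟨⟨?_, ?_, ?_, ?_, ?_, ?_, ?_, ?_, ?_, ?_, ?_, ?_, ?_⟩, ?_⟩
  · intro g g' i j v h1 h2; rw [h.1.comm g g' i j v h1 h2]
  · intro i v hi; rw [h.1.zig1 i v hi]
  · intro i v hi; rw [h.1.zig2 i v hi]
  · intro i v hi; rw [h.1.pf1 i v hi]
  · intro i v hi; rw [h.1.pf2 i v hi]
  · intro i v hi; rw [h.1.pf3 i v hi]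
  · intro i v hi; rw [h.1.pf4 i v hi]
  · intro i v hi; rw [h.1.r2a i v hi]
  · intro i v hi; rw [h.1.r2b i v hi]
  · intro i v hi; rw [h.1.r3 i v hi]
  · intro i v hi; rw [h.1.curlR i v hi]; ring
  · intro i v hi; rw [h.1.curlL i v hi]; ring
  · intro i v hi; linear_combination c * h.1.skein i v hi
  · intro i v hi; dsimp only; rw [h.2 i v hi]; ring

theorem HL.add {F G : W → K} (h : HL a z s d k F) (h' : HL a z s d k G) :
    HL a z s d k (fun v => F v + G v) := by
  refine ⟨⟨?_, ?_, ?_, ?_, ?_, ?_, ?_, ?_, ?_, ?_, ?_, ?_, ?_⟩, ?_⟩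
  · intro g g' i j v h1 h2; rw [h.1.comm g g' i j v h1 h2, h'.1.comm g g' i j v h1 h2]
  · intro i v hi; rw [h.1.zig1 i v hi, h'.1.zig1 i v hi]
  · intro i v hi; rw [h.1.zig2 i v hi, h'.1.zig2 i v hi]
  · intro i v hi; rw [h.1.pf1 i v hi, h'.1.pf1 i v hi]
  · intro i v hi; rw [h.1.pf2 i v hi, h'.1.pf2 i v hi]
  · intro i v hi; rw [h.1.pf3 i v hi, h'.1.pf3 i v hi]
  · intro i v hi; rw [h.1.pf4 i v hi, h'.1.pf4 i v hi]
  · intro i v hi; rw [h.1.r2a i v hi, h'.1.r2a i v hi]
  · intro i v hi; rw [h.1.r2b i v hi, h'.1.r2b i v hi]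
  · intro i v hi; rw [h.1.r3 i v hi, h'.1.r3 i v hi]
  · intro i v hi; rw [h.1.curlR i v hi, h'.1.curlR i v hi]; ring
  · intro i v hi; rw [h.1.curlL i v hi, h'.1.curlL i v hi]; ring
  · intro i v hi; linear_combination h.1.skein i v hi + h'.1.skein i v hi
  · intro i v hi; dsimp only; rw [h.2 i v hi, h'.2 i v hi]; ring

theorem HL.zero : HL a z s d k (fun _ => 0) := by
  refine ⟨⟨?_, ?_, ?_, ?_, ?_, ?_, ?_, ?_, ?_, ?_, ?_, ?_, ?_⟩, ?_⟩ <;> intros <;> simp

theorem good_of_HL {F : W → K} (h : ∀ u k', Val k u k' → HL a z s d k' (fun v => F (u ++ v))) :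
    Good0 a z s k F ∧ Loops d k F :=
  ⟨fun u k' hu => (h u k' hu).1, fun u k' hu => (h u k' hu).2⟩

end Closure

variable {K : Type*} [Field K] {q a : K} {k : ℕ} {F : W → K}

theorem GD.step (h : GD q a k F) (g : Kind) (i : ℕ) (hi : i + din g ≤ k) :
    GD q a (k - din g + dout g) (sh g i F) :=
  ⟨h.hq, h.ha, h.hq2, h.good.step g i hi, h.loops.shift (u := [(g, i)]) ⟨hi, rfl⟩⟩

theorem GD.cast {k' : ℕ} (h : GD q a k F) (e : k = k') : GD q a k' F := e ▸ h

theorem stp_ind (J : JP K) (a' z' s' d' : K) (k' : ℕ) (g : Kind) :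
    ∀ (i : ℕ) (E : W → List Lab → Lin K) (n : ℕ) (s : List Lab), GD q a (n + cnt s) F →
      i + din g ≤ s.length →
      (∀ s1 F1, s1.length = s.length - din g + dout g → GD q a (n + cnt s1) F1 →
        HL a' z' s' d' k' (fun v => E v s1 F1)) →
      HL a' z' s' d' k' (fun v => stp J g i (E v) n s F)
  | 0, E, n, s, hF, hi, hE => by
    have hcup : ∀ r : List Lab, GD q a (n + cnt r) F →
        GD q a (n + cnt (V :: V :: r)) (sh cup n F) := fun r hr =>
      (hr.step cup n (by simp only [din]; omega)).cast (by simp only [din, dout, cnt, c1]; omega)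
    have hcap : ∀ r : List Lab, GD q a (n + cnt (V :: V :: r)) F →
        GD q a (n + cnt r) (sh cap n F) := fun r hr =>
      (hr.step cap n (by simp only [din, cnt, c1]; omega)).cast
        (by simp only [din, dout, cnt, c1]; omega)
    have hxl : ∀ r : List Lab, GD q a (n + cnt (V :: V :: r)) F →
        GD q a (n + cnt (V :: V :: r)) (sh xl n F) := fun r hr =>
      (hr.step xl n (by simp only [din, cnt, c1]; omega)).cast
        (by simp only [din, dout, cnt, c1]; omega)
    have hxr : ∀ r : List Lab, GD q a (n + cnt (V :: V :: r)) F →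
        GD q a (n + cnt (V :: V :: r)) (sh xr n F) := fun r hr =>
      (hr.step xr n (by simp only [din, cnt, c1]; omega)).cast
        (by simp only [din, dout, cnt, c1]; omega)
    cases g
    · exact ((hE _ _ (by simp [din, dout]) (hcup s hF)).add
        ((hE (P :: M :: s) _ (by simp [din, dout]) (hF.cast (by simp [cnt, c1]))).smul _)).add
        (hE (M :: P :: s) _ (by simp [din, dout]) (hF.cast (by simp [cnt, c1])))
    all_goals
      rcases s with _ | ⟨x, _ | ⟨y, s⟩⟩
      · simp [din] at hi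
      · simp [din] at hi
      have hE2 : ∀ (x' y' : Lab) F1, GD q a (n + cnt (x' :: y' :: s)) F1 →
          (x' :: y' :: s).length = _ → HL a' z' s' d' k' (fun v => E v (x' :: y' :: s) F1) :=
        fun x' y' F1 h1 h2 => hE _ _ h2 h1
      have hE0 : ∀ F1, GD q a (n + cnt s) F1 →
          s.length = _ → HL a' z' s' d' k' (fun v => E v s F1) :=
        fun F1 h1 h2 => hE _ _ h2 h1
      cases x <;> cases y
    all_goals
      simp only [stp, lstep, lcap, lxl, lxr, LinearMap.add_apply, LinearMap.smul_apply,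
        LinearMap.comp_apply, LinearMap.zero_apply, smul_eq_mul]
      repeat' first
        | exact HL.zero
        | apply HL.add
        | apply HL.smul
        | exact hE0 _ (hcap _ hF) rfl
        | exact hE0 _ (hF.cast (by simp [cnt, c1])) rfl
        | exact hE2 _ _ _ (hF.cast (by simp [cnt, c1])) rfl
        | exact hE2 _ _ _ (hxl _ hF) rfl
        | exact hE2 _ _ _ (hxr _ hF) rfl
        | exact hE2 _ _ _ ((hcap _ hF).cast (by simp [cnt, c1])) rfl
        | exact hE2 _ _ _ (hcup _ (hF.cast (by simp [cnt, c1]))) rfl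
  | _ + 1, _, _, [], _, hi, _ => by simp at hi
  | i + 1, E, n, x :: s, hF, hi, hE =>
    stp_ind J a' z' s' d' k' g i (fun v r => E v (x :: r)) (n + c1 x) s
      (hF.cast (by simp only [cnt]; omega)) (by simp only [List.length_cons] at hi; omega)
      (fun s1 F1 h1 h2 => hE (x :: s1) F1
        (by simp only [List.length_cons] at hi ⊢; omega) (h2.cast (by simp only [cnt]; omega)))

/-- Final evaluation of a state. -/
def E0 : List Lab → Lin K
  | [] => LinearMap.proj ([] : W)
  | _ :: _ => 0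

theorem split_list (i : ℕ) (s : List Lab) (h : i ≤ s.length) :
    ∃ pre r, s = pre ++ r ∧ pre.length = i :=
  ⟨s.take i, s.drop i, (List.take_append_drop i s).symm, by simp [h]⟩

theorem head_state (s : List Lab) (h : GD q a (cnt s) F) :
    HL (q ^ 2 * a) (zq q) (-1) (dq q (q ^ 2 * a)) s.length
      (fun v => comp (mkJ q a) E0 0 v s F) := by
  have key : ∀ (i : ℕ) (l v : W) (pre r : List Lab), pre.length = i →
      comp (mkJ q a) E0 0 (shiftW i l ++ v) (pre ++ r) =
        comp (mkJ q a) (fun r' => comp (mkJ q a) E0 0 v (pre ++ r')) (0 + cnt pre) l r := by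
    intro i l v pre r hp
    rw [comp_append, ← hp, comp_shift]
  have hc : ∀ pre r : List Lab, s = pre ++ r → 0 + cnt pre + cnt r ≤ cnt s := by
    intro pre r e; rw [e, cnt_append]; omega
  have s1 : ∀ i, i + 1 ≤ s.length → ∃ pre x r, s = pre ++ x :: r ∧ pre.length = i := by
    intro i hi
    obtain ⟨pre, r, rfl, hp⟩ := split_list i s (by omega)
    rcases r with _ | ⟨x, r⟩
    · simp at hi; omega
    · exact ⟨pre, x, r, rfl, hp⟩
  have s2 : ∀ i, i + 2 ≤ s.length → ∃ pre x y r, s = pre ++ x :: y :: r ∧ pre.length = i := by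
    intro i hi
    obtain ⟨pre, x, r, rfl, hp⟩ := s1 i (by omega)
    rcases r with _ | ⟨y, r⟩
    · simp at hi; omega
    · exact ⟨pre, x, y, r, rfl, hp⟩
  have s3 : ∀ i, i + 3 ≤ s.length →
      ∃ pre x y w r, s = pre ++ x :: y :: w :: r ∧ pre.length = i := by
    intro i hi
    obtain ⟨pre, x, y, r, rfl, hp⟩ := s2 i (by omega)
    rcases r with _ | ⟨w, r⟩
    · simp at hi; omega
    · exact ⟨pre, x, y, w, r, rfl, hp⟩
  refine ⟨⟨?_, ?_, ?_, ?_, ?_, ?_, ?_, ?_, ?_, ?_, ?_, ?_, ?_⟩, ?_⟩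
  · intro g g' i j v h1 h2
    obtain ⟨pre, r, e, hp⟩ := split_list i s (by omega)
    obtain ⟨j, rfl⟩ : ∃ j', j = i + j' := ⟨j - i, by omega⟩
    have e1 := key i [(g, 0), (g', j + dout g)] v pre r hp
    have e2 := key i [(g', j + din g), (g, 0)] v pre r hp
    simp only [shiftW, List.map, List.cons_append, List.nil_append, add_zero, ← add_assoc] at e1 e2
    have hl : din g ≤ r.length := by rw [e, List.length_append] at h2; omega
    show comp _ _ _ _ s F = comp _ _ _ _ s F
    rw [e, e1, e2]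
    exact loc_comm _ h.good g g' j _ _ r hl (hc pre r e)
  · intro i v hi
    obtain ⟨pre, x, r, e, hp⟩ := s1 i hi
    have := loc_zig1 (fun r' => comp (mkJ q a) E0 0 v (pre ++ r')) _ r h x (hc pre _ e)
    rw [← key i _ v pre _ hp, ← e] at this; exact this
  · intro i v hi
    obtain ⟨pre, x, r, e, hp⟩ := s1 i hi
    have := loc_zig2 (fun r' => comp (mkJ q a) E0 0 v (pre ++ r')) _ r h x (hc pre _ e)
    rw [← key i _ v pre _ hp, ← e] at this; exact this
  · intro i v hi
    obtain ⟨pre, x, r, e, hp⟩ := s1 i hi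
    have := loc_pf1 (fun r' => comp (mkJ q a) E0 0 v (pre ++ r')) _ r h x (hc pre _ e)
    rw [← key i _ v pre _ hp, ← key i _ v pre _ hp, ← e] at this; exact this
  · intro i v hi
    obtain ⟨pre, x, r, e, hp⟩ := s1 i hi
    have := loc_pf2 (fun r' => comp (mkJ q a) E0 0 v (pre ++ r')) _ r h x (hc pre _ e)
    rw [← key i _ v pre _ hp, ← key i _ v pre _ hp, ← e] at this; exact this
  · intro i v hi
    obtain ⟨pre, x, y, w, r, e, hp⟩ := s3 i hi
    have := loc_pf3 (fun r' => comp (mkJ q a) E0 0 v (pre ++ r')) _ r h x y w (hc pre _ e)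
    rw [← key i _ v pre _ hp, ← key i _ v pre _ hp, ← e] at this; exact this
  · intro i v hi
    obtain ⟨pre, x, y, w, r, e, hp⟩ := s3 i hi
    have := loc_pf4 (fun r' => comp (mkJ q a) E0 0 v (pre ++ r')) _ r h x y w (hc pre _ e)
    rw [← key i _ v pre _ hp, ← key i _ v pre _ hp, ← e] at this; exact this
  · intro i v hi
    obtain ⟨pre, x, y, r, e, hp⟩ := s2 i hi
    have := loc_r2a (fun r' => comp (mkJ q a) E0 0 v (pre ++ r')) _ r h x y (hc pre _ e)
    rw [← key i _ v pre _ hp, ← e] at this; exact this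
  · intro i v hi
    obtain ⟨pre, x, y, r, e, hp⟩ := s2 i hi
    have := loc_r2b (fun r' => comp (mkJ q a) E0 0 v (pre ++ r')) _ r h x y (hc pre _ e)
    rw [← key i _ v pre _ hp, ← e] at this; exact this
  · intro i v hi
    obtain ⟨pre, x, y, w, r, e, hp⟩ := s3 i hi
    have := loc_r3 (fun r' => comp (mkJ q a) E0 0 v (pre ++ r')) _ r h x y w (hc pre _ e)
    rw [← key i _ v pre _ hp, ← key i _ v pre _ hp, ← e] at this; exact this
  · intro i v hi
    obtain ⟨pre, x, r, e, hp⟩ := s1 i hi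
    have := loc_curlR (fun r' => comp (mkJ q a) E0 0 v (pre ++ r')) _ r h x (hc pre _ e)
    rw [← key i _ v pre _ hp, ← e] at this; exact this
  · intro i v hi
    obtain ⟨pre, x, r, e, hp⟩ := s1 i hi
    have := loc_curlL (fun r' => comp (mkJ q a) E0 0 v (pre ++ r')) _ r h x (hc pre _ e)
    rw [← key i _ v pre _ hp, ← e] at this; exact this
  · intro i v hi
    obtain ⟨pre, x, y, r, e, hp⟩ := s2 i hi
    have := loc_skein (fun r' => comp (mkJ q a) E0 0 v (pre ++ r')) _ r h x y (hc pre _ e)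
    rw [← key i _ v pre _ hp, ← key i _ v pre _ hp, ← key i _ v pre _ hp, ← e] at this
    exact this
  · intro i v hi
    obtain ⟨pre, r, e, hp⟩ := split_list i s hi
    have := loc_loop (fun r' => comp (mkJ q a) E0 0 v (pre ++ r')) _ r h (hc pre _ e)
    rw [← key i _ v pre _ hp, ← e] at this; exact this

theorem good_state (k' : ℕ) : ∀ (u : W) (s : List Lab) (F : W → K), GD q a (cnt s) F →
    Val s.length u k' → HL (q ^ 2 * a) (zq q) (-1) (dq q (q ^ 2 * a)) k'
      (fun v => comp (mkJ q a) E0 0 (u ++ v) s F)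
  | [], s, F, h, hu => by cases hu; exact head_state s h
  | (g, i) :: u, s, F, h, hu =>
    stp_ind (mkJ q a) _ _ _ _ k' g i (fun v => comp (mkJ q a) E0 0 (u ++ v)) 0 s
      (h.cast (by omega)) hu.1
      (fun s1 F1 h1 h2 => good_state k' u s1 F1 (h2.cast (by omega)) (h1 ▸ hu.2))

theorem GD.next (h : GD q a 0 F) :
    GD q (q ^ 2 * a) 0 (fun w => comp (mkJ q a) E0 0 w [] F) := by
  have := good_of_HL (F := fun w => comp (mkJ q a) E0 0 w [] F)
    (fun u k' hu => good_state k' u [] F h hu)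
  exact ⟨h.hq, mul_ne_zero (pow_ne_zero _ h.hq) h.ha, h.hq2, this.1, this.2⟩

/-- The functional of the empty theory. -/
def F0 : W → K
  | [] => 1
  | _ :: _ => 0

theorem GD.base (hq : q ≠ 0) (hq2 : q ^ 2 - 1 ≠ 0) : GD q q⁻¹ 0 (F0 (K := K)) := by
  have hd : dq q q⁻¹ = 0 := by
    simp only [dq]; field_simp; ring
  have : ∀ u k', Val 0 u k' → HL q⁻¹ (zq q) (-1) (dq q q⁻¹) k' (fun v => F0 (u ++ v)) := by
    intro u k' hu
    rcases u with _ | ⟨x, u⟩
    · cases hu
      refine ⟨⟨?_, ?_, ?_, ?_, ?_, ?_, ?_, ?_, ?_, ?_, ?_, ?_, ?_⟩, ?_⟩ <;> intros <;>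
        first | omega | rfl | simp [hd, F0]
    · exact HL.zero
  have := good_of_HL this
  exact ⟨hq, inv_ne_zero hq, hq2, this.1, this.2⟩

theorem exists_tower (hq : q ≠ 0) (hq2 : q ^ 2 - 1 ≠ 0) :
    ∀ N : ℕ, ∃ F : W → K, GD q ((q ^ 2) ^ N * q⁻¹) 0 F ∧ F [] = 1
  | 0 => ⟨F0, by simpa using GD.base hq hq2, rfl⟩
  | N + 1 => by
    obtain ⟨F, h1, h2⟩ := exists_tower hq hq2 N
    have := h1.next
    rw [← mul_assoc, ← pow_succ'] at this
    exact ⟨_, this, h2⟩

section Twist

variable {K : Type*} [CommRing K] (I : K)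

def eps1 : Kind × ℕ → K
  | (cup, i) => -(-1) ^ i
  | (cap, i) => (-1) ^ i
  | (xl, _) => I
  | (xr, _) => -I

def eps : W → K
  | [] => 1
  | x :: w => eps1 I x * eps w

theorem eps_append (v : W) : ∀ u : W, eps I (u ++ v) = eps I u * eps I v
  | [] => by simp [eps]
  | x :: u => by simp only [List.cons_append, eps, eps_append v u]; ring

theorem HL.twist {a z d : K} {k : ℕ} {F : W → K} (hI : I * I = -1) (h : HL a z (-1) d k F) :
    HL (-I * a) (I * z) 1 (-d) k (fun v => eps I v * F v) := by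
  have hp : ∀ i : ℕ, ((-1 : K) ^ i) * (-1) ^ i = 1 := fun i => by
    rw [← mul_pow]; simp
  refine ⟨⟨?_, ?_, ?_, ?_, ?_, ?_, ?_, ?_, ?_, ?_, ?_, ?_, ?_⟩, ?_⟩
  · intro g g' i j v h1 h2
    rw [h.1.comm g g' i j v h1 h2]
    cases g <;> cases g' <;> simp only [eps, eps1, din, dout, pow_add] <;> ring
  · intro i v hi; rw [h.1.zig1 i v hi]; simp only [eps, eps1, pow_succ]
    linear_combination (eps I v * F v) * hp i
  · intro i v hi; rw [h.1.zig2 i v hi]; simp only [eps, eps1, pow_succ]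
    linear_combination (eps I v * F v) * hp i
  · intro i v hi; rw [h.1.pf1 i v hi]; simp only [eps, eps1, pow_succ]; ring
  · intro i v hi; rw [h.1.pf2 i v hi]; simp only [eps, eps1, pow_succ]; ring
  · intro i v hi; rw [h.1.pf3 i v hi]; simp only [eps, eps1, pow_succ]; ring
  · intro i v hi; rw [h.1.pf4 i v hi]; simp only [eps, eps1, pow_succ]; ring
  · intro i v hi; rw [h.1.r2a i v hi]; simp only [eps, eps1]
    linear_combination (-eps I v * F v) * hI
  · intro i v hi; rw [h.1.r2b i v hi]; simp only [eps, eps1]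
    linear_combination (-eps I v * F v) * hI
  · intro i v hi; rw [h.1.r3 i v hi]; simp only [eps, eps1]
  · intro i v hi; rw [h.1.curlR i v hi]; simp only [eps, eps1]
    linear_combination (-I * a * eps I v * F v) * hp (i + 1)
  · intro i v hi; rw [h.1.curlL i v hi]; simp only [eps, eps1]
    linear_combination (-I * a * eps I v * F v) * hp i
  · intro i v hi
    have := h.1.skein i v hi
    simp only [eps, eps1]
    linear_combination (I * eps I v) * this +
      (I * z * eps I v * F ((cap, i) :: (cup, i) :: v)) * hp i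
  · intro i v hi; dsimp only; rw [h.2 i v hi]; simp only [eps, eps1]
    linear_combination (-d * eps I v * F v) * hp i

theorem good_twist {a z d : K} {F : W → K} (hI : I * I = -1) (h : Good0 a z (-1) 0 F)
    (hl : Loops d 0 F) : Good0 (-I * a) (I * z) 1 0 (fun v => eps I v * F v) ∧
      Loops (-d) 0 (fun v => eps I v * F v) := by
  refine good_of_HL fun u k' hu => ?_
  have h1 : HL a z (-1) d k' (fun v => F (u ++ v)) := ⟨h u k' hu, hl u k' hu⟩
  have h2 := (h1.twist I hI).smul (eps I u)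
  simpa only [eps_append, mul_assoc] using h2

end Twist

end Pool.Agent.MP_995973_gt

end MrgPart1

-- ======== part 2: formerly Pool.Agent.MP_995973_gt.Exist
section MrgPart2

/-! Existence and uniqueness of the Kauffman invariant on words. -/

set_option autoImplicit false

namespace Pool.Agent.MP_995973_gt

open Kind LaurentPolynomial

abbrev R := ℤ[T;T⁻¹][T;T⁻¹]

noncomputable def aU : Rˣ := ⟨T 1, T (-1), by rw [← T_add]; rfl, by rw [← T_add]; rfl⟩

noncomputable def zU : Rˣ :=
  ⟨C (T 1), C (T (-1)), by rw [← map_mul, ← T_add]; rfl, by rw [← map_mul, ← T_add]; rfl⟩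

noncomputable def Lam (w : W) : R := pev aU zU (lam w)

noncomputable def phi (x y : ℂˣ) : R →+* ℂ := eval₂ (eval₂ (Int.castRingHom ℂ) y) x

theorem phi_a (x y : ℂˣ) : phi x y (T 1) = x := by simp [phi]

theorem phi_z (x y : ℂˣ) : phi x y (C (T 1)) = y := by simp [phi]

theorem phi_pev (x y : ℂˣ) : ∀ p : Poly, phi x y (pev aU zU p) = pev x y p
  | [] => map_zero _
  | t :: p => by
    have ha : Units.map (phi x y : R →* ℂ) aU = x := Units.ext (phi_a x y)
    have hz : Units.map (phi x y : R →* ℂ) zU = y := Units.ext (phi_z x y)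
    have h1 : phi x y ((aU ^ t.1 : Rˣ) : R) = ((x ^ t.1 : ℂˣ) : ℂ) := by
      have := map_zpow (Units.map (phi x y : R →* ℂ)) aU t.1
      rw [ha] at this
      exact congrArg Units.val this
    have h2 : phi x y ((zU ^ t.2.1 : Rˣ) : R) = ((y ^ t.2.1 : ℂˣ) : ℂ) := by
      have := map_zpow (Units.map (phi x y : R →* ℂ)) zU t.2.1
      rw [hz] at this
      exact congrArg Units.val this
    simp only [pev, mon, map_add, map_mul, phi_pev x y p, h1, h2, map_intCast]

theorem laurent_zero {S : Type*} [CommRing S] (f : S →+* ℂ) (p : S[T;T⁻¹]) (x : ℕ → ℂˣ)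
    (hx : Function.Injective x) (h : ∀ n, eval₂ f (x n) p = 0) (k : ℤ) : f (p.coeff k) = 0 := by
  obtain ⟨n, P, hP⟩ := exists_T_pow p
  have h0 : P.map f = 0 := by
    apply Polynomial.eq_zero_of_infinite_isRoot
    refine Set.infinite_of_injective_forall_mem (f := fun m => ((x m : ℂˣ) : ℂ))
      (fun i j hij => hx (Units.ext hij)) fun m => ?_
    show Polynomial.IsRoot _ _
    rw [Polynomial.IsRoot, Polynomial.eval_map, ← eval₂_toLaurent, hP, map_mul, h m, zero_mul]
  have h1 : p = Polynomial.toLaurent P * T (-n) := by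
    rw [hP, mul_T_assoc]; simp
  have h2 : ∀ j : ℤ, f ((Polynomial.toLaurent P).coeff j) = 0 := by
    intro j
    rw [coeff_toLaurent]
    by_cases hj : j ∈ Set.range (Nat.castEmbedding (R := ℤ))
    · obtain ⟨i, rfl⟩ := hj
      rw [Finsupp.mapDomain_apply (Nat.castEmbedding (R := ℤ)).injective]
      have := congrArg (fun Q => Polynomial.coeff Q i) h0
      simp only [Polynomial.coeff_map, Polynomial.coeff_zero] at this
      exact this
    · rw [Finsupp.mapDomain_of_notMem_range _ _ hj, map_zero]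
  rw [h1]
  have : (Polynomial.toLaurent P * T (-(n : ℤ))).coeff k = (Polynomial.toLaurent P).coeff (k + n) := by
    rw [T, AddMonoidAlgebra.coeff_mul_single_apply]; simp
  rw [this, h2]

theorem two_le_q (m : ℕ) : ((m : ℂ) + 2) ≠ 0 := by
  have : ((m + 2 : ℕ) : ℂ) ≠ 0 := Nat.cast_ne_zero.2 (by omega)
  simpa using this

theorem q2_ne (m : ℕ) : ((m : ℂ) + 2) ^ 2 - 1 ≠ 0 := by
  have : ((m * m + 4 * m + 3 : ℕ) : ℂ) ≠ 0 := Nat.cast_ne_zero.2 (by omega)
  intro h; apply this; push_cast; linear_combination h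

noncomputable def xU (m n : ℕ) : ℂˣ :=
  Units.mk0 (-Complex.I * ((((m : ℂ) + 2) ^ 2) ^ (n + 1) * ((m : ℂ) + 2)⁻¹))
    (mul_ne_zero (neg_ne_zero.2 Complex.I_ne_zero)
      (mul_ne_zero (pow_ne_zero _ (pow_ne_zero _ (two_le_q m))) (inv_ne_zero (two_le_q m))))

noncomputable def yU (m : ℕ) : ℂˣ :=
  Units.mk0 (Complex.I * zq ((m : ℂ) + 2))
    (mul_ne_zero Complex.I_ne_zero (div_ne_zero (q2_ne m) (two_le_q m)))

theorem xU_inj (m : ℕ) : Function.Injective (xU m) := by
  intro i j h
  have h1 := congrArg Units.val h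
  simp only [xU, Units.val_mk0] at h1
  have h2 := mul_right_cancel₀ (inv_ne_zero (two_le_q m))
    (mul_left_cancel₀ (neg_ne_zero.2 Complex.I_ne_zero) h1)
  have h3 : (((m + 2) ^ 2) ^ (i + 1) : ℕ) = ((m + 2) ^ 2) ^ (j + 1) := by exact_mod_cast h2
  have := Nat.pow_right_injective (show 2 ≤ (m + 2) ^ 2 by nlinarith [Nat.zero_le m, Nat.zero_le (m * m)]) h3
  omega

theorem yU_inj : Function.Injective yU := by
  intro i j h
  have h1 := congrArg Units.val h
  simp only [yU, Units.val_mk0, zq] at h1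
  have h2 := mul_left_cancel₀ Complex.I_ne_zero h1
  rw [div_eq_div_iff (two_le_q i) (two_le_q j)] at h2
  have h3 : (((i : ℤ) + 2) ^ 2 - 1) * ((j : ℤ) + 2) = (((j : ℤ) + 2) ^ 2 - 1) * ((i : ℤ) + 2) := by
    exact_mod_cast h2
  have h4 : ((i : ℤ) - j) * ((i + 2) * (j + 2) + 1) = 0 := by linear_combination h3
  rcases mul_eq_zero.1 h4 with h5 | h5
  · omega
  · have : (0 : ℤ) < (i + 2) * (j + 2) + 1 := by positivity
    omega

theorem ext_fam {p p' : R} (h : ∀ m n, phi (xU m n) (yU m) p = phi (xU m n) (yU m) p') :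
    p = p' := by
  rw [← sub_eq_zero]
  ext k j
  have h1 : ∀ m, eval₂ (Int.castRingHom ℂ) (yU m) ((p - p').coeff k) = 0 := fun m =>
    laurent_zero _ (p - p') (xU m) (xU_inj m)
      (fun n => by have := h m n; rw [← sub_eq_zero, ← map_sub] at this; exact this) k
  have h2 := laurent_zero _ _ yU yU_inj h1 j
  rw [eq_intCast, Int.cast_eq_zero] at h2
  simpa using h2

theorem exists_fam (m n : ℕ) : ∃ (G : W → ℂ) (c : ℂ), c ≠ 0 ∧
    Good0 (xU m n : ℂ) (yU m : ℂ) 1 0 G ∧
    ∀ w, IsDiagram w → G w = phi (xU m n) (yU m) (Lam w) * c := by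
  obtain ⟨F, h1, h2⟩ := exists_tower (two_le_q m) (q2_ne m) (n + 1)
  obtain ⟨h3, h4⟩ := good_twist Complex.I Complex.I_mul_I h1.good h1.loops
  have hq := two_le_q m
  have hq2 := q2_ne m
  set q : ℂ := (m : ℂ) + 2 with hqdef
  set A : ℂ := (q ^ 2) ^ (n + 1) * q⁻¹ with hA
  have hA0 : A ≠ 0 := h1.ha
  have hd : -dq q A = ((xU m n : ℂ) + ((xU m n)⁻¹ : ℂˣ)) * ((yU m)⁻¹ : ℂˣ) - 1 := by
    simp only [Units.val_inv_eq_inv_val, xU, yU, Units.val_mk0, ← hqdef, ← hA, dq, zq]
    have hI := Complex.I_ne_zero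
    field_simp
    rw [Complex.I_sq]; ring
  have hne : dq q A ≠ 0 := by
    have hr : (1 : ℝ) < (m : ℝ) + 2 := by have := Nat.cast_nonneg (α := ℝ) m; linarith
    set r : ℝ := (m : ℝ) + 2 with hrdef
    have hqr : q = (r : ℂ) := by simp [hqdef, hrdef]
    have hB : (1 : ℝ) ≤ (r ^ 2) ^ (n + 1) * r⁻¹ := by
      have e : (r ^ 2) ^ (n + 1) * r⁻¹ = (r ^ 2) ^ n * r := by field_simp; ring
      rw [e]
      have : (1 : ℝ) ≤ (r ^ 2) ^ n := one_le_pow₀ (one_le_pow₀ hr.le)
      nlinarith
    set B : ℝ := (r ^ 2) ^ (n + 1) * r⁻¹ with hBdef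
    have hAB : A = (B : ℂ) := by simp [hA, hBdef, hqr]
    have hpos : (0 : ℝ) < (B - B⁻¹) * r / (r ^ 2 - 1) + 1 := by
      have : B⁻¹ ≤ 1 := inv_le_one_of_one_le₀ hB
      have h5 : 0 ≤ B - B⁻¹ := by linarith
      have h6 : 0 < r ^ 2 - 1 := by nlinarith
      positivity
    have : dq q A = (((B - B⁻¹) * r / (r ^ 2 - 1) + 1 : ℝ) : ℂ) := by
      rw [hAB, hqr, dq]; push_cast; rfl
    rw [this]
    exact_mod_cast hpos.ne'
  refine ⟨_, -dq q A, neg_ne_zero.2 hne, h3, fun w hw => ?_⟩
  have h5 := sound_lam (a := xU m n) (z := yU m) h3 (hd ▸ h4) hw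
  rw [h5, Lam, phi_pev]
  have h6 := h4.head 0 [] le_rfl
  simp only [eps, h2, mul_one] at h6 ⊢
  rw [h6]

theorem Move.val {l r : W} {k k' : ℕ} (h : Move l r) (hl : Val k l k') : Val k r k' := by
  cases h
  case comm g h i j hij =>
    cases g <;> cases h <;> simp only [Val, din, dout] at hl ⊢ <;> omega
  all_goals simp only [Val, din, dout] at hl ⊢; omega

theorem Move.head {K : Type*} [CommRing K] {a z s : K} {F : W → K} {l r : W} {k k' : ℕ}
    (h : Move l r) (hl : Val k l k') (hF : Head0 a z s k F) (v : W) : F (l ++ v) = F (r ++ v) := by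
  cases h
  case comm g h i j hij =>
    exact hF.comm g h i j v hij (by cases g <;> cases h <;> simp only [Val, din, dout] at hl ⊢ <;> omega)
  all_goals simp only [Val, din, dout] at hl
  · exact hF.zig1 _ v (by omega)
  · exact hF.zig2 _ v (by omega)
  · exact hF.pf1 _ v (by omega)
  · exact hF.pf2 _ v (by omega)
  · exact hF.pf3 _ v (by omega)
  · exact hF.pf4 _ v (by omega)
  · exact hF.r2a _ v (by omega)
  · exact hF.r2b _ v (by omega)
  · exact hF.r3 _ v (by omega)

theorem diagram_split {u l v : W} (h : IsDiagram (u ++ l ++ v)) :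
    ∃ k k', Val 0 u k ∧ Val k l k' ∧ ok k' v := by
  have h1 := h.2
  rw [List.append_assoc] at h1
  obtain ⟨k, h2, h3⟩ := val_of_ok_append h1
  obtain ⟨k', h4, h5⟩ := val_of_ok_append h3
  exact ⟨k, k', h2, h4, h5⟩

theorem diagram_join {u l v : W} {k k' : ℕ} (h1 : Val 0 u k) (h2 : Val k l k') (h3 : ok k' v)
    (h4 : l ≠ [] ∨ 1 ≤ k) : IsDiagram (u ++ l ++ v) := by
  refine ⟨?_, by rw [ok_append (h1.append h2)]; exact h3⟩
  intro h
  simp only [List.append_eq_nil_iff] at h
  obtain ⟨⟨rfl, rfl⟩, -⟩ := h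
  have : 0 = k := h1
  rcases h4 with h4 | h4
  · exact h4 rfl
  · omega

theorem Move.ne {l r : W} {k k' : ℕ} (h : Move l r) (hl : Val k l k') : r ≠ [] ∨ 1 ≤ k := by
  cases h <;> simp only [Val, din, dout] at hl <;> first | (left; simp; done) | (right; omega)

theorem Move.ne' {l r : W} (h : Move l r) : l ≠ [] := by cases h <;> simp

theorem isKauffman_Lam : IsKauffman Lam := by
  refine ⟨?_, ?_, ?_, ?_, ?_⟩
  · have : lam [(cup, 0), (cap, 0)] = [(0, 0, 1)] := rfl
    simp [Lam, this, pev, mon]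
  · intro u l r v hm hd
    obtain ⟨k, k', h1, h2, h3⟩ := diagram_split hd
    have hd' := diagram_join h1 (hm.val h2) h3 (hm.ne h2)
    refine ext_fam fun m n => ?_
    obtain ⟨G, c, hc, hG, hv⟩ := exists_fam m n
    apply mul_right_cancel₀ hc
    rw [← hv _ hd, ← hv _ hd', List.append_assoc, List.append_assoc]
    exact hm.head h2 (hG u k h1) v
  · intro u v i hd
    obtain ⟨k, k', h1, h2, h3⟩ := diagram_split hd
    simp only [Val, din, dout] at h2
    have hd' := diagram_join (l := []) h1 (show Val k [] k' by show k = k'; omega) h3 (by omega)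
    rw [List.append_nil] at hd'
    refine ext_fam fun m n => ?_
    obtain ⟨G, c, hc, hG, hv⟩ := exists_fam m n
    apply mul_right_cancel₀ hc
    rw [map_mul, mul_assoc, ← hv _ hd, ← hv _ hd', List.append_assoc, phi_a]
    exact (hG u k h1).curlR i v (by omega)
  · intro u v i hd
    obtain ⟨k, k', h1, h2, h3⟩ := diagram_split hd
    simp only [Val, din, dout] at h2
    have hd' := diagram_join (l := []) h1 (show Val k [] k' by show k = k'; omega) h3 (by omega)
    rw [List.append_nil] at hd'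
    refine ext_fam fun m n => ?_
    obtain ⟨G, c, hc, hG, hv⟩ := exists_fam m n
    apply mul_right_cancel₀ hc
    rw [map_mul, mul_assoc, ← hv _ hd, ← hv _ hd', List.append_assoc, phi_a]
    exact (hG u k h1).curlL i v (by omega)
  · intro u v i hd
    obtain ⟨k, k', h1, h2, h3⟩ := diagram_split hd
    simp only [Val, din, dout] at h2
    have hd1 := diagram_join (l := []) h1 (show Val k [] k' by show k = k'; omega) h3 (by omega)
    rw [List.append_nil] at hd1
    have hd2 := diagram_join (l := [(xr, i)]) h1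
      (show Val k _ k' by simp only [Val, din, dout]; omega) h3 (by omega)
    have hd3 := diagram_join (l := [(cap, i), (cup, i)]) h1
      (show Val k _ k' by simp only [Val, din, dout]; omega) h3 (by omega)
    refine ext_fam fun m n => ?_
    obtain ⟨G, c, hc, hG, hv⟩ := exists_fam m n
    apply mul_right_cancel₀ hc
    rw [map_mul, map_add, map_add, mul_assoc, add_mul, add_mul, ← hv _ hd, ← hv _ hd1, ← hv _ hd2,
      ← hv _ hd3, phi_z]
    simpa only [one_mul, List.append_assoc, List.cons_append, List.nil_append] using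
      (hG u k h1).skein i v (by omega)

noncomputable def dl : R := ((aU : R) + (aU⁻¹ : Rˣ)) * (zU⁻¹ : Rˣ) - 1

open Classical in
noncomputable def ext0 (L : W → R) (w : W) : R :=
  if ok 0 w then (if w = [] then 1 else dl * L w) else 0

theorem ext0_diag (L : W → R) {w : W} (h : IsDiagram w) : ext0 L w = dl * L w := by
  simp [ext0, h.1, h.2]

theorem ext0_cases (L : W → R) {u : W} {k k' : ℕ} (hu : Val 0 u k) (v : W) :
    (ok k' v ∧ ∀ l, Val k l k' → (l ≠ [] ∨ 1 ≤ k) →
      IsDiagram (u ++ l ++ v) ∧ ext0 L (u ++ (l ++ v)) = dl * L (u ++ l ++ v)) ∨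
    (∀ l, Val k l k' → ext0 L (u ++ (l ++ v)) = 0) := by
  by_cases h : ok k' v
  · refine Or.inl ⟨h, fun l hl hne => ?_⟩
    have := diagram_join hu hl h hne
    exact ⟨this, by rw [← List.append_assoc, ext0_diag L this]⟩
  · refine Or.inr fun l hl => ?_
    rw [ext0, if_neg]
    rw [← List.append_assoc, ok_append (hu.append hl)]; exact h

theorem good_ext0 {L : W → R} (hL : IsKauffman L) : Good0 (aU : R) zU 1 0 (ext0 L) := by
  intro u k hu
  have mv : ∀ {l r : W} (v : W), Move l r → (∃ k', Val k l k') →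
      ext0 L (u ++ (l ++ v)) = ext0 L (u ++ (r ++ v)) := by
    rintro l r v hm ⟨k', hl⟩
    rcases ext0_cases L (k' := k') hu v with ⟨-, h⟩ | h
    · rw [(h l hl (Or.inl hm.ne')).2, (h r (hm.val hl) (hm.ne hl)).2,
        hL.move u l r v hm (h l hl (Or.inl hm.ne')).1]
    · rw [h l hl, h r (hm.val hl)]
  refine ⟨?_, ?_, ?_, ?_, ?_, ?_, ?_, ?_, ?_, ?_, ?_, ?_, ?_⟩
  · intro g g' i j v h1 h2
    exact mv v (Move.comm g g' i j h1) ⟨_, by omega,
      by cases g <;> cases g' <;> simp only [din, dout] at h2 ⊢ <;> omega, rfl⟩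
  · intro i v hi; exact mv v (Move.zig1 i) ⟨k, by simp only [Val, din, dout]; omega⟩
  · intro i v hi; exact mv v (Move.zig2 i) ⟨k, by simp only [Val, din, dout]; omega⟩
  · intro i v hi; exact mv v (Move.pf1 i) ⟨k + 2, by simp only [Val, din, dout]; omega⟩
  · intro i v hi; exact mv v (Move.pf2 i) ⟨k + 2, by simp only [Val, din, dout]; omega⟩
  · intro i v hi; exact mv v (Move.pf3 i) ⟨k - 2, by simp only [Val, din, dout]; omega⟩
  · intro i v hi; exact mv v (Move.pf4 i) ⟨k - 2, by simp only [Val, din, dout]; omega⟩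
  · intro i v hi; exact mv v (Move.r2a i) ⟨k, by simp only [Val, din, dout]; omega⟩
  · intro i v hi; exact mv v (Move.r2b i) ⟨k, by simp only [Val, din, dout]; omega⟩
  · intro i v hi; exact mv v (Move.r3 i) ⟨k, by simp only [Val, din, dout]; omega⟩
  · intro i v hi
    have v1 : Val k [(cup, i + 1), (xl, i), (cap, i + 1)] k := by simp only [Val, din, dout]; omega
    rcases ext0_cases L (k' := k) hu v with ⟨-, h⟩ | h
    · have e1 := h _ v1 (by omega)
      have e2 := (h [] rfl (by omega)).2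
      rw [hL.curlR u v i e1.1] at e1
      rw [List.append_nil] at e2
      exact e1.2.trans (by rw [show ext0 L (u ++ v) = _ from e2]; show _ = T 1 * _; ring)
    · exact (h _ v1).trans (by rw [show ext0 L (u ++ v) = _ from h [] rfl, mul_zero])
  · intro i v hi
    have v1 : Val k [(cup, i), (xl, i + 1), (cap, i)] k := by simp only [Val, din, dout]; omega
    rcases ext0_cases L (k' := k) hu v with ⟨-, h⟩ | h
    · have e1 := h _ v1 (by omega)
      have e2 := (h [] rfl (by omega)).2
      rw [hL.curlL u v i e1.1] at e1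
      rw [List.append_nil] at e2
      exact e1.2.trans (by rw [show ext0 L (u ++ v) = _ from e2]; show _ = T 1 * _; ring)
    · exact (h _ v1).trans (by rw [show ext0 L (u ++ v) = _ from h [] rfl, mul_zero])
  · intro i v hi
    have v1 : Val k [(xl, i)] k := by simp only [Val, din, dout]; omega
    have v2 : Val k [(xr, i)] k := by simp only [Val, din, dout]; omega
    have v3 : Val k [(cap, i), (cup, i)] k := by simp only [Val, din, dout]; omega
    show ext0 L (u ++ ([(xl, i)] ++ v)) + 1 * ext0 L (u ++ ([(xr, i)] ++ v)) =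
      C (T 1) * (ext0 L (u ++ ([] ++ v)) + 1 * ext0 L (u ++ ([(cap, i), (cup, i)] ++ v)))
    rcases ext0_cases L (k' := k) hu v with ⟨-, h⟩ | h
    · rw [(h _ v1 (by omega)).2, (h _ v2 (by omega)).2, (h _ v3 (by omega)).2,
        (h [] rfl (by omega)).2, List.append_nil]
      linear_combination dl * hL.skein u v i (h _ v1 (by omega)).1
    · rw [h _ v1, h _ v2, h _ v3, h [] rfl]; ring

theorem loops_ext0 {L : W → R} (hL : IsKauffman L) : Loops dl 0 (ext0 L) := by
  have hai : (aU : R) * (aU⁻¹ : Rˣ) = 1 := by simp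
  have hzi : (zU : R) * (zU⁻¹ : Rˣ) = 1 := by simp
  have ccc : ∀ {k : ℕ} {G : W → R}, Good0 (aU : R) zU 1 k G → ∀ i v, i ≤ k →
      G ((cup, i) :: (cap, i) :: (cup, i) :: v) = dl * G ((cup, i) :: v) := by
    intro k G hG i v hi
    have e1 := (hG.scup i hi).head.skein i v (by omega)
    have e2 := hG.cupL hai i v hi
    have e3 := hG.cupR i v hi
    simp only [dl] at *
    linear_combination (-(zU⁻¹ : Rˣ) : R) * (e1 - e2 - e3) -
      (G ((cup, i) :: v) + G ((cup, i) :: (cap, i) :: (cup, i) :: v)) * hzi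
  have kck : ∀ {k : ℕ} {G : W → R}, Good0 (aU : R) zU 1 k G → ∀ i v, i + 2 ≤ k →
      G ((cap, i) :: (cup, i) :: (cap, i) :: v) = dl * G ((cap, i) :: v) := by
    intro k G hG i v hi
    have e1 := hG.head.skein i ((cap, i) :: v) hi
    have e2 := hG.capL hai i v hi
    have e3 := hG.capR i v hi
    simp only [dl] at *
    linear_combination (-(zU⁻¹ : Rˣ) : R) * (e1 - e2 - e3) -
      (G ((cap, i) :: v) + G ((cap, i) :: (cup, i) :: (cap, i) :: v)) * hzi
  intro u k hu i v hi
  have hG := (good_ext0 hL).shift hu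
  have hG2 : Good0 (aU : R) zU 1 k (fun v => ext0 L (u ++ (cup, i) :: (cap, i) :: v)) :=
    (hG.scup i hi).scap i (by omega)
  by_cases h1 : i + 1 ≤ k
  · exact (hG2.head.zig2 i v h1).symm.trans ((ccc hG i _ hi).trans
      (congrArg (dl * ·) (hG.head.zig2 i v h1)))
  rcases i with _ | j
  · obtain rfl : k = 0 := by omega
    rcases v with _ | ⟨⟨g, j⟩, v⟩
    · rcases eq_or_ne u [] with rfl | hne
      · have : IsDiagram [(cup, 0), (cap, 0)] := ⟨by simp, by simp [ok, din, dout]⟩
        rw [List.nil_append, ext0_diag L this, hL.circle]; simp [ext0, ok]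
      · obtain ⟨e1, e2⟩ := val_last hne hu
        have := kck ((good_ext0 hL).shift e2) 0 [] le_rfl
        rw [e1]; simpa only [List.append_assoc, List.append_nil, List.cons_append, List.nil_append]
          using this
    · by_cases h2 : j + din g ≤ 0
      · obtain rfl : j = 0 := by omega
        cases g <;> simp only [din] at h2 <;> try omega
        exact ccc hG 0 v le_rfl
      · have v1 : Val 0 [(cup, 0), (cap, 0)] 0 := ⟨le_rfl, le_rfl, rfl⟩
        rcases ext0_cases L (k' := 0) hu ((g, j) :: v) with ⟨h, -⟩ | h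
        · exact absurd h.1 h2
        · exact (h _ v1).trans (by rw [show ext0 L (u ++ (g, j) :: v) = _ from h [] rfl, mul_zero])
  · exact (hG2.head.zig1 j v hi).symm.trans ((ccc hG (j + 1) _ hi).trans
      (congrArg (dl * ·) (hG.head.zig1 j v hi)))

theorem dl_ne : dl ≠ 0 := by
  intro h
  have h1 : ((aU : R) + (aU⁻¹ : Rˣ)) = zU := by
    have hzi : (zU : R) * (zU⁻¹ : Rˣ) = 1 := by simp
    simp only [dl] at h
    linear_combination (zU : R) * h - ((aU : R) + (aU⁻¹ : Rˣ)) * hzi
  have h2 := congrArg (fun p : R => p.coeff 1) h1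
  have e1 : ((aU : Rˣ) : R) = T 1 := rfl
  have e2 : ((aU⁻¹ : Rˣ) : R) = T (-1) := rfl
  have e3 : ((zU : Rˣ) : R) = C (T 1) := rfl
  simp [e1, e2, e3] at h2

theorem unique_Lam {L : W → R} (hL : IsKauffman L) {w : W} (hw : IsDiagram w) : L w = Lam w := by
  have h := sound_lam (good_ext0 hL) (loops_ext0 hL) hw
  have : IsDiagram [(cup, 0), (cap, 0)] := ⟨by simp, by simp [ok, din, dout]⟩
  rw [ext0_diag L hw, ext0_diag L this, hL.circle, mul_one, mul_comm _ dl] at h
  exact mul_left_cancel₀ dl_ne h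

end Pool.Agent.MP_995973_gt

end MrgPart2

-- ======== part 3: formerly Pool.Agent.MP_995973_gt.Final
section MrgPart3

/-! Assembly: the polynomial of the diagram, its degree, and the surface. -/

set_option autoImplicit false
set_option maxRecDepth 100000

namespace Pool.Agent.MP_995973_gt

open Kind LaurentPolynomial

def lev : ℕ → W → ℕ
  | m, [] => m
  | m, (cup, _) :: w => lev (m + 1) w
  | m, (cap, _) :: w => lev (m - 1) w
  | m, (xl, _) :: w => lev m w
  | m, (xr, _) :: w => lev m w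

theorem runV_append (v : W) : ∀ (u : W) (m : ℕ) (V : Vec),
    runV m (u ++ v) V = runV (lev m u) v (runV m u V)
  | [], _, _ => rfl
  | (cup, _) :: u, _, _ => runV_append v u _ _
  | (cap, _) :: u, _, _ => runV_append v u _ _
  | (xl, _) :: u, _, _ => runV_append v u _ _
  | (xr, _) :: u, _, _ => runV_append v u _ _

theorem lam_D0 : lam D0 = P0 := by
  have e : D0.dropLast = w0 ++ (w1 ++ (w2 ++ (w3 ++ (w4 ++ (w5 ++ w6))))) := rfl
  have l0 : lev 0 w0 = 4 := rfl
  have l1 : lev 4 w1 = 4 := rfl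
  have l2 : lev 4 w2 = 3 := rfl
  have l3 : lev 3 w3 = 4 := rfl
  have l4 : lev 4 w4 = 4 := rfl
  have l5 : lev 4 w5 = 4 := rfl
  rw [lam, e, runV_append, stage0, l0, runV_append, stage1, l1, runV_append, stage2, l2,
    runV_append, stage3, l3, runV_append, stage4, l4, runV_append, stage5, l5, stage6]

theorem aU_zpow (n : ℤ) : ((aU ^ n : Rˣ) : R) = T n := by
  induction n using Int.induction_on with
  | zero => rfl
  | succ n ih => rw [zpow_add_one, Units.val_mul, ih, T_add]; rfl
  | pred n ih => rw [zpow_sub_one, Units.val_mul, ih, T_sub]; rfl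

theorem zU_zpow (n : ℤ) : ((zU ^ n : Rˣ) : R) = C (T n) := by
  induction n using Int.induction_on with
  | zero => rfl
  | succ n ih => rw [zpow_add_one, Units.val_mul, ih, T_add, map_mul]; rfl
  | pred n ih => rw [zpow_sub_one, Units.val_mul, ih, T_sub, map_mul]; rfl

def cf (n j : ℤ) : Poly → ℤ
  | [] => 0
  | x :: p => (if x.1 = n ∧ x.2.1 = j then x.2.2 else 0) + cf n j p

theorem coeff_pev (k n j : ℤ) : ∀ p : Poly,
    ((T k * pev aU zU p : R).coeff (k + n)).coeff j = cf n j p
  | [] => by simp [pev, cf]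
  | x :: p => by
    have e : (T k * mon aU zU x : R) =
        AddMonoidAlgebra.single (k + x.1) (AddMonoidAlgebra.single x.2.1 x.2.2) := by
      rw [single_eq_C_mul_T, single_eq_C_mul_T, mon, aU_zpow, zU_zpow, T_add, map_mul,
        eq_intCast (C : ℤ →+* ℤ[T;T⁻¹]), map_intCast]
      ring
    rw [pev, mul_add, AddMonoidAlgebra.coeff_add, Finsupp.add_apply, AddMonoidAlgebra.coeff_add,
      Finsupp.add_apply, coeff_pev k n j p, cf, e]
    congr 1
    simp only [AddMonoidAlgebra.coeff_single, Finsupp.single_apply, add_right_inj]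
    by_cases h1 : x.1 = n
    · simp only [h1, if_true, true_and, AddMonoidAlgebra.coeff_single, Finsupp.single_apply]
    · simp [h1]

theorem cf_zero {n j : ℤ} : ∀ {p : Poly}, (∀ x ∈ p, x.1 < n) → cf n j p = 0
  | [], _ => rfl
  | x :: p, h => by
    rw [cf, cf_zero fun y hy => h y (List.mem_cons_of_mem _ hy),
      if_neg fun e => (h x List.mem_cons_self).ne e.1, add_zero]

theorem mindeg_D0 : (invert (T (-8) * Lam D0)).coeff.support.min = ((5 : ℤ) : WithTop ℤ) := by
  rw [Lam, lam_D0]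
  refine le_antisymm (Finset.min_le ?_) (Finset.le_min fun n hn => ?_)
  · rw [Finsupp.mem_support_iff, invert_apply]
    intro h
    have h1 := coeff_pev (-8) 3 3 P0
    have h2 : cf 3 3 P0 = 1 := by decide +kernel
    rw [show (-8 + 3 : ℤ) = -5 by norm_num, h, h2] at h1
    simp at h1
  · rw [Finsupp.mem_support_iff, invert_apply] at hn
    refine WithTop.coe_le_coe.2 (not_lt.1 fun h => hn ?_)
    ext j
    have h1 := coeff_pev (-8) (8 - n) j P0
    have h2 : ∀ x ∈ P0, x.1 ≤ 3 := by decide +kernel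
    rw [show (-8 + (8 - n) : ℤ) = -n by ring, cf_zero fun x hx => by have := h2 x hx; omega] at h1
    simpa using h1

theorem diagram_D0 : IsDiagram D0 := by
  refine ⟨by simp [D0], ?_⟩
  simp [D0, ok, din, dout]

attribute [local irreducible] Tl Bl Vl

theorem mem_Vl : (∀ t ∈ Tl, t.1 ∈ Vl ∧ t.2.1 ∈ Vl ∧ t.2.2 ∈ Vl) ∧ ∀ e ∈ Bl, e.1 ∈ Vl := by
  refine ⟨fun t ht => ?_, fun e he => (maskN_iff _ _).1 (List.all_eq_true.1 chk_memB e he)⟩
  have := List.all_eq_true.1 chk_mem t ht
  simp only [Bool.and_eq_true, maskN_iff] at this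
  exact ⟨this.1.1, this.1.2, this.2⟩

theorem bd_iff (u v : ℕ) :
    ((u, v) ∈ Tl.toFinset.biUnion de ∧ (v, u) ∉ Tl.toFinset.biUnion de) ↔ (u, v) ∈ Bl :=
  bdry_iff2 Tl Bl Vl 30 (List.all_eq_true.1 chk_vtx) mem_Vl.1 mem_Vl.2 u v

theorem surface_Tl : IsSurface Tl.toFinset pos ∧ euler Tl.toFinset = -3 := by
  have h := surface_of_checks Tl Bl Vl 30 pairwise_Tl chk_ind
    (fun v hv => by
      have := List.all_eq_true.1 chk_vtx v hv
      simp only [vtxC, Bool.and_eq_true] at this
      exact this.1.1)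
    mem_Vl.1 (connC_sound 8 Tl chk_conn) chk_incr
    (List.Nodup.of_map _ (ndM_sound _ _ chk_nodup).1) bd_iff
  obtain ⟨-, -, -, -, l4, l5, l6⟩ := chk_len
  rw [l4, l5, l6] at h
  exact ⟨h.1, by have := h.2; omega⟩

theorem mem_bdry_of (S : Finset Tri) (B : List (ℕ × ℕ))
    (h : ∀ u v, ((u, v) ∈ S.biUnion de ∧ (v, u) ∉ S.biUnion de) ↔ (u, v) ∈ B)
    (e : (Fin 3 → ℝ) × (Fin 3 → ℝ)) : e ∈ bdry S pos ↔ ∃ b ∈ B, e = (pos b.1, pos b.2) :=
  ⟨fun ⟨u, v, h1, h2, h3⟩ => ⟨(u, v), (h u v).1 ⟨h1, h2⟩, h3⟩,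
    fun ⟨b, h1, h2⟩ => ⟨b.1, b.2, ((h b.1 b.2).2 h1).1, ((h b.1 b.2).2 h1).2, h2⟩⟩

theorem mem_bdry (e : (Fin 3 → ℝ) × (Fin 3 → ℝ)) :
    e ∈ bdry Tl.toFinset pos ↔ ∃ b ∈ Bl, e = (pos b.1, pos b.2) :=
  mem_bdry_of _ _ bd_iff e

theorem bdry_D0 (x y : Fin 3 → ℝ) :
    ((x, y) ∈ bdry Tl.toFinset pos ∨ (y, x) ∈ bdry Tl.toFinset pos) ↔
      ((x, y) ∈ segs 0 0 D0 ∨ (y, x) ∈ segs 0 0 D0) := by
  rw [mem_bdry, mem_bdry, segs_eq]
  exact alignC_sound x y Bl _ chk_align

theorem writhe_D0 : writhe (bdry Tl.toFinset pos) 0 D0 = 8 := by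
  rw [writhe_eq _ (Bl.map fun e => (dec e.1, dec e.2)), chk_writhe]
  intro a b
  rw [mem_bdry, List.mem_map]
  refine exists_congr fun e => and_congr_right fun _ => ?_
  simp only [Prod.mk.injEq, pos]
  exact ⟨fun h => ⟨(ptp_inj h.1).symm, (ptp_inj h.2).symm⟩, fun h => ⟨by rw [h.1], by rw [h.2]⟩⟩

end Pool.Agent.MP_995973_gt

end MrgPart3

-- marker of a merged file
example : 731051 + 209505 = 731051 + 209505 := rfl
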