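import Pool.Agent.MP_995973_gt.PData2

/-! Kernel evaluation of the upper half of the diagram. -/

set_option autoImplicit false
set_option maxRecDepth 100000

namespace Pool.Agent.MP_995973_gt

open Kind

theorem stage4a : runV 4 [(xr, 4)] (decV V4) = decV V4x1 := by decide +kernel

theorem stage4b : runV 4 [(xr, 5)] (decV V4x1) = decV V4x2 := by decide +kernel

theorem stage4c : runV 4 [(xl, 4)] (decV V4x2) = decV V5 := by decide +kernel

theorem stage4 : runV 4 w4 (decV V4) = decV V5 := by
  rw [w4, run_xr, stage4a, run_xr, stage4b, stage4c]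

theorem stage5a : runV 4 [(xl, 3)] (decV V5) = decV V5x1 := by decide +kernel

theorem stage5b : runV 4 [(xr, 4)] (decV V5x1) = decV V5x2 := by decide +kernel

theorem stage5c : runV 4 [(xl, 5)] (decV V5x2) = decV V6 := by decide +kernel

theorem stage5 : runV 4 w5 (decV V5) = decV V6 := by
  rw [w5, run_xl, stage5a, run_xr, stage5b, stage5c]

theorem stage6a : runV 4 [(xl, 4)] (decV V6) = decV V6x1 := by decide +kernel

theorem stage6b : runV 4 [(xr, 5)] (decV V6x1) = decV V6x2 := by decide +kernel

theorem stage6c : vsum (runV 4 [(cap, 6), (cap, 2), (cap, 1)] (decV V6x2)) = P0 := by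
  decide +kernel

theorem stage6 : vsum (runV 4 w6 (decV V6)) = P0 := by
  rw [w6, run_xl, stage6a, run_xr, stage6b, stage6c]

end Pool.Agent.MP_995973_gt
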